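import Pool.Agent.Helper10.CI.Rat

/-!
# CI-BD: elements bounded at the valuation rings where `x_m` is a maximal coordinate

The finite sets and the exponents of finitely many statements are united (for the union of the sets
take `s ∪ s'`, for the exponents `M + M'`, using `Δ ∈ O`). `bd_mem`: `rat_max` with the union over
all `m`.
-/

set_option autoImplicit false

namespace Pool.Agent.Helper10.CI

open scoped BigOperators
open MvPolynomial
open Pool.Agent.Helper8.LG (Bdd form mon Ix)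
open Pool.Agent.Helper49.LN (cP mo hf pl)
open Pool.Agent.Helper6.QS (dv ev lf dt Par RatP)

section

variable {Ω : Type*} [Field Ω] {N r : ℕ} {d : Fin r → ℕ}

/-- `y` is bounded at the valuation rings where `x_m` is a maximal coordinate of `x` -/
def BddAt (D : Ix (Fin (N + 1)) d → Derivation ℤ Ω Ω) (B : Subfield Ω) (x : Fin (N + 1) → Ω)
    (m : Fin (N + 1)) (y : Ω) : Prop :=
  ∃ (s : Finset Ω) (M : ℕ), (∀ b ∈ s, b ∈ B) ∧
    ∀ (O : ValuationSubring Ω) (Δ : Ω), Bdd D Δ O → (∀ b ∈ s, Δ * b ∈ O) →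
      x m ≠ 0 → (∀ l, x l / x m ∈ O) → Δ ^ M * y ∈ O

variable {D : Ix (Fin (N + 1)) d → Derivation ℤ Ω Ω} {a : Ix (Fin (N + 1)) d → Ω}
  {B : Subfield Ω} {x : Fin (N + 1) → Ω} {m : Fin (N + 1)}

theorem Bd_pow_mem {P : Type*} {E : P → Derivation ℤ Ω Ω} {O : ValuationSubring Ω} {Δ : Ω}
    (hΔ : Bdd E Δ O) (k : ℕ) : Δ ^ k ∈ O :=
  O.toSubring.pow_mem hΔ.1 k

theorem bd_const (b : Ω) (hb : b ∈ B) : BddAt D B x m b := by
  refine ⟨{b}, 1, by simpa using hb, fun O Δ _ hsO _ _ => ?_⟩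
  rw [pow_one]
  exact hsO b (Finset.mem_singleton_self b)

theorem bd_ratio (l : Fin (N + 1)) : BddAt D B x m (x l / x m) := by
  refine ⟨∅, 0, by simp, fun O Δ _ _ _ hmax => ?_⟩
  rw [pow_zero, one_mul]
  exact hmax l

theorem bd_add {y z : Ω} (hy : BddAt D B x m y) (hz : BddAt D B x m z) :
    BddAt D B x m (y + z) := by
  classical
  obtain ⟨s, M, hs, h⟩ := hy
  obtain ⟨s', M', hs', h'⟩ := hz
  refine ⟨s ∪ s', M + M', ?_, fun O Δ hΔ hsO hm hmax => ?_⟩
  · intro b hb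
    rcases Finset.mem_union.1 hb with hb | hb
    · exact hs b hb
    · exact hs' b hb
  · have h1 := h O Δ hΔ (fun b hb => hsO b (Finset.mem_union_left _ hb)) hm hmax
    have h2 := h' O Δ hΔ (fun b hb => hsO b (Finset.mem_union_right _ hb)) hm hmax
    have h3 : Δ ^ (M + M') * (y + z) = Δ ^ M' * (Δ ^ M * y) + Δ ^ M * (Δ ^ M' * z) := by
      ring
    rw [h3]
    exact O.add_mem _ _ (O.mul_mem _ _ (Bd_pow_mem hΔ _) h1) (O.mul_mem _ _ (Bd_pow_mem hΔ _) h2)

theorem Bd_neg {y : Ω} (hy : BddAt D B x m y) : BddAt D B x m (-y) := by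
  obtain ⟨s, M, hs, h⟩ := hy
  refine ⟨s, M, hs, fun O Δ hΔ hsO hm hmax => ?_⟩
  rw [mul_neg]
  exact O.neg_mem _ (h O Δ hΔ hsO hm hmax)

theorem bd_sub {y z : Ω} (hy : BddAt D B x m y) (hz : BddAt D B x m z) :
    BddAt D B x m (y - z) := by
  rw [sub_eq_add_neg]
  exact bd_add hy (Bd_neg hz)

theorem bd_mul {y z : Ω} (hy : BddAt D B x m y) (hz : BddAt D B x m z) :
    BddAt D B x m (y * z) := by
  classical
  obtain ⟨s, M, hs, h⟩ := hy
  obtain ⟨s', M', hs', h'⟩ := hz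
  refine ⟨s ∪ s', M + M', ?_, fun O Δ hΔ hsO hm hmax => ?_⟩
  · intro b hb
    rcases Finset.mem_union.1 hb with hb | hb
    · exact hs b hb
    · exact hs' b hb
  · have h1 := h O Δ hΔ (fun b hb => hsO b (Finset.mem_union_left _ hb)) hm hmax
    have h2 := h' O Δ hΔ (fun b hb => hsO b (Finset.mem_union_right _ hb)) hm hmax
    have h3 : Δ ^ (M + M') * (y * z) = (Δ ^ M * y) * (Δ ^ M' * z) := by
      ring
    rw [h3]
    exact O.mul_mem _ _ h1 h2

theorem bd_mem (hB : Frame D a B) (hx : x 0 = 1) (y : Ω)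
    (h : ∀ m, x m ≠ 0 → BddAt D B x m y) : y ∈ B := by
  classical
  have h' : ∀ m, ∃ (s : Finset Ω) (M : ℕ), (∀ b ∈ s, b ∈ B) ∧
      ∀ (O : ValuationSubring Ω) (Δ : Ω), Bdd D Δ O → (∀ b ∈ s, Δ * b ∈ O) →
        x m ≠ 0 → (∀ l, x l / x m ∈ O) → Δ ^ M * y ∈ O := by
    intro m
    by_cases hm : x m = 0
    · exact ⟨∅, 0, by simp, fun O Δ _ _ h0 _ => absurd hm h0⟩
    · exact h m hm
  choose s M hs hM using h'
  refine rat_max hB x 0 hx (Finset.univ.biUnion s) ?_ y (∑ m, M m) ?_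
  · intro b hb
    obtain ⟨m, -, hm⟩ := Finset.mem_biUnion.1 hb
    exact hs m b hm
  · intro O Δ hΔ hsO m hm hmax
    have h1 := hM m O Δ hΔ
      (fun b hb => hsO b (Finset.mem_biUnion.2 ⟨m, Finset.mem_univ m, hb⟩)) hm hmax
    have h2 : ∑ m, M m = (∑ m ∈ Finset.univ.erase m, M m) + M m :=
      (Finset.sum_erase_add _ _ (Finset.mem_univ m)).symm
    rw [h2, pow_add, mul_assoc]
    exact O.mul_mem _ _ (Bd_pow_mem hΔ _) h1

/-- a function of weight `-1` bounds the point -/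
theorem bd_pt (hB : Frame D a B) (hx : x 0 = 1) (G : Ω) (hG : G ≠ 0)
    (h : ∀ m, x m ≠ 0 → BddAt D B x m (G * x m)) : ∀ l, x l ∈ B := by
  have key : ∀ l, G * x l ∈ B := by
    intro l
    refine bd_mem hB hx _ fun m hm => ?_
    have h1 : G * x l = (G * x m) * (x l / x m) := by
      field_simp
    rw [h1]
    exact bd_mul (h m hm) (bd_ratio l)
  have hGB : G ∈ B := by
    have h1 := key 0
    rwa [hx, mul_one] at h1
  intro l
  have h1 : x l = G⁻¹ * (G * x l) := by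
    rw [← mul_assoc, inv_mul_cancel₀ hG, one_mul]
  rw [h1]
  exact B.mul_mem (B.inv_mem hGB) (key l)

end

end Pool.Agent.Helper10.CI
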