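import Pool.Agent.Helper10.CI.Defs

/-!
# CI-DET: the determinants

`dtm_change`: the matrix with the rows `τ'` is `U` times the matrix with the rows `τ`, `U` block
unipotent. `dtm_scale`: row operations. `Aalt`: the determinant as an alternating map of the `v_j`
(`Matrix.detRowAlternating`, composed with the reindexing; insert the constant rows).
-/

set_option autoImplicit false

namespace Pool.Agent.Helper10.CI

open scoped BigOperators
open MvPolynomial
open Pool.Agent.Helper8.LG (Bdd form mon Ix)
open Pool.Agent.Helper49.LN (cP mo hf pl)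
open Pool.Agent.Helper6.QS (dv ev lf dt Par RatP)

section

variable {Ω : Type*} [Field Ω] {N r n : ℕ} {d : Fin r → ℕ}

/-- the determinant as an alternating map of all the rows -/
noncomputable def Det_f (e : Kx n r ≃ Fin (N + 1)) : (Fin (N + 1) → Ω) [⋀^Kx n r]→ₗ[Ω] Ω :=
  (Matrix.detRowAlternating (n := Kx n r) (R := Ω)).compLinearMap (LinearMap.funLeft Ω Ω e)

theorem Det_f_apply (e : Kx n r ≃ Fin (N + 1)) (x : Fin (N + 1) → Ω)
    (v : Fin n → Fin (N + 1) → Ω) (τ : Fin r → Fin (N + 1) → Ω) :
    Det_f e (rows x v τ) = dtm e x v τ := rfl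

/-- changing rows by elements of the span of rows which are not changed -/
theorem Det_change {ι V : Type*} [Fintype ι] [DecidableEq ι] [AddCommGroup V] [Module Ω V]
    (f : V [⋀^ι]→ₗ[Ω] Ω) (S : Set ι) (R R' : ι → V) (hR : ∀ k, k ∉ S → R' k = R k)
    (h : ∀ k ∈ S, R' k - R k ∈ Submodule.span Ω (R '' Sᶜ)) : f R' = f R := by
  classical
  have key : ∀ T : Finset ι, (∀ k ∈ T, k ∈ S) →
      f (fun k => if k ∈ T then R' k else R k) = f R := by
    intro T
    induction T using Finset.induction_on with
    | empty => intro _; simp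
    | insert k T hk ih =>
      intro hT
      have hkS : k ∈ S := hT k (Finset.mem_insert_self _ _)
      have ih' := ih (fun l hl => hT l (Finset.mem_insert_of_mem hl))
      set Q : ι → V := fun k => if k ∈ T then R' k else R k with hQ
      have e1 : (fun l => if l ∈ insert k T then R' l else R l) = Function.update Q k (R' k) := by
        funext l
        by_cases hl : l = k
        · subst hl
          simp
        · rw [Function.update_of_ne hl, hQ]
          simp [Finset.mem_insert, hl]
      have e2 : Q = Function.update Q k (R k) := by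
        have : Q k = R k := by simp [hQ, hk]
        rw [← this, Function.update_eq_self]
      have e3 : R' k = R k + (R' k - R k) := by abel
      have e4 : ∀ z ∈ Submodule.span Ω (R '' Sᶜ), f (Function.update Q k z) = 0 := by
        intro z hz
        induction hz using Submodule.span_induction with
        | mem z hz =>
          obtain ⟨l, hl, rfl⟩ := hz
          have hlk : k ≠ l := fun h' => hl (h' ▸ hkS)
          have hlT : l ∉ T := fun h' => hl (hT l (Finset.mem_insert_of_mem h'))
          apply f.map_eq_zero_of_eq _ _ hlk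
          rw [Function.update_self, Function.update_of_ne hlk.symm, hQ]
          simp [hlT]
        | zero => exact f.map_update_zero Q k
        | add y z _ _ hy hz => rw [f.map_update_add, hy, hz, add_zero]
        | smul c z _ hz => rw [f.map_update_smul, hz, smul_zero]
      rw [e1, e3, f.map_update_add, e4 _ (h k hkS), add_zero, ← e2, ih']
  have h1 := key (Finset.univ.filter (fun k => k ∈ S)) (by simp)
  have h2 : (fun k => if k ∈ Finset.univ.filter (fun k => k ∈ S) then R' k else R k) = R' := by
    funext k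
    by_cases hk : k ∈ S
    · simp [hk]
    · simp [hk, hR k hk]
  rw [h2] at h1
  exact h1

theorem dtm_change (e : Kx n r ≃ Fin (N + 1)) (x : Fin (N + 1) → Ω) (v : Fin n → Fin (N + 1) → Ω)
    (τ τ' : Fin r → Fin (N + 1) → Ω)
    (h : ∀ i, τ' i - τ i ∈ Submodule.span Ω (insert x (Set.range v))) :
    dtm e x v τ' = dtm e x v τ := by
  rw [← Det_f_apply, ← Det_f_apply]
  apply Det_change _ (Set.range (fun i : Fin r => (Sum.inr (Sum.inr i) : Kx n r)))
  · rintro (u | j | i) hk
    · rfl
    · rfl
    · exact absurd ⟨i, rfl⟩ hk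
  · rintro _ ⟨i, rfl⟩
    refine Submodule.span_mono ?_ (h i)
    rintro y (rfl | ⟨j, rfl⟩)
    · exact ⟨Sum.inl (), by rintro ⟨i, hi⟩; simp at hi, rfl⟩
    · exact ⟨Sum.inr (Sum.inl j), by rintro ⟨i, hi⟩; simp at hi, rfl⟩

theorem dtm_scale (e : Kx n r ≃ Fin (N + 1)) (x x' : Fin (N + 1) → Ω) (c : Ω) (hx : x = c • x')
    (v v' : Fin n → Fin (N + 1) → Ω) (w : Fin n → ℕ) (μ : Fin n → Ω)
    (hv : ∀ j, v j = c ^ w j • v' j + μ j • x) (τ τ' : Fin r → Fin (N + 1) → Ω)
    (b μ' : Fin r → Ω) (hτ : ∀ i, τ i = b i • τ' i + μ' i • x) :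
    dtm e x v τ = c ^ (1 + ∑ j, w j) * (∏ i, b i) * dtm e x' v' τ' := by
  have h1 : dtm e x v τ = dtm e x (fun j => c ^ w j • v' j) (fun i => b i • τ' i) := by
    rw [← Det_f_apply, ← Det_f_apply]
    apply Det_change _ {Sum.inl ()}ᶜ
    · rintro (u | j | i) hk
      · rfl
      · exact absurd (by simp) hk
      · exact absurd (by simp) hk
    · have hxm : x ∈ Submodule.span Ω
          ((rows x (fun j => c ^ w j • v' j) (fun i => b i • τ' i)) '' {Sum.inl ()}ᶜᶜ) :=
        Submodule.subset_span ⟨Sum.inl (), by simp, rfl⟩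
      rintro (u | j | i) hk
      · exact absurd rfl hk
      · have : rows x v τ (Sum.inr (Sum.inl j)) -
            rows x (fun j => c ^ w j • v' j) (fun i => b i • τ' i) (Sum.inr (Sum.inl j)) =
            μ j • x := by
          change v j - c ^ w j • v' j = _
          rw [hv j]; abel
        rw [this]
        exact Submodule.smul_mem _ _ hxm
      · have : rows x v τ (Sum.inr (Sum.inr i)) -
            rows x (fun j => c ^ w j • v' j) (fun i => b i • τ' i) (Sum.inr (Sum.inr i)) =
            μ' i • x := by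
          change τ i - b i • τ' i = _
          rw [hτ i]; abel
        rw [this]
        exact Submodule.smul_mem _ _ hxm
  have h2 : rows x (fun j => c ^ w j • v' j) (fun i => b i • τ' i) =
      fun k => (Sum.elim (fun _ => c) (Sum.elim (fun j => c ^ w j) b) : Kx n r → Ω) k •
        rows x' v' τ' k := by
    funext k
    rcases k with u | j | i
    · exact hx
    · rfl
    · rfl
  rw [h1, ← Det_f_apply, h2, AlternatingMap.map_smul_univ, Det_f_apply, Fintype.prod_sum_type,
    Fintype.prod_sum_type]
  simp only [Sum.elim_inl, Sum.elim_inr, Finset.prod_pow_eq_pow_sum, Finset.univ_unique,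
    Finset.prod_singleton, smul_eq_mul, pow_add, pow_one]
  ring

theorem dtm_ne (e : Kx n r ≃ Fin (N + 1)) (x : Fin (N + 1) → Ω) (v : Fin n → Fin (N + 1) → Ω)
    (τ : Fin r → Fin (N + 1) → Ω) : dtm e x v τ ≠ 0 ↔ LinearIndependent Ω (rows x v τ) := by
  have h1 : LinearIndependent Ω (rows x v τ) ↔
      LinearIndependent Ω (Matrix.of fun k l => rows x v τ k (e l) : Matrix _ _ Ω).row := by
    have h2 : (Matrix.of fun k l => rows x v τ k (e l) : Matrix (Kx n r) (Kx n r) Ω).row =
        (LinearEquiv.funCongrLeft Ω Ω e) ∘ rows x v τ := rfl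
    rw [h2]
    exact (LinearMap.linearIndependent_iff _ (LinearEquiv.ker _)).symm
  rw [h1, Matrix.linearIndependent_rows_iff_isUnit, Matrix.isUnit_iff_isUnit_det, isUnit_iff_ne_zero]
  rfl

/-- bounded rows give a bounded determinant -/
theorem dtm_mem (e : Kx n r ≃ Fin (N + 1)) (x : Fin (N + 1) → Ω) (v : Fin n → Fin (N + 1) → Ω)
    (τ : Fin r → Fin (N + 1) → Ω) (O : ValuationSubring Ω) (Δ : Ω) (hΔ : Δ ∈ O) (M : ℕ)
    (hx : ∀ l, x l ∈ O) (hv : ∀ j l, Δ ^ M * v j l ∈ O) (hτ : ∀ i l, Δ ^ M * τ i l ∈ O) :
    Δ ^ (M * (N + 1)) * dtm e x v τ ∈ O := by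
  have hc : Fintype.card (Kx n r) = N + 1 := by
    rw [Fintype.card_congr e, Fintype.card_fin]
  have h1 : Δ ^ (M * (N + 1)) * dtm e x v τ =
      (Δ ^ M • (Matrix.of fun k l => rows x v τ k (e l) : Matrix (Kx n r) (Kx n r) Ω)).det := by
    rw [Matrix.det_smul, hc, ← pow_mul]
    rfl
  rw [h1, Matrix.det_apply]
  refine sum_mem fun σ _ => ?_
  rw [Units.smul_def]
  refine zsmul_mem (prod_mem fun k _ => ?_) _
  rw [Matrix.smul_apply, Matrix.of_apply, smul_eq_mul]
  rcases σ k with u | j | i
  · exact mul_mem (pow_mem hΔ M) (hx _)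
  · exact hv j _
  · exact hτ i _

theorem exists_alt (e : Kx n r ≃ Fin (N + 1)) (x : Fin (N + 1) → Ω)
    (τ : Fin r → Fin (N + 1) → Ω) :
    ∃ A : (Fin (N + 1) → Ω) [⋀^Fin n]→ₗ[Ω] Ω, (∀ v, A v = dtm e x v τ) ∧
      ∀ v j, v j = x → A v = 0 := by
  have hupd : ∀ (v : Fin n → Fin (N + 1) → Ω) (j : Fin n) (y : Fin (N + 1) → Ω)
      [DecidableEq (Fin n)],
      rows x (Function.update v j y) τ =
        Function.update (rows x v τ) (Sum.inr (Sum.inl j)) y := by
    intro v j y _
    funext k
    rcases k with u | j' | i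
    · rw [Function.update_of_ne (by simp)]; rfl
    · by_cases hj : j' = j
      · subst hj
        rw [Function.update_self]
        change Function.update v j' y j' = y
        rw [Function.update_self]
      · rw [Function.update_of_ne (by simpa using hj)]
        change Function.update v j y j' = v j'
        rw [Function.update_of_ne hj]
    · rw [Function.update_of_ne (by simp)]; rfl
  refine ⟨{ toFun := fun v => dtm e x v τ
            map_update_add' := ?_
            map_update_smul' := ?_
            map_eq_zero_of_eq' := ?_ }, fun v => rfl, ?_⟩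
  · intro _ v j y z
    rw [← Det_f_apply, ← Det_f_apply, ← Det_f_apply, hupd, hupd, hupd,
      AlternatingMap.map_update_add]
  · intro _ v j c y
    rw [← Det_f_apply, ← Det_f_apply, hupd, hupd, AlternatingMap.map_update_smul]
  · intro v j j' hv hj
    change dtm e x v τ = 0
    rw [← Det_f_apply]
    exact (Det_f e).map_eq_zero_of_eq (i := Sum.inr (Sum.inl j)) (j := Sum.inr (Sum.inl j')) _ hv
      (by simpa using hj)
  · intro v j hv
    change dtm e x v τ = 0
    rw [← Det_f_apply]
    exact (Det_f e).map_eq_zero_of_eq (i := Sum.inr (Sum.inl j)) (j := Sum.inl ()) _ hv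
      (by simp)

end

end Pool.Agent.Helper10.CI
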