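import Pool.Agent.Helper10.CI.Ev
import Pool.Agent.Helper10.CI.Det

/-!
# CI-TAN: the tangent space `TT = ⋂ ker nu_i`

`nu_i (tau_j) = - [i = j]` (`nu_dvC`, `X_0^(d_i)` has the value `1` at `x`, `x_0 = 1`), so the `nu_i` are
linearly independent and `finrank TT = n + 1` (`n + r = N`); the `tau_i` are independent modulo `TT`.
`tan_change`: if the `v_j` lie in `TT`, then rows `tau_i + t_i` with `t_i ∈ TT` give the same determinant
(if `x, v` are independent they span `TT`: `dtm_change`; otherwise both determinants are `0`).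
-/

set_option autoImplicit false

namespace Pool.Agent.Helper10.CI

open scoped BigOperators
open MvPolynomial
open Pool.Agent.Helper8.LG (Bdd form mon Ix)
open Pool.Agent.Helper49.LN (cP mo hf pl)
open Pool.Agent.Helper6.QS (dv ev lf dt Par RatP)

section

variable {Ω : Type*} [Field Ω] {N r n : ℕ} {d : Fin r → ℕ}
  {D : Ix (Fin (N + 1)) d → Derivation ℤ Ω Ω} {a : Ix (Fin (N + 1)) d → Ω}

/-- the tangent space -/
def TT (a : Ix (Fin (N + 1)) d → Ω) (x : Fin (N + 1) → Ω) : Submodule Ω (Fin (N + 1) → Ω) where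
  carrier := {v | ∀ i, dt (nu a x i) v = 0}
  add_mem' := by
    intro u v hu hv i
    have h1 := hu i
    have h2 := hv i
    unfold dt at h1 h2 ⊢
    simp only [Pi.add_apply, mul_add, Finset.sum_add_distrib, h1, h2, add_zero]
  zero_mem' := by
    intro i
    simp [dt]
  smul_mem' := by
    intro c v hv i
    have h1 := hv i
    unfold dt at h1 ⊢
    simp only [Pi.smul_apply, smul_eq_mul, mul_left_comm _ c, ← Finset.mul_sum, h1, mul_zero]

/-- the functions `nu_i` as one linear map -/
private noncomputable def Tan_L (a : Ix (Fin (N + 1)) d → Ω) (x : Fin (N + 1) → Ω) :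
    (Fin (N + 1) → Ω) →ₗ[Ω] (Fin r → Ω) where
  toFun v i := dt (nu a x i) v
  map_add' u v := by
    funext i
    simp only [dt, Pi.add_apply, mul_add, Finset.sum_add_distrib]
  map_smul' c v := by
    funext i
    simp only [dt, Pi.smul_apply, smul_eq_mul, mul_left_comm _ c, ← Finset.mul_sum, RingHom.id_apply]

private theorem Tan_mem (a : Ix (Fin (N + 1)) d → Ω) (x v : Fin (N + 1) → Ω) :
    v ∈ TT a x ↔ Tan_L a x v = 0 := by
  constructor
  · intro h
    funext i
    exact h i
  · intro h i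
    exact congrFun h i

private theorem Tan_ker (a : Ix (Fin (N + 1)) d → Ω) (x : Fin (N + 1) → Ω) :
    LinearMap.ker (Tan_L a x) = TT a x := by
  ext v
  rw [LinearMap.mem_ker, Tan_mem]

private theorem Tan_x (x : Fin (N + 1) → Ω)
    (hF : ∀ i, form (fun J => a ⟨i, J⟩) x = 0) : x ∈ TT a x := fun i => nu_x x hF i

theorem nu_tau (hD : ∀ s t : Ix (Fin (N + 1)) d, D t (a s) = if s = t then 1 else 0)
    (x : Fin (N + 1) → Ω) (hx : x 0 = 1) (hF : ∀ i, form (fun J => a ⟨i, J⟩) x = 0)
    (i j : Fin r) : dt (nu a x i) (tau D x j) = if i = j then -1 else 0 := by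
  unfold tau
  rw [nu_dvC hD x hF]
  by_cases h : i = j
  · subst h
    rw [if_pos rfl]
    unfold sg
    rw [Pi.single_eq_same, Pool.Agent.Helper6.QS.ev_hom]
    · rw [map_pow, eval_X, hx, one_pow]
    · simpa using (isHomogeneous_X Ω (0 : Fin (N + 1))).pow (d i)
  · rw [if_neg h]
    unfold sg
    rw [Pi.single_eq_of_ne h, map_zero, neg_zero]

private theorem Tan_surj (hD : ∀ s t : Ix (Fin (N + 1)) d, D t (a s) = if s = t then 1 else 0)
    (x : Fin (N + 1) → Ω) (hx : x 0 = 1) (hF : ∀ i, form (fun J => a ⟨i, J⟩) x = 0) :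
    Function.Surjective (Tan_L a x) := by
  intro c
  refine ⟨∑ j, (-(c j)) • tau D x j, ?_⟩
  rw [map_sum]
  funext i
  rw [Finset.sum_apply]
  have h1 : ∀ j, (Tan_L a x ((-(c j)) • tau D x j)) i = if i = j then c j else 0 := by
    intro j
    rw [map_smul, Pi.smul_apply, smul_eq_mul]
    have h2 : (Tan_L a x (tau D x j)) i = if i = j then -1 else 0 := nu_tau hD x hx hF i j
    rw [h2]
    split_ifs <;> ring
  rw [Finset.sum_congr rfl fun j _ => h1 j]
  simp

theorem finrank_TT (hD : ∀ s t : Ix (Fin (N + 1)) d, D t (a s) = if s = t then 1 else 0)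
    (hn : n + r = N) (x : Fin (N + 1) → Ω) (hx : x 0 = 1)
    (hF : ∀ i, form (fun J => a ⟨i, J⟩) x = 0) : Module.finrank Ω (TT a x) = n + 1 := by
  have h1 := LinearMap.finrank_range_add_finrank_ker (Tan_L a x)
  rw [LinearMap.range_eq_top.2 (Tan_surj hD x hx hF), finrank_top, Tan_ker, Module.finrank_fin_fun,
    Module.finrank_fin_fun] at h1
  omega

/-- the rows `x, v` are part of all the rows -/
private theorem Tan_part {x : Fin (N + 1) → Ω} {v : Fin n → Fin (N + 1) → Ω}
    {τ : Fin r → Fin (N + 1) → Ω} (h : LinearIndependent Ω (rows x v τ)) :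
    LinearIndependent Ω (Fin.cons x v : Fin (n + 1) → Fin (N + 1) → Ω) := by
  have hinj : Function.Injective
      (Fin.cons (Sum.inl ()) (fun j => Sum.inr (Sum.inl j)) : Fin (n + 1) → Kx n r) := by
    intro i j hij
    cases i using Fin.cases with
    | zero =>
      cases j using Fin.cases with
      | zero => rfl
      | succ j => simp at hij
    | succ i =>
      cases j using Fin.cases with
      | zero => simp at hij
      | succ j =>
        simp only [Fin.cons_succ, Sum.inr.injEq, Sum.inl.injEq] at hij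
        rw [hij]
  have h1 := h.comp _ hinj
  convert h1
  funext i
  cases i using Fin.cases with
  | zero => rfl
  | succ i => rfl

/-- independent tangent vectors together with rows congruent to the `tau_i` are independent -/
private theorem Tan_all (hD : ∀ s t : Ix (Fin (N + 1)) d, D t (a s) = if s = t then 1 else 0)
    (x : Fin (N + 1) → Ω) (hx : x 0 = 1)
    (hF : ∀ i, form (fun J => a ⟨i, J⟩) x = 0)
    (v : Fin n → Fin (N + 1) → Ω) (hv : ∀ j, v j ∈ TT a x)
    (h : LinearIndependent Ω (Fin.cons x v : Fin (n + 1) → Fin (N + 1) → Ω)) :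
    LinearIndependent Ω (rows x v (tau D x)) := by
  rw [Fintype.linearIndependent_iff] at h ⊢
  intro c hc
  rw [Fintype.sum_sum_type, Fintype.sum_sum_type] at hc
  have hc' : (∑ i : Unit, c (Sum.inl i) • x) + ((∑ j : Fin n, c (Sum.inr (Sum.inl j)) • v j) +
      ∑ i : Fin r, c (Sum.inr (Sum.inr i)) • tau D x i) = 0 := hc
  have h0 : ∀ i, c (Sum.inr (Sum.inr i)) = 0 := by
    intro i
    have h2 := congrArg (fun y => Tan_L a x y i) hc'
    simp only [map_add, map_sum, map_smul, map_zero, Pi.add_apply, Pi.zero_apply,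
      Finset.sum_apply, Pi.smul_apply, smul_eq_mul] at h2
    have h3 : Tan_L a x x = 0 := (Tan_mem a x x).1 (Tan_x x hF)
    have h4 : ∀ j, Tan_L a x (v j) = 0 := fun j => (Tan_mem a x (v j)).1 (hv j)
    have h5 : ∀ j, (Tan_L a x (tau D x j)) i = if i = j then -1 else 0 :=
      fun j => nu_tau hD x hx hF i j
    simp only [h3, h4, h5, Pi.zero_apply, mul_zero, Finset.sum_const_zero, zero_add, mul_ite,
      mul_neg, mul_one] at h2
    rw [Finset.sum_ite_eq] at h2
    simpa using h2
  have h6 := h (Fin.cons (c (Sum.inl ())) (fun j => c (Sum.inr (Sum.inl j)))) (by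
    rw [Fin.sum_univ_succ]
    simp only [Fin.cons_zero, Fin.cons_succ]
    simp only [h0, zero_smul, Finset.sum_const_zero, add_zero, Finset.univ_unique,
      Finset.sum_singleton] at hc'
    exact hc')
  intro k
  rcases k with u | j | i
  · exact h6 0
  · exact h6 j.succ
  · exact h0 i

private theorem Tan_span (hD : ∀ s t : Ix (Fin (N + 1)) d, D t (a s) = if s = t then 1 else 0)
    (hn : n + r = N) (x : Fin (N + 1) → Ω) (hx : x 0 = 1)
    (hF : ∀ i, form (fun J => a ⟨i, J⟩) x = 0)
    (v : Fin n → Fin (N + 1) → Ω) (hv : ∀ j, v j ∈ TT a x)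
    (h : LinearIndependent Ω (Fin.cons x v : Fin (n + 1) → Fin (N + 1) → Ω)) :
    TT a x ≤ Submodule.span Ω (insert x (Set.range v)) := by
  have h1 : Submodule.span Ω (Set.range (Fin.cons x v : Fin (n + 1) → Fin (N + 1) → Ω)) = TT a x := by
    apply Submodule.eq_of_le_of_finrank_eq
    · rw [Submodule.span_le]
      rintro _ ⟨i, rfl⟩
      cases i using Fin.cases with
      | zero => exact Tan_x x hF
      | succ i => exact hv i
    · rw [finrank_span_eq_card h, Fintype.card_fin, finrank_TT hD hn x hx hF]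
  rw [← h1, Fin.range_cons]

theorem tan_change (hD : ∀ s t : Ix (Fin (N + 1)) d, D t (a s) = if s = t then 1 else 0)
    (hn : n + r = N) (x : Fin (N + 1) → Ω) (hx : x 0 = 1)
    (hF : ∀ i, form (fun J => a ⟨i, J⟩) x = 0) (e : Kx n r ≃ Fin (N + 1))
    (v : Fin n → Fin (N + 1) → Ω) (hv : ∀ j, v j ∈ TT a x) (τ' : Fin r → Fin (N + 1) → Ω)
    (h : ∀ i, τ' i - tau D x i ∈ TT a x) : dtm e x v τ' = AA e D x v := by
  by_cases hli : LinearIndependent Ω (Fin.cons x v : Fin (n + 1) → Fin (N + 1) → Ω)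
  · exact dtm_change e x v (tau D x) τ' fun i => Tan_span hD hn x hx hF v hv hli (h i)
  · have h1 : dtm e x v τ' = 0 := by
      by_contra h2
      exact hli (Tan_part ((dtm_ne e x v τ').1 h2))
    have h2 : AA e D x v = 0 := by
      by_contra h2
      exact hli (Tan_part ((dtm_ne e x v (tau D x)).1 h2))
    rw [h1, h2]

theorem tan_ne (hD : ∀ s t : Ix (Fin (N + 1)) d, D t (a s) = if s = t then 1 else 0)
    (hn : n + r = N) (x : Fin (N + 1) → Ω) (hx : x 0 = 1)
    (hF : ∀ i, form (fun J => a ⟨i, J⟩) x = 0) (e : Kx n r ≃ Fin (N + 1))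
    (v : Fin n → Fin (N + 1) → Ω) (hv : ∀ j, v j ∈ TT a x) :
    AA e D x v ≠ 0 ↔ LinearIndependent Ω (Fin.cons x v : Fin (n + 1) → Fin (N + 1) → Ω) := by
  unfold AA
  rw [dtm_ne]
  exact ⟨Tan_part, Tan_all hD x hx hF v hv⟩

/-- one step of the Steinitz exchange -/
private theorem Tan_step (hD : ∀ s t : Ix (Fin (N + 1)) d, D t (a s) = if s = t then 1 else 0)
    (hn : n + r = N) (x : Fin (N + 1) → Ω) (hx : x 0 = 1)
    (hF : ∀ i, form (fun J => a ⟨i, J⟩) x = 0) (S : Set (Fin (N + 1) → Ω))
    (hS : TT a x ≤ Submodule.span Ω (insert x S)) {m : ℕ} (hm : m < n)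
    (w : Fin m → Fin (N + 1) → Ω) :
    ∃ y ∈ S, y ∉ Submodule.span Ω (Set.range (Fin.cons x w : Fin (m + 1) → Fin (N + 1) → Ω)) := by
  by_contra hcon
  push Not at hcon
  have h1 : TT a x ≤
      Submodule.span Ω (Set.range (Fin.cons x w : Fin (m + 1) → Fin (N + 1) → Ω)) := by
    refine hS.trans ?_
    rw [Submodule.span_le]
    intro y hy
    rcases hy with rfl | hy
    · exact Submodule.subset_span ⟨0, rfl⟩
    · exact hcon y hy
  have h2 := Submodule.finrank_mono h1
  rw [finrank_TT hD hn x hx hF] at h2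
  have h3 := finrank_range_le_card (R := Ω) (Fin.cons x w : Fin (m + 1) → Fin (N + 1) → Ω)
  rw [Fintype.card_fin] at h3
  unfold Set.finrank at h3
  omega

/-- Steinitz: complete independent tangent vectors by elements of a spanning set -/
theorem tan_ext (hD : ∀ s t : Ix (Fin (N + 1)) d, D t (a s) = if s = t then 1 else 0)
    {p q : ℕ} (hn : p + q + r = N) (x : Fin (N + 1) → Ω) (hx : x 0 = 1)
    (hF : ∀ i, form (fun J => a ⟨i, J⟩) x = 0) (S : Set (Fin (N + 1) → Ω))
    (hST : S ⊆ TT a x) (hS : TT a x ≤ Submodule.span Ω (insert x S)) (u : Fin p → Fin (N + 1) → Ω)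
    (hu : ∀ j, u j ∈ TT a x)
    (hli : LinearIndependent Ω (Fin.cons x u : Fin (p + 1) → Fin (N + 1) → Ω)) :
    ∃ s : Fin q → Fin (N + 1) → Ω, (∀ j, s j ∈ S) ∧
      LinearIndependent Ω (Fin.cons x (Fin.append u s) : Fin (p + q + 1) → Fin (N + 1) → Ω) := by
  have key : ∀ q' : ℕ, q' ≤ q → ∃ s : Fin q' → Fin (N + 1) → Ω, (∀ j, s j ∈ S) ∧
      LinearIndependent Ω (Fin.cons x (Fin.append u s) : Fin (p + q' + 1) → Fin (N + 1) → Ω) := by
    intro q'
    induction q' with
    | zero =>
      intro _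
      refine ⟨Fin.elim0, fun j => j.elim0, ?_⟩
      have h1 : (Fin.append u (Fin.elim0 : Fin 0 → Fin (N + 1) → Ω)) = u := by
        rw [Fin.append_elim0]
        rfl
      rw [h1]
      exact hli
    | succ q' ih =>
      intro hq
      obtain ⟨s, hs, hls⟩ := ih (by omega)
      obtain ⟨y, hy, hyn⟩ := Tan_step hD hn x hx hF S hS (by omega : p + q' < p + q)
        (Fin.append u s)
      refine ⟨Fin.snoc s y, ?_, ?_⟩
      · intro j
        refine Fin.lastCases ?_ (fun j => ?_) j
        · rw [Fin.snoc_last]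
          exact hy
        · rw [Fin.snoc_castSucc]
          exact hs j
      · have h1 : (Fin.cons x (Fin.append u (Fin.snoc s y : Fin (q' + 1) → Fin (N + 1) → Ω) :
            Fin (p + (q' + 1)) → Fin (N + 1) → Ω) :
            Fin (p + (q' + 1) + 1) → Fin (N + 1) → Ω) =
            (Fin.snoc (Fin.cons x (Fin.append u s) : Fin (p + q' + 1) → Fin (N + 1) → Ω) y :
              Fin (p + q' + 1 + 1) → Fin (N + 1) → Ω) := by
          rw [Fin.append_snoc]
          exact Fin.cons_snoc_eq_snoc_cons x (Fin.append u s) y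
        have h2 : LinearIndependent Ω (Fin.snoc
            (Fin.cons x (Fin.append u s) : Fin (p + q' + 1) → Fin (N + 1) → Ω) y :
              Fin (p + q' + 1 + 1) → Fin (N + 1) → Ω) :=
          linearIndependent_finSnoc.2 ⟨hls, hyn⟩
        rw [← h1] at h2
        exact h2
  exact key q le_rfl

end

end Pool.Agent.Helper10.CI
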