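import Pool.Agent.Helper10.CI.Wt
import Pool.Agent.Helper10.CI.Tan

/-!
# CI-SING: the single vectors `D_(r_l P) x`, `r_l = X_l - x_l X_0`

`span_ss`: a form which vanishes at `x` (`x_0 = 1`) is a sum of `r_l P_l` (`X_l = x_l X_0 + r_l`;
`kd_rank` / `mo_mod` of `Helper6/QS/KeyDich.lean` is the same for one form); the `P_l` are
`Ω`-combinations of monomials, which are rational.
-/

set_option autoImplicit false

namespace Pool.Agent.Helper10.CI

open scoped BigOperators
open MvPolynomial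
open Pool.Agent.Helper8.LG (Bdd form mon Ix)
open Pool.Agent.Helper49.LN (cP mo hf pl)
open Pool.Agent.Helper6.QS (dv ev lf dt Par RatP)

section

variable {Ω : Type*} [Field Ω] {N r : ℕ} {d : Fin r → ℕ}

/-- the single vector -/
noncomputable def Sv (D : Ix (Fin (N + 1)) d → Derivation ℤ Ω Ω) (x : Fin (N + 1) → Ω)
    (P : Fin r → MvPolynomial (Fin (N + 1)) Ω) (l : Fin (N + 1)) : Fin (N + 1) → Ω :=
  dvC D x (fun i => rl x l * P i)

/-- the set of all single vectors with rational `P` -/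
def SS (D : Ix (Fin (N + 1)) d → Derivation ℤ Ω Ω) (B : Subfield Ω) (x : Fin (N + 1) → Ω) :
    Set (Fin (N + 1) → Ω) := {v | ∃ l P, RatT B P ∧ v = Sv D x P l}

variable {D : Ix (Fin (N + 1)) d → Derivation ℤ Ω Ω} {a : Ix (Fin (N + 1)) d → Ω}
  {B : Subfield Ω}

theorem Sing_rl (x : Fin (N + 1) → Ω) (hx : x 0 = 1) (l : Fin (N + 1)) : rl x l = hf x 0 l := by
  unfold rl hf
  rw [hx, one_smul]

theorem Sing_ev (x : Fin (N + 1) → Ω) (n : ℕ) (hn : 1 ≤ n) (P : MvPolynomial (Fin (N + 1)) Ω)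
    (j l : Fin (N + 1)) : ev n x (hf x j l * P) = 0 := by
  obtain ⟨k, rfl⟩ : ∃ k, n = k + 1 := ⟨n - 1, by omega⟩
  rw [mul_comm, Pool.Agent.Helper6.QS.ev_mul k 1 x P _ (Pool.Agent.Helper49.LN.hf_hom x j l)]
  have h1 : eval x (hf x j l) = 0 := by
    unfold hf
    rw [map_sub, smul_eval, smul_eval, eval_X, eval_X]
    ring
  rw [h1, mul_zero]

theorem sv_zero (x : Fin (N + 1) → Ω) (hx : x 0 = 1) (P : Fin r → MvPolynomial (Fin (N + 1)) Ω) :
    Sv D x P 0 = 0 := by
  unfold Sv
  have h1 : (fun i => rl x 0 * P i) = 0 := by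
    funext i
    unfold rl
    rw [hx, one_smul, sub_self, zero_mul]
    rfl
  rw [h1, map_zero]

theorem hf_TT (hD : ∀ s t : Ix (Fin (N + 1)) d, D t (a s) = if s = t then 1 else 0)
    (x : Fin (N + 1) → Ω) (hF : ∀ i, form (fun J => a ⟨i, J⟩) x = 0)
    (hd : ∀ i, 1 ≤ d i) (P : Fin r → MvPolynomial (Fin (N + 1)) Ω) (j l : Fin (N + 1)) :
    dvC D x (fun i => hf x j l * P i) ∈ TT a x := by
  intro i
  rw [nu_dvC hD x hF]
  show - ev (d i) x (hf x j l * P i) = 0
  rw [Sing_ev x (d i) (hd i) (P i) j l, neg_zero]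

theorem sv_TT (hD : ∀ s t : Ix (Fin (N + 1)) d, D t (a s) = if s = t then 1 else 0)
    (x : Fin (N + 1) → Ω) (hx : x 0 = 1) (hF : ∀ i, form (fun J => a ⟨i, J⟩) x = 0)
    (hd : ∀ i, 1 ≤ d i) (P : Fin r → MvPolynomial (Fin (N + 1)) Ω) (l : Fin (N + 1)) :
    Sv D x P l ∈ TT a x := by
  unfold Sv
  rw [Sing_rl x hx]
  exact hf_TT hD x hF hd P 0 l

theorem ss_wt (x : Fin (N + 1) → Ω) (hx : x 0 = 1) (v : Fin (N + 1) → Ω) (hv : v ∈ SS D B x) :
    Wt D B x 2 v := by
  obtain ⟨l, P, hP, rfl⟩ := hv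
  unfold Sv
  rw [Sing_rl x hx]
  exact wt_hf x P hP 0 l

/-- the change of the pivot: `x_m r_l = hf x m l - x_l hf x m 0` -/
theorem sv_pivot (x : Fin (N + 1) → Ω) (hx : x 0 = 1) (m : Fin (N + 1)) (hm : x m ≠ 0)
    (P : Fin r → MvPolynomial (Fin (N + 1)) Ω) (l : Fin (N + 1)) :
    Sv D x P l = (x m)⁻¹ • (dvC D x (fun i => hf x m l * P i) -
      x l • dvC D x (fun i => hf x m 0 * P i)) := by
  unfold Sv
  rw [← map_smul, ← map_sub, ← map_smul]
  congr 1
  funext i
  have h1 : (x m) • rl x l = hf x m l - x l • hf x m 0 := by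
    unfold rl hf
    rw [hx]
    simp only [smul_eq_C_mul, map_one, one_mul]
    ring
  have h2 : rl x l = (x m)⁻¹ • (hf x m l - x l • hf x m 0) := by
    rw [← h1, smul_smul, inv_mul_cancel₀ hm, one_smul]
  show rl x l * P i = (x m)⁻¹ • (hf x m l * P i - x l • (hf x m 0 * P i))
  rw [h2, smul_mul_assoc, sub_mul, smul_mul_assoc]

/-- the general single vector in terms of the linear map `Z l = D_(X_l P) x` -/
theorem hf_lin (x : Fin (N + 1) → Ω) (P : Fin r → MvPolynomial (Fin (N + 1)) Ω)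
    (j l : Fin (N + 1)) : dvC D x (fun i => hf x j l * P i) =
      x j • dvC D x (fun i => X l * P i) - x l • dvC D x (fun i => X j * P i) := by
  rw [← map_smul, ← map_smul, ← map_sub]
  congr 1
  funext i
  show hf x j l * P i = x j • (X l * P i) - x l • (X j * P i)
  unfold hf
  rw [sub_mul, smul_mul_assoc, smul_mul_assoc]

theorem Sing_mo_add (K L : Multiset (Fin (N + 1))) : mo Ω (K + L) = mo Ω K * mo Ω L := by
  unfold mo
  rw [Multiset.map_add, Multiset.prod_add]

theorem Sing_mo_rep (k : ℕ) (j : Fin (N + 1)) :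
    mo Ω (Multiset.replicate k j) = (X j : MvPolynomial (Fin (N + 1)) Ω) ^ k := by
  unfold mo
  rw [Multiset.map_replicate, Multiset.prod_replicate]

theorem Sing_rat (B : Subfield Ω) (i : Fin r) (K : Multiset (Fin (N + 1))) :
    RatT B (sg i (mo Ω K)) := by
  intro i' m
  unfold sg
  by_cases h : i' = i
  · subst h
    rw [Pi.single_eq_same, Pool.Agent.Helper49.LN.mo_eq, coeff_monomial]
    split_ifs
    · exact B.one_mem
    · exact B.zero_mem
  · rw [Pi.single_eq_of_ne h, coeff_zero]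
    exact B.zero_mem

theorem Sing_mul_sg (i : Fin r) (f g : MvPolynomial (Fin (N + 1)) Ω) :
    sg i (f * g) = fun i' => f * (sg i g : Fin r → MvPolynomial (Fin (N + 1)) Ω) i' := by
  funext i'
  unfold sg
  by_cases h : i' = i
  · subst h
    rw [Pi.single_eq_same, Pi.single_eq_same]
  · rw [Pi.single_eq_of_ne h, Pi.single_eq_of_ne h, mul_zero]

theorem Sing_mon (x : Fin (N + 1) → Ω) (i : Fin r) (K : Multiset (Fin (N + 1))) :
    ∀ L : Multiset (Fin (N + 1)), dvC D x (sg i ((mo Ω K -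
      (K.map x).prod • (X 0 : MvPolynomial (Fin (N + 1)) Ω) ^ Multiset.card K) * mo Ω L)) ∈
        Submodule.span Ω (SS D B x) := by
  induction K using Multiset.induction_on with
  | empty =>
    intro L
    have h : mo Ω (0 : Multiset (Fin (N + 1))) = 1 := by
      unfold mo
      simp
    rw [h, Multiset.map_zero, Multiset.prod_zero, Multiset.card_zero, pow_zero, one_smul, sub_self,
      zero_mul]
    unfold sg
    rw [Pi.single_zero, map_zero]
    exact Submodule.zero_mem _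
  | cons b K ih =>
    intro L
    have h1 : ∀ M : Multiset (Fin (N + 1)), mo Ω (b ::ₘ M) = X b * mo Ω M := by
      intro M
      unfold mo
      rw [Multiset.map_cons, Multiset.prod_cons]
    have h2 : (mo Ω (b ::ₘ K) - ((b ::ₘ K).map x).prod •
        (X 0 : MvPolynomial (Fin (N + 1)) Ω) ^ Multiset.card (b ::ₘ K)) * mo Ω L =
        (mo Ω K - (K.map x).prod • (X 0 : MvPolynomial (Fin (N + 1)) Ω) ^ Multiset.card K) *
          mo Ω (b ::ₘ L) +
        (K.map x).prod • (rl x b * mo Ω (Multiset.replicate (Multiset.card K) 0 + L)) := by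
      rw [h1, h1, Sing_mo_add, Sing_mo_rep, Multiset.map_cons, Multiset.prod_cons,
        Multiset.card_cons]
      unfold rl
      simp only [smul_eq_C_mul, map_mul]
      ring
    rw [h2]
    have h3 : ∀ (f g : MvPolynomial (Fin (N + 1)) Ω),
        (sg i (f + g) : Fin r → MvPolynomial (Fin (N + 1)) Ω) = sg i f + sg i g := by
      intro f g
      unfold sg
      rw [Pi.single_add]
    have h4 : ∀ (c : Ω) (g : MvPolynomial (Fin (N + 1)) Ω),
        (sg i (c • g) : Fin r → MvPolynomial (Fin (N + 1)) Ω) = c • sg i g := by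
      intro c g
      unfold sg
      rw [Pi.single_smul]
    rw [h3, h4, map_add, map_smul]
    refine add_mem (ih _) (Submodule.smul_mem _ _ (Submodule.subset_span ?_))
    refine ⟨b, sg i (mo Ω (Multiset.replicate (Multiset.card K) 0 + L)), Sing_rat B i _, ?_⟩
    unfold Sv
    rw [← Sing_mul_sg]

theorem Sing_one (x : Fin (N + 1) → Ω) (i : Fin r) (f : MvPolynomial (Fin (N + 1)) Ω)
    (hf : ev (d i) x f = 0) : dvC D x (sg i f) ∈ Submodule.span Ω (SS D B x) := by
  rw [dvC_sg]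
  unfold dv
  rw [Pool.Agent.Helper49.LN.cP_apply]
  have h0 : ∑ J : Sym (Fin (N + 1)) (d i),
      coeff (Multiset.toFinsupp (J : Multiset (Fin (N + 1)))) f * mon x J = 0 := by
    have h1 : ev (d i) x f = ∑ J : Sym (Fin (N + 1)) (d i),
        coeff (Multiset.toFinsupp (J : Multiset (Fin (N + 1)))) f • mon x J := by
      unfold ev
      rw [Pool.Agent.Helper49.LN.cP_apply]
    rw [h1] at hf
    simpa only [smul_eq_mul] using hf
  have h1 : ∀ J : Sym (Fin (N + 1)) (d i), (fun l => D ⟨i, J⟩ (x l)) =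
      dvC D x (sg i ((mo Ω (J : Multiset (Fin (N + 1))) - ((J : Multiset (Fin (N + 1))).map x).prod •
        (X 0 : MvPolynomial (Fin (N + 1)) Ω) ^ Multiset.card (J : Multiset (Fin (N + 1)))) * mo Ω 0))
      + mon x J • dvC D x (sg i ((X 0 : MvPolynomial (Fin (N + 1)) Ω) ^ d i)) := by
    intro J
    have h2 : mo Ω (0 : Multiset (Fin (N + 1))) = 1 := by
      unfold mo
      simp
    rw [h2, mul_one, dvC_sg, dvC_sg, map_sub, map_smul, Sym.card_coe]
    have h3 : dv (fun J : Sym (Fin (N + 1)) (d i) => D ⟨i, J⟩) x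
        (mo Ω (J : Multiset (Fin (N + 1)))) = fun l => D ⟨i, J⟩ (x l) := by
      unfold dv
      exact Pool.Agent.Helper49.LN.cP_mo (E := Ω)
        (fun (J : Sym (Fin (N + 1)) (d i)) l => D ⟨i, J⟩ (x l)) J
    rw [h3]
    unfold mon
    rw [sub_add_cancel]
  have h2 : ∑ J : Sym (Fin (N + 1)) (d i),
      coeff (Multiset.toFinsupp (J : Multiset (Fin (N + 1)))) f • (fun l => D ⟨i, J⟩ (x l)) =
      ∑ J : Sym (Fin (N + 1)) (d i),
        coeff (Multiset.toFinsupp (J : Multiset (Fin (N + 1)))) f •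
        dvC D x (sg i ((mo Ω (J : Multiset (Fin (N + 1))) -
          ((J : Multiset (Fin (N + 1))).map x).prod • (X 0 : MvPolynomial (Fin (N + 1)) Ω) ^
            Multiset.card (J : Multiset (Fin (N + 1)))) * mo Ω 0)) := by
    have h3 : ∀ J : Sym (Fin (N + 1)) (d i),
        coeff (Multiset.toFinsupp (J : Multiset (Fin (N + 1)))) f • (fun l => D ⟨i, J⟩ (x l)) =
        coeff (Multiset.toFinsupp (J : Multiset (Fin (N + 1)))) f •
        dvC D x (sg i ((mo Ω (J : Multiset (Fin (N + 1))) -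
          ((J : Multiset (Fin (N + 1))).map x).prod • (X 0 : MvPolynomial (Fin (N + 1)) Ω) ^
            Multiset.card (J : Multiset (Fin (N + 1)))) * mo Ω 0)) +
        (coeff (Multiset.toFinsupp (J : Multiset (Fin (N + 1)))) f * mon x J) •
          dvC D x (sg i ((X 0 : MvPolynomial (Fin (N + 1)) Ω) ^ d i)) := by
      intro J
      rw [h1 J, smul_add, smul_smul]
    rw [Finset.sum_congr rfl fun J _ => h3 J, Finset.sum_add_distrib, ← Finset.sum_smul, h0,
      zero_smul, add_zero]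
  rw [h2]
  exact sum_mem fun J _ => Submodule.smul_mem _ _ (Sing_mon x i _ 0)

theorem span_ss (x : Fin (N + 1) → Ω) (hx : x 0 = 1) (hd : ∀ i, 1 ≤ d i)
    (g : Fin r → MvPolynomial (Fin (N + 1)) Ω) (hg : ∀ i, ev (d i) x (g i) = 0) :
    dvC D x g ∈ Submodule.span Ω (SS D B x) := by
  have h1 : g = ∑ i, sg i (g i) := by
    unfold sg
    exact (Finset.univ_sum_single g).symm
  rw [h1, map_sum]
  exact sum_mem fun i _ => Sing_one x i (g i) (hg i)

end

end Pool.Agent.Helper10.CI
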