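import Pool.Agent.Helper10.CI.RZ
import Pool.Agent.Helper10.CI.Sing

/-!
# CI-BLK: two-dimensional blocks have weight 3

`gam j k l = x_j A(S_k, S_l, rest) - x_k A(S_j, S_l, rest) + x_l A(S_j, S_k, rest)`, `S_k = Sv D x P k`.
`gam_mem`: fix `m` with `x_m ≠ 0`, `s_k = dvC D x (hf x m k * P)` (weight 2, in `TT`). By `sv_pivot`
`S_k = x_m^(-1) (s_k - x_k s_0)`, and (the terms with `s_0` cancel)
`gam j k l = x_m^(-2) (x_j A(s_k, s_l) - x_k A(s_j, s_l) + x_l A(s_j, s_k))`; by `aa_at` (`∑ w + 4 + 1 + r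
= ∑ d + 1`) `A(s_k, s_l, rest) / x_m` is bounded, and `x_j / x_m` is bounded. Use `exists_alt` for the
multilinearity in the first two places (`Matrix.vecCons` / `Fin.cons`).
-/

set_option autoImplicit false

namespace Pool.Agent.Helper10.CI

open scoped BigOperators
open MvPolynomial
open Pool.Agent.Helper8.LG (Bdd form mon Ix)
open Pool.Agent.Helper49.LN (cP mo hf pl)
open Pool.Agent.Helper6.QS (dv ev lf dt Par RatP)

section

variable {Ω : Type*} [Field Ω] {N r p : ℕ} {d : Fin r → ℕ}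

/-- two vectors and the rest -/
def two (u v : Fin (N + 1) → Ω) (rest : Fin p → Fin (N + 1) → Ω) :
    Fin (p + 2) → Fin (N + 1) → Ω := Fin.cons u (Fin.cons v rest)

/-- the coordinates of the block -/
noncomputable def gam (e : Kx (p + 2) r ≃ Fin (N + 1)) (D : Ix (Fin (N + 1)) d → Derivation ℤ Ω Ω)
    (x : Fin (N + 1) → Ω) (P : Fin r → MvPolynomial (Fin (N + 1)) Ω)
    (rest : Fin p → Fin (N + 1) → Ω) (j k l : Fin (N + 1)) : Ω :=
  x j * AA e D x (two (Sv D x P k) (Sv D x P l) rest) -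
    x k * AA e D x (two (Sv D x P j) (Sv D x P l) rest) +
    x l * AA e D x (two (Sv D x P j) (Sv D x P k) rest)

variable {D : Ix (Fin (N + 1)) d → Derivation ℤ Ω Ω} {a : Ix (Fin (N + 1)) d → Ω}
  {B : Subfield Ω}

/-- the determinant as a bilinear alternating form of the first two vectors -/
theorem Blk_bil (e : Kx (p + 2) r ≃ Fin (N + 1)) (D : Ix (Fin (N + 1)) d → Derivation ℤ Ω Ω)
    (x : Fin (N + 1) → Ω) (rest : Fin p → Fin (N + 1) → Ω) :
    ∃ f : (Fin (N + 1) → Ω) →ₗ[Ω] (Fin (N + 1) → Ω) →ₗ[Ω] Ω,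
      (∀ u v, AA e D x (two u v rest) = f u v) ∧ ∀ u, f u u = 0 := by
  obtain ⟨A, hA, -⟩ := exists_alt e x (tau D x)
  have h0 : ∀ u u' v : Fin (N + 1) → Ω,
      Function.update (two u v rest) 0 u' = two u' v rest := by
    intro u u' v
    exact Fin.update_cons_zero _ _ _
  have h1 : ∀ u v v' : Fin (N + 1) → Ω,
      Function.update (two u v rest) 1 v' = two u v' rest := by
    intro u v v'
    have h := Fin.cons_update (α := fun _ => Fin (N + 1) → Ω) u
      (Fin.cons v rest : Fin (p + 1) → Fin (N + 1) → Ω) 0 v'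
    rw [Fin.update_cons_zero] at h
    exact h.symm
  refine ⟨LinearMap.mk₂ Ω (fun u v => A (two u v rest)) ?_ ?_ ?_ ?_, ?_, ?_⟩
  · intro u u' v
    have h := A.map_update_add (two u v rest) 0 u u'
    rwa [h0, h0, h0] at h
  · intro c u v
    have h := A.map_update_smul (two u v rest) 0 c u
    rwa [h0, h0] at h
  · intro u v v'
    have h := A.map_update_add (two u v rest) 1 v v'
    rwa [h1, h1, h1] at h
  · intro c u v
    have h := A.map_update_smul (two u v rest) 1 c v
    rwa [h1, h1] at h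
  · intro u v
    rw [LinearMap.mk₂_apply, hA]
    rfl
  · intro u
    rw [LinearMap.mk₂_apply]
    refine A.map_eq_zero_of_eq (two u u rest) (i := 0) (j := 1) ?_ ?_
    · rfl
    · exact Fin.zero_ne_one

theorem gam_zero (e : Kx (p + 2) r ≃ Fin (N + 1)) (x : Fin (N + 1) → Ω) (hx : x 0 = 1)
    (P : Fin r → MvPolynomial (Fin (N + 1)) Ω) (rest : Fin p → Fin (N + 1) → Ω)
    (k l : Fin (N + 1)) :
    gam e D x P rest 0 k l = AA e D x (two (Sv D x P k) (Sv D x P l) rest) := by
  obtain ⟨f, hf1, -⟩ := Blk_bil e D x rest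
  unfold gam
  rw [hx, sv_zero x hx P]
  simp only [hf1, map_zero, LinearMap.zero_apply, mul_zero, sub_zero, add_zero, one_mul]

/-- the identity of the block, for an alternating bilinear form -/
theorem Blk_id {V : Type*} [AddCommGroup V] [Module Ω V] (f : V →ₗ[Ω] V →ₗ[Ω] Ω)
    (hf : ∀ u, f u u = 0) (c a b a' : Ω) (s0 s t s' : V) :
    a * f (c • (t - b • s0)) (c • (s' - a' • s0)) - b * f (c • (s - a • s0)) (c • (s' - a' • s0)) +
      a' * f (c • (s - a • s0)) (c • (t - b • s0)) =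
      (a * c) * (f t s' * c) - (b * c) * (f s s' * c) + (a' * c) * (f s t * c) := by
  have hsw : ∀ u v, f u v = - f v u := by
    intro u v
    have h := hf (u + v)
    simp only [map_add, LinearMap.add_apply, hf, zero_add, add_zero] at h
    exact eq_neg_of_add_eq_zero_right h
  simp only [map_smul, map_sub, LinearMap.smul_apply, LinearMap.sub_apply, smul_eq_mul, hf,
    hsw s0 s', hsw s0 t, mul_zero, sub_zero]
  ring

theorem gam_mem (hB : Frame D a B) (hn : p + 2 + r = N) (hd : ∀ i, 1 ≤ d i)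
    (x : Fin (N + 1) → Ω) (hx : x 0 = 1)
    (hF : ∀ i, form (fun J => a ⟨i, J⟩) x = 0) (e : Kx (p + 2) r ≃ Fin (N + 1))
    (P : Fin r → MvPolynomial (Fin (N + 1)) Ω) (hP : RatT B P)
    (rest : Fin p → Fin (N + 1) → Ω) (w : Fin p → ℕ) (hT : ∀ j, rest j ∈ TT a x)
    (hw : ∀ j, Wt D B x (w j) (rest j)) (hsum : ∑ j, w j + 4 + r = ∑ i, d i)
    (j k l : Fin (N + 1)) : gam e D x P rest j k l ∈ B := by
  have hD : ∀ s t : Ix (Fin (N + 1)) d, D t (a s) = if s = t then 1 else 0 := hB.dual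
  refine bd_mem hB hx _ fun m hm => ?_
  obtain ⟨f, hf1, hf2⟩ := Blk_bil e D x rest
  have key : ∀ k l : Fin (N + 1), BddAt D B x m
      (f (dvC D x (fun i => hf x m k * P i)) (dvC D x (fun i => hf x m l * P i)) *
        (x m)⁻¹) := by
    intro k l
    have h := aa_at hB hn x hx hF e
      (two (dvC D x (fun i => hf x m k * P i)) (dvC D x (fun i => hf x m l * P i)) rest)
      (Fin.cons 2 (Fin.cons 2 w) : Fin (p + 2) → ℕ) ?_ ?_ m hm
    · rw [hf1] at h
      have h2 : ∑ j, (Fin.cons 2 (Fin.cons 2 w) : Fin (p + 2) → ℕ) j = ∑ j, w j + 4 := by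
        rw [Fin.sum_univ_succ, Fin.sum_univ_succ]
        simp only [Fin.cons_zero, Fin.cons_succ]
        omega
      have h3 : ∑ j, (Fin.cons 2 (Fin.cons 2 w) : Fin (p + 2) → ℕ) j + 1 + r =
          ∑ i, d i + 1 := by
        omega
      have h4 : x m ^ (∑ i, d i) ≠ 0 := pow_ne_zero _ hm
      have h5 : ∀ y : Ω, y * x m ^ (∑ i, d i) / x m ^ (∑ i, d i + 1) = y * (x m)⁻¹ := by
        intro y
        rw [pow_succ]
        field_simp
      rw [h3, h5] at h
      exact h
    · intro j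
      refine Fin.cases ?_ (fun j => Fin.cases ?_ (fun j => ?_) j) j
      · exact hf_TT hD x hF hd P m k
      · exact hf_TT hD x hF hd P m l
      · exact hT j
    · intro j
      refine Fin.cases ?_ (fun j => Fin.cases ?_ (fun j => ?_) j) j
      · exact wt_hf x P hP m k
      · exact wt_hf x P hP m l
      · exact hw j
  unfold gam
  rw [hf1, hf1, hf1, sv_pivot x hx m hm P j, sv_pivot x hx m hm P k, sv_pivot x hx m hm P l,
    Blk_id f hf2]
  have hr : ∀ l, BddAt D B x m (x l * (x m)⁻¹) := by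
    intro l
    rw [← div_eq_mul_inv]
    exact bd_ratio l
  exact bd_add (bd_sub (bd_mul (hr j) (key k l)) (bd_mul (hr k) (key j l)))
    (bd_mul (hr l) (key j k))

end

end Pool.Agent.Helper10.CI
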