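import Pool.Agent.Helper10.CI.Sing

/-!
# CI-EQV: equivariance

Hypothesis `hw1`: the tangent vectors of weight 1 are multiples of `x` (`w1`). `w1_rat`: `wt_rat`, in `TT`
by `nu_dvC`. `scl`: `F_i` is rational and vanishes at `x`. `eqv`: for `w = e_j`, `ζ = e_l` the vector
`dvC D x (X_l ∂_j F) + x_l e_j` lies in `TT` (`nu_i . e_j = ∂_j F_i (x)`, `nu_dvC`) and has weight 1
(`wt_rat`, `wt_xe`, `wt_add`); the general case is linear.
-/

set_option autoImplicit false

namespace Pool.Agent.Helper10.CI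

open scoped BigOperators
open MvPolynomial
open Pool.Agent.Helper8.LG (Bdd form mon Ix)
open Pool.Agent.Helper49.LN (cP mo hf pl)
open Pool.Agent.Helper6.QS (dv ev lf dt Par RatP)

section

variable {Ω : Type*} [Field Ω] {N r : ℕ} {d : Fin r → ℕ}
  {D : Ix (Fin (N + 1)) d → Derivation ℤ Ω Ω} {a : Ix (Fin (N + 1)) d → Ω} {B : Subfield Ω}

/-- the derivative of the `i`-th form in the direction `w` -/
noncomputable def pdF (a : Ix (Fin (N + 1)) d → Ω) (w : Fin (N + 1) → Ω) (i : Fin r) :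
    MvPolynomial (Fin (N + 1)) Ω := ∑ j, w j • pderiv j (Fp a i)

theorem pr_zero_iff (x : Fin (N + 1) → Ω) (hx : x 0 = 1) (v : Fin (N + 1) → Ω) :
    pr x v = 0 ↔ ∃ c : Ω, v = c • x := by
  constructor
  · intro h
    refine ⟨v 0, ?_⟩
    funext l
    have h1 := congrFun h l
    simp only [pr, Pi.zero_apply] at h1
    rw [Pi.smul_apply, smul_eq_mul]
    exact sub_eq_zero.1 h1
  · rintro ⟨c, rfl⟩
    funext l
    simp only [pr, Pi.smul_apply, smul_eq_mul, Pi.zero_apply, hx]
    ring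

/-- `pr x` as a linear map -/
private def Eqv_pr (x : Fin (N + 1) → Ω) : (Fin (N + 1) → Ω) →ₗ[Ω] (Fin (N + 1) → Ω) where
  toFun v := pr x v
  map_add' u v := by
    funext l
    simp only [pr, Pi.add_apply]
    ring
  map_smul' c v := by
    funext l
    simp only [pr, Pi.smul_apply, smul_eq_mul, RingHom.id_apply]
    ring

theorem w1_rat (hB : Frame D a B) (x : Fin (N + 1) → Ω) (hx : x 0 = 1)
    (hF : ∀ i, form (fun J => a ⟨i, J⟩) x = 0)
    (hw1 : ∀ v ∈ TT a x, Wt D B x 1 v → pr x v = 0) (g : Fin r → MvPolynomial (Fin (N + 1)) Ω)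
    (hg : RatT B g) (hg0 : ∀ i, ev (d i) x (g i) = 0) : pr x (dvC D x g) = 0 := by
  refine hw1 _ (fun i => ?_) (wt_rat x g hg)
  rw [nu_dvC hB.dual x hF, hg0, neg_zero]

private theorem Eqv_coeff (hB : Frame D a B) (i : Fin r) (m : Fin (N + 1) →₀ ℕ) :
    coeff m (Fp a i) ∈ B := by
  rw [Fp, coeff_sum]
  refine sum_mem fun J _ => ?_
  rw [coeff_smul, smul_eq_mul, Pool.Agent.Helper49.LN.mo_eq, coeff_monomial]
  split_ifs
  · rw [mul_one]
    exact hB.mem _
  · rw [mul_zero]
    exact B.zero_mem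

theorem scl (hB : Frame D a B) (x : Fin (N + 1) → Ω) (hx : x 0 = 1)
    (hF : ∀ i, form (fun J => a ⟨i, J⟩) x = 0)
    (hw1 : ∀ v ∈ TT a x, Wt D B x 1 v → pr x v = 0) (i : Fin r) :
    pr x (dvC D x (sg i (Fp a i))) = 0 := by
  refine w1_rat hB x hx hF hw1 _ ?_ ?_
  · intro j m
    unfold sg
    by_cases h : j = i
    · subst h
      rw [Pi.single_eq_same]
      exact Eqv_coeff hB j m
    · rw [Pi.single_eq_of_ne h, coeff_zero]
      exact B.zero_mem
  · intro j
    unfold sg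
    by_cases h : j = i
    · subst h
      rw [Pi.single_eq_same, Pool.Agent.Helper6.QS.ev_hom _ _ _ (Fp_hom a j), Fp_eval, hF]
    · rw [Pi.single_eq_of_ne h, map_zero]

private theorem Eqv_dt_add (n u v : Fin (N + 1) → Ω) : dt n (u + v) = dt n u + dt n v := by
  simp only [dt, Pi.add_apply, mul_add, Finset.sum_add_distrib]

private theorem Eqv_dt_single (n : Fin (N + 1) → Ω) (c : Ω) (j : Fin (N + 1)) :
    dt n (c • (Pi.single j 1 : Fin (N + 1) → Ω)) = n j * c := by
  rw [dt, Finset.sum_eq_single j]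
  · rw [Pi.smul_apply, Pi.single_eq_same, smul_eq_mul, mul_one]
  · intro k _ hk
    rw [Pi.smul_apply, Pi.single_eq_of_ne hk, smul_zero, mul_zero]
  · intro h
    exact absurd (Finset.mem_univ j) h

private theorem Eqv_base (hB : Frame D a B) (hd : ∀ i, 1 ≤ d i) (x : Fin (N + 1) → Ω)
    (hF : ∀ i, form (fun J => a ⟨i, J⟩) x = 0)
    (hw1 : ∀ v ∈ TT a x, Wt D B x 1 v → pr x v = 0) (j l : Fin (N + 1)) :
    Eqv_pr x (dvC D x (fun i => X l * pderiv j (Fp a i))) =
      -(x l) • Eqv_pr x (Pi.single j 1) := by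
  have h1 : Eqv_pr x (dvC D x (fun i => X l * pderiv j (Fp a i)) +
      x l • (Pi.single j 1 : Fin (N + 1) → Ω)) = 0 := by
    refine hw1 _ (fun i => ?_) (wt_add x 1 _ _ (wt_rat x _ ?_) (wt_xe x j l))
    · rw [Eqv_dt_add, Eqv_dt_single, nu_dvC hB.dual x hF]
      have h2 : (X l * pderiv j (Fp a i)).IsHomogeneous (d i) := by
        have h3 := (isHomogeneous_X Ω l).mul ((Fp_hom a i).pderiv (i := j))
        have h4 : 1 + (d i - 1) = d i := by
          have := hd i
          omega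
        rw [h4] at h3
        exact h3
      rw [Pool.Agent.Helper6.QS.ev_hom _ _ _ h2, map_mul, eval_X]
      simp only [nu]
      ring
    · intro i m
      rw [coeff_X_mul']
      split_ifs
      · rw [coeff_pderiv]
        refine B.mul_mem (Eqv_coeff hB i _) ?_
        exact B.add_mem (natCast_mem B _) B.one_mem
      · exact B.zero_mem
  rw [map_add, map_smul] at h1
  rw [neg_smul]
  exact eq_neg_of_add_eq_zero_left h1

theorem eqv (hB : Frame D a B) (hd : ∀ i, 1 ≤ d i) (x : Fin (N + 1) → Ω) (hx : x 0 = 1)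
    (hF : ∀ i, form (fun J => a ⟨i, J⟩) x = 0)
    (hw1 : ∀ v ∈ TT a x, Wt D B x 1 v → pr x v = 0) (w ζ : Fin (N + 1) → Ω) :
    pr x (dvC D x (fun i => lf ζ * pdF a w i)) = -(dt ζ x) • pr x w := by
  have h1 : (fun i => lf ζ * pdF a w i) = ∑ l, ∑ j, (ζ l * w j) •
      (fun i : Fin r => (X l * pderiv j (Fp a i) : MvPolynomial (Fin (N + 1)) Ω)) := by
    funext i
    rw [lf, pdF, Finset.sum_mul_sum, Finset.sum_apply]
    refine Finset.sum_congr rfl fun l _ => ?_
    rw [Finset.sum_apply]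
    refine Finset.sum_congr rfl fun j _ => ?_
    rw [Pi.smul_apply, smul_mul_smul_comm]
  have h2 : w = ∑ j, w j • (Pi.single j 1 : Fin (N + 1) → Ω) := by
    funext k
    rw [Finset.sum_apply, Finset.sum_eq_single k]
    · rw [Pi.smul_apply, Pi.single_eq_same, smul_eq_mul, mul_one]
    · intro j _ hj
      rw [Pi.smul_apply, Pi.single_eq_of_ne (Ne.symm hj), smul_zero]
    · intro h
      exact absurd (Finset.mem_univ k) h
  have h3 : Eqv_pr x w = ∑ j, w j • Eqv_pr x (Pi.single j 1) := by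
    conv_lhs => rw [h2]
    rw [map_sum]
    simp only [map_smul]
  change Eqv_pr x _ = -(dt ζ x) • Eqv_pr x w
  rw [h1, map_sum, map_sum, h3, dt, ← Finset.sum_neg_distrib, Finset.sum_smul]
  refine Finset.sum_congr rfl fun l _ => ?_
  rw [map_sum, map_sum, Finset.smul_sum]
  refine Finset.sum_congr rfl fun j _ => ?_
  rw [map_smul, map_smul, Eqv_base hB hd x hF hw1 j l, smul_smul, smul_smul]
  congr 1
  ring

end

end Pool.Agent.Helper10.CI
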