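import Pool.Agent.Helper10.CI.Psi
import Pool.Agent.Helper10.CI.Eqv

/-!
# CI-CHAIN: two differentiations of `psi F_i`

`psi_pow`: `psi (F_i) = ∑ c_j X_0^(d_i - j) r_β^j`; the derivative of `F_i (s x + t y)` with respect to
`s` is `pdF a x i (s x + t y) = 0` (`X_0`, `r_β` are algebraically independent: `β ≠ 0`), so
`psi (F_i) = c r_β^(d_i)` (characteristic 0).
`psi_der`: a derivation `δ` of `Ω` which kills the coefficients of `F_i`: apply `δ` to the coefficients
of `F_i (s x + t y) = c t^(d_i)`: `s (pdF a (δ x) i)(s x + t y) + t (pdF a (δ y) i)(s x + t y) = δ(c) t^(d_i)`.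
Proof: `psi = rh ∘ ph`, `th ∘ psi = ph`, where `ph : X_l ↦ x_l X_0 + y_l X_β`, `rh : X_β ↦ r_β`,
`th : X_β ↦ X_β + x_β X_0`; chain rule for `ph` and a derivation of the polynomial ring.
-/

set_option autoImplicit false

namespace Pool.Agent.Helper10.CI

open scoped BigOperators
open MvPolynomial
open Pool.Agent.Helper8.LG (Bdd form mon Ix)
open Pool.Agent.Helper49.LN (cP mo hf pl)
open Pool.Agent.Helper6.QS (dv ev lf dt Par RatP)

section

variable {Ω : Type*} [Field Ω] {σ : Type*} [Fintype σ] [DecidableEq σ]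

/-- chain rule -/
theorem Chain_rule (ph : MvPolynomial σ Ω →ₐ[Ω] MvPolynomial σ Ω)
    (E Δ : MvPolynomial σ Ω → MvPolynomial σ Ω)
    (hE : ∀ f g, E (f + g) = E f + E g) (hE' : ∀ f g, E (f * g) = E f * g + f * E g)
    (hΔ : ∀ f g, Δ (f + g) = Δ f + Δ g) (hΔ' : ∀ f l, Δ (f * X l) = Δ f * X l)
    (hC : ∀ c, E (ph (C c)) = ph (Δ (C c))) (f : MvPolynomial σ Ω) :
    E (ph f) = ph (Δ f) + ∑ l, ph (pderiv l f) * E (ph (X l)) := by
  induction f using MvPolynomial.induction_on with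
  | C c =>
    rw [hC]
    simp
  | add p q hp hq =>
    rw [map_add, hE, hp, hq, hΔ, map_add]
    simp only [map_add, add_mul, Finset.sum_add_distrib]
    ring
  | mul_X p j hp =>
    rw [map_mul, hE', hp, hΔ', map_mul, add_mul, Finset.sum_mul]
    have h1 : ∀ l, ph (pderiv l (p * X j)) * E (ph (X l)) =
        ph (pderiv l p) * E (ph (X l)) * ph (X j) +
          (if l = j then ph p * E (ph (X j)) else 0) := by
      intro l
      rw [Derivation.leibniz, smul_eq_mul, smul_eq_mul, map_add, map_mul, map_mul]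
      by_cases h : l = j
      · subst h
        rw [if_pos rfl, pderiv_X_self, map_one]
        ring
      · rw [if_neg h, pderiv_X_of_ne (Ne.symm h), map_zero]
        ring
    rw [Finset.sum_congr rfl fun l _ => h1 l, Finset.sum_add_distrib,
      Finset.sum_ite_eq' Finset.univ j, if_pos (Finset.mem_univ j)]
    ring

/-- the derivation `δ` applied to the coefficients -/
noncomputable def Chain_D (δ : Derivation ℤ Ω Ω) (f : MvPolynomial σ Ω) : MvPolynomial σ Ω :=
  ∑ m ∈ f.support, monomial m (δ (coeff m f))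

omit [Fintype σ] in
theorem Chain_coeff (δ : Derivation ℤ Ω Ω) (f : MvPolynomial σ Ω) (n : σ →₀ ℕ) :
    coeff n (Chain_D δ f) = δ (coeff n f) := by
  classical
  rw [Chain_D, coeff_sum]
  simp only [coeff_monomial]
  rw [Finset.sum_ite_eq' f.support n]
  split_ifs with h
  · rfl
  · rw [notMem_support_iff.1 h, map_zero]

omit [Fintype σ] in
theorem Chain_add (δ : Derivation ℤ Ω Ω) (f g : MvPolynomial σ Ω) :
    Chain_D δ (f + g) = Chain_D δ f + Chain_D δ g := by
  ext n
  rw [coeff_add, Chain_coeff, Chain_coeff, Chain_coeff, coeff_add, map_add]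

omit [Fintype σ] in
theorem Chain_mul (δ : Derivation ℤ Ω Ω) (f g : MvPolynomial σ Ω) :
    Chain_D δ (f * g) = Chain_D δ f * g + f * Chain_D δ g := by
  classical
  ext n
  rw [coeff_add, Chain_coeff, coeff_mul, coeff_mul, coeff_mul, map_sum, ← Finset.sum_add_distrib]
  refine Finset.sum_congr rfl fun p _ => ?_
  rw [Chain_coeff, Chain_coeff, Derivation.leibniz, smul_eq_mul, smul_eq_mul]
  ring

omit [Fintype σ] in
theorem Chain_monomial (δ : Derivation ℤ Ω Ω) (m : σ →₀ ℕ) (c : Ω) :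
    Chain_D δ (monomial m c) = monomial m (δ c) := by
  classical
  ext n
  rw [Chain_coeff, coeff_monomial, coeff_monomial]
  split_ifs
  · rfl
  · rw [map_zero]

end

section

variable {Ω : Type*} [Field Ω] {N r : ℕ} {d : Fin r → ℕ}

/-- `X_l ↦ x_l X_0 + y_l X_β` -/
noncomputable def Chain_ph (x y : Fin (N + 1) → Ω) (β : Fin (N + 1)) :
    MvPolynomial (Fin (N + 1)) Ω →ₐ[Ω] MvPolynomial (Fin (N + 1)) Ω :=
  aeval fun l => x l • X 0 + y l • X β

/-- `X_β ↦ r_β` -/
noncomputable def Chain_rh (x : Fin (N + 1) → Ω) (β : Fin (N + 1)) :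
    MvPolynomial (Fin (N + 1)) Ω →ₐ[Ω] MvPolynomial (Fin (N + 1)) Ω :=
  aeval fun l => if l = β then rl x β else X l

/-- `X_β ↦ X_β + x_β X_0` -/
noncomputable def Chain_th (x : Fin (N + 1) → Ω) (β : Fin (N + 1)) :
    MvPolynomial (Fin (N + 1)) Ω →ₐ[Ω] MvPolynomial (Fin (N + 1)) Ω :=
  aeval fun l => if l = β then X β + x β • X 0 else X l

theorem Chain_rh_ph (x y : Fin (N + 1) → Ω) (β : Fin (N + 1)) (hβ : β ≠ 0)
    (f : MvPolynomial (Fin (N + 1)) Ω) : Chain_rh x β (Chain_ph x y β f) = psi x y β f := by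
  have h : (Chain_rh x β).comp (Chain_ph x y β) = psi x y β := by
    refine MvPolynomial.algHom_ext fun l => ?_
    rw [AlgHom.comp_apply, Chain_ph, aeval_X, map_add, map_smul, map_smul, Psi_X, Chain_rh, aeval_X,
      aeval_X, if_neg (Ne.symm hβ), if_pos rfl]
  rw [← h]
  rfl

theorem Chain_th_psi (x y : Fin (N + 1) → Ω) (β : Fin (N + 1)) (hβ : β ≠ 0)
    (f : MvPolynomial (Fin (N + 1)) Ω) : Chain_th x β (psi x y β f) = Chain_ph x y β f := by
  have h1 : Chain_th x β (rl x β) = X β := by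
    rw [rl, map_sub, map_smul, Chain_th, aeval_X, aeval_X, if_pos rfl, if_neg (Ne.symm hβ),
      add_sub_cancel_right]
  have h2 : Chain_th x β (X 0) = X 0 := by
    rw [Chain_th, aeval_X, if_neg (Ne.symm hβ)]
  have h : (Chain_th x β).comp (psi x y β) = Chain_ph x y β := by
    refine MvPolynomial.algHom_ext fun l => ?_
    rw [AlgHom.comp_apply, Psi_X, map_add, map_smul, map_smul, h1, h2, Chain_ph, aeval_X]
  rw [← h]
  rfl

theorem Chain_hom_eval (y : Fin (N + 1) → Ω) (g : MvPolynomial (Fin (N + 1)) Ω)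
    (k : ℕ) (f : MvPolynomial (Fin (N + 1)) Ω) (hf : f.IsHomogeneous k) :
    aeval (fun l => y l • g) f = eval y f • g ^ k := by
  rw [aeval_eq_eval₂Hom]
  simp only [coe_eval₂Hom]
  rw [eval₂_eq', eval_eq', Finset.sum_smul]
  refine Finset.sum_congr rfl fun m hm => ?_
  have h1 : ∑ i, m i = k := by
    have := hf (mem_support_iff.1 hm)
    rw [← this, Finsupp.weight_apply, Finsupp.sum_fintype]
    · simp
    · simp
  have h2 : ∏ l, (y l • g) ^ m l = (∏ l, y l ^ m l) • g ^ k := by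
    rw [← h1, ← Finset.prod_pow_eq_pow_sum, ← Finset.prod_smul]
    exact Finset.prod_congr rfl fun l _ => smul_pow _ _ _
  rw [h2, algebraMap_eq, ← smul_eq_C_mul, smul_smul]

theorem Chain_nox [CharZero Ω] (G : MvPolynomial (Fin (N + 1)) Ω) (h : pderiv 0 G = 0) :
    aeval (fun l => if l = 0 then (0 : MvPolynomial (Fin (N + 1)) Ω) else X l) G = G := by
  have h1 : ∀ m : Fin (N + 1) →₀ ℕ, m 0 ≠ 0 → coeff m G = 0 := by
    intro m hm
    have h2 := congrArg (coeff (m - Finsupp.single 0 1)) h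
    rw [coeff_pderiv, coeff_zero] at h2
    have h3 : m - Finsupp.single 0 1 + Finsupp.single 0 1 = m := by
      refine tsub_add_cancel_of_le ?_
      rw [Finsupp.single_le_iff]
      omega
    rw [h3] at h2
    rcases mul_eq_zero.1 h2 with h4 | h4
    · exact h4
    · exfalso
      have h5 : (((m - Finsupp.single 0 1 : Fin (N + 1) →₀ ℕ) 0 + 1 : ℕ) : Ω) = 0 := by
        push_cast
        exact h4
      exact Nat.succ_ne_zero _ (Nat.cast_eq_zero.1 h5)
  have h2 : (0 : Fin (N + 1)) ∉ G.vars := by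
    rw [mem_vars_iff_mem_support]
    rintro ⟨m, hm, hm0⟩
    exact (mem_support_iff.1 hm) (h1 m (Finsupp.mem_support_iff.1 hm0))
  conv_rhs => rw [← aeval_X_left_apply G]
  rw [aeval_eq_eval₂Hom, aeval_eq_eval₂Hom]
  refine eval₂Hom_congr' rfl (fun l hl _ => ?_) rfl
  rw [if_neg]
  rintro rfl
  exact h2 hl

end

section

variable {Ω : Type*} [Field Ω] [CharZero Ω] {N r : ℕ} {d : Fin r → ℕ}
  {a : Ix (Fin (N + 1)) d → Ω}

theorem psi_pow (x y : Fin (N + 1) → Ω) (hx : x 0 = 1) (hy : y 0 = 0) (β : Fin (N + 1))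
    (hβ : y β = 1) (i : Fin r) (h : psi x y β (pdF a x i) = 0) :
    ∃ c : Ω, psi x y β (Fp a i) = c • rl x β ^ d i := by
  have hβ0 : β ≠ 0 := by
    rintro rfl
    rw [hy] at hβ
    exact zero_ne_one hβ
  have h1 : Chain_ph x y β (pdF a x i) = 0 := by
    rw [← Chain_th_psi x y β hβ0, h, map_zero]
  have h2 : pderiv 0 (Chain_ph x y β (Fp a i)) = 0 := by
    rw [Chain_rule (Chain_ph x y β) (fun f => pderiv 0 f) (fun _ => 0) (fun f g => map_add _ f g)
      (fun f g => by
        simp only [Derivation.leibniz, smul_eq_mul]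
        ring) (fun f g => by simp) (fun f l => by simp)
      (fun c => by simp [Chain_ph])]
    rw [map_zero, zero_add]
    rw [pdF, map_sum] at h1
    refine Eq.trans (Finset.sum_congr rfl fun l _ => ?_) h1
    have h3 : pderiv 0 (Chain_ph x y β (X l)) = C (x l) := by
      rw [Chain_ph, aeval_X, map_add, smul_eq_C_mul, smul_eq_C_mul, pderiv_C_mul, pderiv_C_mul,
        pderiv_X_self, pderiv_X_of_ne hβ0, mul_one, mul_zero, add_zero]
    rw [h3, map_smul, smul_eq_C_mul, mul_comm]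
  have h4 := Chain_nox _ h2
  refine ⟨eval y (Fp a i), ?_⟩
  have h5 : Chain_ph x y β (Fp a i) = eval y (Fp a i) • X β ^ d i := by
    rw [← h4, ← Chain_hom_eval y (X β) (d i) _ (Fp_hom a i)]
    have h6 : (aeval (fun l => if l = 0 then (0 : MvPolynomial (Fin (N + 1)) Ω) else X l)).comp
        (Chain_ph x y β) = aeval (fun l => y l • X β) := by
      refine MvPolynomial.algHom_ext fun l => ?_
      rw [AlgHom.comp_apply, Chain_ph, aeval_X, map_add, map_smul, map_smul, aeval_X, aeval_X,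
        aeval_X, if_pos rfl, if_neg hβ0, smul_zero, zero_add]
    rw [← h6]
    rfl
  rw [← Chain_rh_ph x y β hβ0, h5, map_smul, map_pow, Chain_rh, aeval_X, if_pos rfl]

theorem psi_der (x y : Fin (N + 1) → Ω) (hx : x 0 = 1) (hy : y 0 = 0) (β : Fin (N + 1))
    (hβ : y β = 1) (i : Fin r) (c : Ω) (hc : psi x y β (Fp a i) = c • rl x β ^ d i)
    (δ : Derivation ℤ Ω Ω) (hδ : ∀ J, δ (a ⟨i, J⟩) = 0) :
    psi x y β (X 0 * pdF a (fun l => δ (x l)) i + rl x β * pdF a (fun l => δ (y l)) i) =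
      δ c • rl x β ^ d i := by
  have hβ0 : β ≠ 0 := by
    rintro rfl
    rw [hy] at hβ
    exact zero_ne_one hβ
  have hthr : Chain_th x β (rl x β) = X β := by
    rw [rl, map_sub, map_smul, Chain_th, aeval_X, aeval_X, if_pos rfl, if_neg (Ne.symm hβ0),
      add_sub_cancel_right]
  have hrh : Chain_rh x β (X β) = rl x β := by
    rw [Chain_rh, aeval_X, if_pos rfl]
  have hrh0 : Chain_rh x β (X 0) = X 0 := by
    rw [Chain_rh, aeval_X, if_neg (Ne.symm hβ0)]
  have h1 : Chain_ph x y β (Fp a i) = c • X β ^ d i := by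
    rw [← Chain_th_psi x y β hβ0, hc, map_smul, map_pow, hthr]
  have hD1 : ∀ l : Fin (N + 1), Chain_D δ (X l : MvPolynomial (Fin (N + 1)) Ω) = 0 := by
    intro l
    rw [X, Chain_monomial, Derivation.map_one_eq_zero, monomial_zero]
  have hDC : ∀ b : Ω, Chain_D δ (C b : MvPolynomial (Fin (N + 1)) Ω) = C (δ b) := by
    intro b
    rw [C_apply, Chain_monomial, ← C_apply]
  have hF : Chain_D δ (Fp a i) = 0 := by
    ext m
    rw [Chain_coeff, coeff_zero, Fp, coeff_sum, map_sum]
    refine Finset.sum_eq_zero fun J _ => ?_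
    rw [coeff_smul, smul_eq_mul, Pool.Agent.Helper49.LN.mo_eq, coeff_monomial]
    split_ifs
    · rw [mul_one, hδ]
    · rw [mul_zero, map_zero]
  have h2 := Chain_rule (Chain_ph x y β) (Chain_D δ) (Chain_D δ) (Chain_add δ) (Chain_mul δ)
    (Chain_add δ) (fun f l => by rw [Chain_mul, hD1, mul_zero, add_zero])
    (fun b => by
      rw [hDC]
      simp only [Chain_ph, aeval_C, algebraMap_eq]
      exact hDC b) (Fp a i)
  rw [hF, map_zero, zero_add, h1, smul_eq_C_mul, Chain_mul, hDC] at h2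
  have h3 : Chain_D δ (X β ^ d i : MvPolynomial (Fin (N + 1)) Ω) = 0 := by
    rw [X_pow_eq_monomial, Chain_monomial, Derivation.map_one_eq_zero, monomial_zero]
  rw [h3, mul_zero, add_zero] at h2
  have h4 : ∀ l, Chain_D δ (Chain_ph x y β (X l)) = δ (x l) • X 0 + δ (y l) • X β := by
    intro l
    rw [Chain_ph, aeval_X, Chain_add, smul_eq_C_mul, smul_eq_C_mul, Chain_mul, Chain_mul, hD1, hD1,
      hDC, hDC, mul_zero, mul_zero, add_zero, add_zero, smul_eq_C_mul, smul_eq_C_mul]
  have h5 : X 0 * Chain_ph x y β (pdF a (fun l => δ (x l)) i) +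
      X β * Chain_ph x y β (pdF a (fun l => δ (y l)) i) = C (δ c) * X β ^ d i := by
    rw [h2, pdF, pdF, map_sum, map_sum, Finset.mul_sum, Finset.mul_sum, ← Finset.sum_add_distrib]
    refine Finset.sum_congr rfl fun l _ => ?_
    rw [h4, map_smul, map_smul, smul_eq_C_mul, smul_eq_C_mul, smul_eq_C_mul, smul_eq_C_mul]
    ring
  have h6 := congrArg (Chain_rh x β) h5
  rw [map_add, map_mul, map_mul, Chain_rh_ph x y β hβ0, Chain_rh_ph x y β hβ0, hrh, hrh0, map_mul,
    map_pow, hrh, Chain_rh, aeval_C, algebraMap_eq, ← smul_eq_C_mul] at h6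
  rw [map_add, map_mul, map_mul, psi_X0 x y hx hy, psi_rl x y hx hy β hβ]
  exact h6

end

end Pool.Agent.Helper10.CI
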