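import Pool.Agent.Helper6.QS.Ev

/-!
# CI: generic complete intersections `F_1 = ... = F_r = 0` in `P^N` with `sum (d_i + 1) = 2 N`

`Frame D a B`: a field with derivations `D_s` dual to elements `a_s` (the coefficients of all the
forms), and a subfield `B` which contains the `a_s` and everything which is bounded, up to a power
of `Δ`, at all valuation rings where `Δ` bounds the derivations and finitely many elements of `B`.
The goal `KeyC`: every point `x` of the complete intersection with `x_0 = 1` has coordinates in `B`.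
-/

set_option autoImplicit false

namespace Pool.Agent.Helper10.CI

open scoped BigOperators
open MvPolynomial
open Pool.Agent.Helper8.LG (Bdd form mon Ix)
open Pool.Agent.Helper49.LN (cP mo hf pl)
open Pool.Agent.Helper6.QS (dv ev lf dt Par RatP)

section

variable {Ω : Type*} [Field Ω] {P : Type*} [DecidableEq P]

/-- the frame -/
structure Frame (D : P → Derivation ℤ Ω Ω) (a : P → Ω) (B : Subfield Ω) : Prop where
  dual : ∀ I J, D J (a I) = if I = J then 1 else 0
  mem : ∀ J, a J ∈ B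
  rat : ∀ (s : Finset Ω), (∀ b ∈ s, b ∈ B) → ∀ (y : Ω) (M : ℕ),
    (∀ (O : ValuationSubring Ω) (Δ : Ω), Bdd D Δ O → (∀ b ∈ s, Δ * b ∈ O) → Δ ^ M * y ∈ O) →
    y ∈ B

end

section

variable {Ω : Type*} [Field Ω] {σ : Type*} [Fintype σ] [DecidableEq σ] {r : ℕ} {d : Fin r → ℕ}

/-- the derivative of the point `x` in the direction of the (parts of degree `d i` of the)
polynomials `g i` -/
noncomputable def dvC (D : Ix σ d → Derivation ℤ Ω Ω) (x : σ → Ω) :
    (Fin r → MvPolynomial σ Ω) →ₗ[Ω] (σ → Ω) :=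
  ∑ i, (dv (fun J : Sym σ (d i) => D ⟨i, J⟩) x).comp (LinearMap.proj i)

/-- the `i`-th form as a polynomial -/
noncomputable def Fp (a : Ix σ d → Ω) (i : Fin r) : MvPolynomial σ Ω :=
  ∑ J : Sym σ (d i), a ⟨i, J⟩ • mo Ω (J : Multiset σ)

/-- the tuple with `g` at the place `i` -/
noncomputable def sg (i : Fin r) (g : MvPolynomial σ Ω) : Fin r → MvPolynomial σ Ω := Pi.single i g

/-- all coefficients of all the `g i` lie in `B` -/
def RatT (B : Subfield Ω) (g : Fin r → MvPolynomial σ Ω) : Prop := ∀ i m, coeff m (g i) ∈ B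

/-- `v` has weight `w` modulo `x` -/
def Wt (D : Ix σ d → Derivation ℤ Ω Ω) (B : Subfield Ω) (x : σ → Ω) (w : ℕ) (v : σ → Ω) : Prop :=
  ∃ (s : Finset Ω) (M : ℕ), (∀ b ∈ s, b ∈ B) ∧
    ∀ (O : ValuationSubring Ω) (Δ : Ω), Bdd D Δ O → (∀ b ∈ s, Δ * b ∈ O) →
      ∀ m, x m ≠ 0 → (∀ l, x l / x m ∈ O) →
        ∃ (μ : Ω) (v' : σ → Ω), v = x m ^ w • v' + μ • x ∧ ∀ l, Δ ^ M * v' l ∈ O

end

section

variable {Ω : Type*} [Field Ω] {N r : ℕ} {d : Fin r → ℕ}

/-- the linear form `X_l - x_l X_0` -/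
noncomputable def rl (x : Fin (N + 1) → Ω) (l : Fin (N + 1)) : MvPolynomial (Fin (N + 1)) Ω :=
  X l - x l • X 0

/-- `v` modulo `x` (for `x_0 = 1`): the representative with vanishing coordinate `0` -/
def pr (x v : Fin (N + 1) → Ω) : Fin (N + 1) → Ω := fun l => v l - v 0 * x l

/-- the index type of the rows of the determinants -/
abbrev Kx (n r : ℕ) : Type := Unit ⊕ Fin n ⊕ Fin r

/-- the rows `x`, `v_1, …, v_n`, `τ_1, …, τ_r` -/
def rows {n : ℕ} (x : Fin (N + 1) → Ω) (v : Fin n → Fin (N + 1) → Ω) (τ : Fin r → Fin (N + 1) → Ω) :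
    Kx n r → Fin (N + 1) → Ω := Sum.elim (fun _ => x) (Sum.elim v τ)

/-- the determinant of the rows -/
noncomputable def dtm {n : ℕ} (e : Kx n r ≃ Fin (N + 1)) (x : Fin (N + 1) → Ω)
    (v : Fin n → Fin (N + 1) → Ω) (τ : Fin r → Fin (N + 1) → Ω) : Ω :=
  (Matrix.of fun k l => rows x v τ k (e l)).det

/-- the last rows `D_(X_0^(d_i) e_i) x` -/
noncomputable def tau (D : Ix (Fin (N + 1)) d → Derivation ℤ Ω Ω) (x : Fin (N + 1) → Ω)
    (i : Fin r) : Fin (N + 1) → Ω := dvC D x (sg i (X 0 ^ d i))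

/-- the functions `A(v_1, …, v_n)` -/
noncomputable def AA {n : ℕ} (e : Kx n r ≃ Fin (N + 1)) (D : Ix (Fin (N + 1)) d → Derivation ℤ Ω Ω)
    (x : Fin (N + 1) → Ω) (v : Fin n → Fin (N + 1) → Ω) : Ω := dtm e x v (tau D x)

end

universe u

/-- **The key statement** for `(N; d_1, …, d_r)`. -/
def KeyC (N : ℕ) {r : ℕ} (d : Fin r → ℕ) : Prop :=
  ∀ (Ω : Type u) [Field Ω] [CharZero Ω] (D : Ix (Fin (N + 1)) d → Derivation ℤ Ω Ω)
    (a : Ix (Fin (N + 1)) d → Ω) (B : Subfield Ω), Frame D a B →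
    ∀ x : Fin (N + 1) → Ω, x 0 = 1 → (∀ i, form (fun J => a ⟨i, J⟩) x = 0) → ∀ l, x l ∈ B

end Pool.Agent.Helper10.CI
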