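import Pool.Agent.Helper10.CI.Psi
import Pool.Agent.Helper10.CI.Eqv

/-!
# CI-DIMARG: all `F_i` are constant along the line in the direction `x`

`ker_t`: `eqv` with `lf ζ = r_β` (`ζ . x = 0`): `pr x (Sv D x (pdF a w) β) = 0 = t (pdF a w)`.
`exists_w`: the tuples `(psi P_i)`, `P_i` a form of degree `d_i - 1`, lie in the span `W` of the
`∑ d_i` tuples `sg i (X_0^(d_i - 1 - j) r_β^j)`; by `t_hom`, `psi_t` the range of `t` is `t(W)`, so the kernel of `t` on `W`
has dimension at most `∑ d_i - n = N`; `w ↦ (psi (pdF a w i))_i` maps `Ω^(N+1)` into it.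
`w_par`: `eqv` with `lf ζ = X_0` and `psi_eq` give `0 = - pr x w`. `const_x`: so `w = c x`, `c ≠ 0`.
-/

set_option autoImplicit false

namespace Pool.Agent.Helper10.CI

open scoped BigOperators
open MvPolynomial
open Pool.Agent.Helper8.LG (Bdd form mon Ix)
open Pool.Agent.Helper49.LN (cP mo hf pl)
open Pool.Agent.Helper6.QS (dv ev lf dt Par RatP)

section

variable {Ω : Type*} [Field Ω] {N r n : ℕ} {d : Fin r → ℕ}
  {D : Ix (Fin (N + 1)) d → Derivation ℤ Ω Ω} {a : Ix (Fin (N + 1)) d → Ω}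

theorem DimArg_smul_hom (c : Ω) (k : ℕ) (f : MvPolynomial (Fin (N + 1)) Ω)
    (hf : f.IsHomogeneous k) : (c • f).IsHomogeneous k := by
  have h1 := (isHomogeneous_C (Fin (N + 1)) c).mul hf
  rw [zero_add, ← smul_eq_C_mul] at h1
  exact h1

theorem DimArg_Fp_hom (a : Ix (Fin (N + 1)) d → Ω) (i : Fin r) :
    (Fp a i).IsHomogeneous (d i) := by
  unfold Fp
  refine IsHomogeneous.sum _ _ _ fun J _ => ?_
  refine DimArg_smul_hom _ _ _ ?_
  have h1 := Pool.Agent.Helper49.LN.mo_hom (E := Ω) (J : Multiset (Fin (N + 1)))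
  have h2 : Multiset.card (J : Multiset (Fin (N + 1))) = d i := J.2
  rw [h2] at h1
  exact h1

theorem pdF_hom (a : Ix (Fin (N + 1)) d → Ω) (w : Fin (N + 1) → Ω) (i : Fin r) :
    (pdF a w i).IsHomogeneous (d i - 1) := by
  unfold pdF
  refine IsHomogeneous.sum _ _ _ fun j _ => ?_
  exact DimArg_smul_hom _ _ _ (DimArg_Fp_hom a i).pderiv

theorem DimArg_lf_single (j : Fin (N + 1)) (c : Ω) :
    lf (Pi.single j c : Fin (N + 1) → Ω) = c • X j := by
  unfold lf
  rw [Finset.sum_eq_single j]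
  · rw [Pi.single_eq_same]
  · intro k _ hk
    rw [Pi.single_eq_of_ne hk, zero_smul]
  · intro h
    exact absurd (Finset.mem_univ j) h

theorem DimArg_dt_single (j : Fin (N + 1)) (c : Ω) (x : Fin (N + 1) → Ω) :
    dt (Pi.single j c : Fin (N + 1) → Ω) x = c * x j := by
  unfold dt
  rw [Finset.sum_eq_single j]
  · rw [Pi.single_eq_same]
  · intro k _ hk
    rw [Pi.single_eq_of_ne hk, zero_mul]
  · intro h
    exact absurd (Finset.mem_univ j) h

theorem DimArg_lf_add (u v : Fin (N + 1) → Ω) : lf (u + v) = lf u + lf v := by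
  unfold lf
  rw [← Finset.sum_add_distrib]
  exact Finset.sum_congr rfl fun k _ => by rw [Pi.add_apply, add_smul]

theorem DimArg_dt_add (u v x : Fin (N + 1) → Ω) : dt (u + v) x = dt u x + dt v x := by
  unfold dt
  rw [← Finset.sum_add_distrib]
  exact Finset.sum_congr rfl fun k _ => by rw [Pi.add_apply, add_mul]

theorem ker_t (x y : Fin (N + 1) → Ω) (hx : x 0 = 1)
    (heq : ∀ w ζ : Fin (N + 1) → Ω,
      pr x (dvC D x (fun i => lf ζ * pdF a w i)) = -(dt ζ x) • pr x w)
    (β : Fin (N + 1)) (hβ : y β = 1)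
    (t : (Fin r → MvPolynomial (Fin (N + 1)) Ω) →ₗ[Ω] (Fin (N + 1) → Ω))
    (ht : ∀ l P, pr x (Sv D x P l) = y l • t P) (w : Fin (N + 1) → Ω) :
    t (pdF a w) = 0 := by
  have h1 := heq w (Pi.single β 1 + Pi.single 0 (-(x β)))
  have h2 : lf (Pi.single β 1 + Pi.single 0 (-(x β)) : Fin (N + 1) → Ω) = rl x β := by
    rw [DimArg_lf_add, DimArg_lf_single, DimArg_lf_single, one_smul, neg_smul, rl, sub_eq_add_neg]
  have h3 : dt (Pi.single β 1 + Pi.single 0 (-(x β)) : Fin (N + 1) → Ω) x = 0 := by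
    rw [DimArg_dt_add, DimArg_dt_single, DimArg_dt_single, hx]
    ring
  rw [h2, h3, neg_zero, zero_smul] at h1
  have h4 := ht β (pdF a w)
  rw [hβ, one_smul] at h4
  rw [← h4]
  exact h1

/-- the span of the forms of degree `k` in `X_0`, `r_β` -/
noncomputable def DimArg_L (x : Fin (N + 1) → Ω) (β : Fin (N + 1)) (k : ℕ) :
    Submodule Ω (MvPolynomial (Fin (N + 1)) Ω) :=
  Submodule.span Ω {f | ∃ p q : ℕ, p + q = k ∧ f = X 0 ^ p * rl x β ^ q}

theorem DimArg_L_mul (x : Fin (N + 1) → Ω) (β : Fin (N + 1)) (k : ℕ) (c e : Ω)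
    (f : MvPolynomial (Fin (N + 1)) Ω) (hf : f ∈ DimArg_L x β k) :
    (c • X 0 + e • rl x β) * f ∈ DimArg_L x β (k + 1) := by
  unfold DimArg_L at hf
  induction hf using Submodule.span_induction with
  | mem f hf =>
    obtain ⟨p, q, hpq, rfl⟩ := hf
    have h1 : (c • X 0 + e • rl x β) * (X 0 ^ p * rl x β ^ q) =
        c • (X 0 ^ (p + 1) * rl x β ^ q) + e • (X 0 ^ p * rl x β ^ (q + 1)) := by
      rw [add_mul, smul_mul_assoc, smul_mul_assoc]
      congr 2 <;> ring
    rw [h1]
    refine Submodule.add_mem _ (Submodule.smul_mem _ _ (Submodule.subset_span ?_))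
      (Submodule.smul_mem _ _ (Submodule.subset_span ?_))
    · exact ⟨p + 1, q, by omega, rfl⟩
    · exact ⟨p, q + 1, by omega, rfl⟩
  | zero =>
    rw [mul_zero]
    exact Submodule.zero_mem _
  | add f g _ _ hf hg =>
    rw [mul_add]
    exact Submodule.add_mem _ hf hg
  | smul b f _ hf =>
    rw [mul_smul_comm]
    exact Submodule.smul_mem _ _ hf

theorem DimArg_psi_mo (x y : Fin (N + 1) → Ω) (β : Fin (N + 1)) (K : Multiset (Fin (N + 1))) :
    psi x y β (mo Ω K) ∈ DimArg_L x β (Multiset.card K) := by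
  induction K using Multiset.induction_on with
  | empty =>
    refine Submodule.subset_span ⟨0, 0, by simp, ?_⟩
    simp [mo]
  | cons l K ih =>
    have h1 : mo Ω (l ::ₘ K) = X l * mo Ω K := by
      rw [mo, mo, Multiset.map_cons, Multiset.prod_cons]
    have h2 : psi x y β (X l) = x l • X 0 + y l • rl x β := by
      unfold psi
      rw [aeval_X]
    rw [h1, map_mul, h2, Multiset.card_cons]
    exact DimArg_L_mul x β _ _ _ _ ih

theorem DimArg_psi_mem (x y : Fin (N + 1) → Ω) (β : Fin (N + 1)) (k : ℕ)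
    (g : MvPolynomial (Fin (N + 1)) Ω) (hg : g.IsHomogeneous k) :
    psi x y β g ∈ DimArg_L x β k := by
  rw [Pool.Agent.Helper49.LN.mo_span g, map_sum]
  refine Submodule.sum_mem _ fun m hm => ?_
  rw [map_smul]
  refine Submodule.smul_mem _ _ ?_
  have hc : Multiset.card (Finsupp.toMultiset m) = k := by
    rw [← Pool.Agent.Helper49.LN.toFinsupp_degree, Finsupp.toMultiset_toFinsupp]
    by_contra hne
    exact (mem_support_iff.1 hm) (hg.coeff_eq_zero hne)
  rw [← hc]
  exact DimArg_psi_mo x y β _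

/-- the spanning tuples -/
noncomputable def DimArg_b (d : Fin r → ℕ) (x : Fin (N + 1) → Ω) (β : Fin (N + 1)) :
    (Σ i : Fin r, Fin (d i)) → (Fin r → MvPolynomial (Fin (N + 1)) Ω) :=
  fun s => sg s.1 (X 0 ^ (d s.1 - 1 - (s.2 : ℕ)) * rl x β ^ (s.2 : ℕ))

/-- their span -/
noncomputable def DimArg_W (d : Fin r → ℕ) (x : Fin (N + 1) → Ω) (β : Fin (N + 1)) :
    Submodule Ω (Fin r → MvPolynomial (Fin (N + 1)) Ω) :=
  Submodule.span Ω (Set.range (DimArg_b d x β))

theorem DimArg_sg_mem (hd : ∀ i, 1 ≤ d i) (x : Fin (N + 1) → Ω) (β : Fin (N + 1)) (i : Fin r)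
    (f : MvPolynomial (Fin (N + 1)) Ω) (hf : f ∈ DimArg_L x β (d i - 1)) :
    sg i f ∈ DimArg_W d x β := by
  unfold DimArg_L at hf
  have hs : ∀ f : MvPolynomial (Fin (N + 1)) Ω,
      sg i f = LinearMap.single Ω (fun _ : Fin r => MvPolynomial (Fin (N + 1)) Ω) i f :=
    fun f => rfl
  rw [hs]
  induction hf using Submodule.span_induction with
  | mem f hf =>
    obtain ⟨p, q, hpq, rfl⟩ := hf
    refine Submodule.subset_span ⟨⟨i, ⟨q, ?_⟩⟩, ?_⟩
    · have := hd i
      omega
    · have hp : d i - 1 - q = p := by omega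
      have h1 : X 0 ^ (d i - 1 - q) * rl x β ^ q = X 0 ^ p * rl x β ^ q := by rw [hp]
      exact congrArg (sg i) h1
  | zero =>
    rw [map_zero]
    exact Submodule.zero_mem _
  | add f g _ _ hf hg =>
    rw [map_add]
    exact Submodule.add_mem _ hf hg
  | smul b f _ hf =>
    rw [map_smul]
    exact Submodule.smul_mem _ _ hf

theorem DimArg_tuple_mem (hd : ∀ i, 1 ≤ d i) (x : Fin (N + 1) → Ω) (β : Fin (N + 1))
    (P : Fin r → MvPolynomial (Fin (N + 1)) Ω) (hP : ∀ i, P i ∈ DimArg_L x β (d i - 1)) :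
    P ∈ DimArg_W d x β := by
  have h1 : P = ∑ i, sg i (P i) := by
    unfold sg
    exact (Finset.univ_sum_single P).symm
  rw [h1]
  exact Submodule.sum_mem _ fun i _ => DimArg_sg_mem hd x β i _ (hP i)

theorem exists_w (hn : n + r = N) (hnum : ∑ i, (d i + 1) = 2 * N) (hd : ∀ i, 1 ≤ d i)
    (x y : Fin (N + 1) → Ω) (hx : x 0 = 1) (hy : y 0 = 0) (β : Fin (N + 1)) (hβ : y β = 1)
    (t : (Fin r → MvPolynomial (Fin (N + 1)) Ω) →ₗ[Ω] (Fin (N + 1) → Ω))
    (ht : ∀ l P, pr x (Sv D x P l) = y l • t P)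
    (htn : n ≤ Module.finrank Ω (LinearMap.range t)) (hker : ∀ w, t (pdF a w) = 0) :
    ∃ w : Fin (N + 1) → Ω, w ≠ 0 ∧ ∀ i, psi x y β (pdF a w i) = 0 := by
  classical
  -- the space and its dimension
  have hWle : Module.finrank Ω (DimArg_W d x β) ≤ ∑ i, d i := by
    have h1 : (Set.range (DimArg_b d x β)).finrank Ω ≤
        Fintype.card (Σ i : Fin r, Fin (d i)) := finrank_range_le_card _
    rw [Fintype.card_sigma] at h1
    simp only [Fintype.card_fin] at h1
    exact h1
  have : FiniteDimensional Ω (DimArg_W d x β) :=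
    FiniteDimensional.span_of_finite Ω (Set.finite_range _)
  have hsum : (∑ i, d i) + r = 2 * N := by
    rw [← hnum, Finset.sum_add_distrib]
    simp
  -- the restriction of `t`
  set tW : DimArg_W d x β →ₗ[Ω] (Fin (N + 1) → Ω) := t.domRestrict (DimArg_W d x β) with htW
  have hrange : LinearMap.range t ≤ LinearMap.range tW := by
    rintro _ ⟨P, rfl⟩
    rw [t_hom hd x y β hβ t ht P,
      psi_t hd x y hx hy β hβ t ht _ fun i => homogeneousComponent_isHomogeneous _ _]
    refine ⟨⟨_, DimArg_tuple_mem hd x β (fun i =>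
      psi x y β (homogeneousComponent (d i - 1) (P i))) fun i =>
        DimArg_psi_mem x y β _ _ (homogeneousComponent_isHomogeneous _ _)⟩, rfl⟩
  have hle1 : Module.finrank Ω (LinearMap.range t) ≤ Module.finrank Ω (LinearMap.range tW) :=
    Submodule.finrank_mono hrange
  have hrn := LinearMap.finrank_range_add_finrank_ker tW
  have hkerle : Module.finrank Ω (LinearMap.ker tW) ≤ N := by omega
  -- the map
  have hmem : ∀ w : Fin (N + 1) → Ω, (fun i => psi x y β (pdF a w i)) ∈ DimArg_W d x β := fun w =>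
    DimArg_tuple_mem hd x β _ fun i => DimArg_psi_mem x y β _ _ (pdF_hom a w i)
  have hadd : ∀ (u v : Fin (N + 1) → Ω) (i : Fin r), pdF a (u + v) i = pdF a u i + pdF a v i := by
    intro u v i
    unfold pdF
    rw [← Finset.sum_add_distrib]
    exact Finset.sum_congr rfl fun k _ => by rw [Pi.add_apply, add_smul]
  have hsmul : ∀ (c : Ω) (u : Fin (N + 1) → Ω) (i : Fin r), pdF a (c • u) i = c • pdF a u i := by
    intro c u i
    unfold pdF
    rw [Finset.smul_sum]
    exact Finset.sum_congr rfl fun k _ => by rw [Pi.smul_apply, smul_eq_mul, mul_smul]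
  let L0 : (Fin (N + 1) → Ω) →ₗ[Ω] DimArg_W d x β :=
    { toFun := fun w => ⟨fun i => psi x y β (pdF a w i), hmem w⟩
      map_add' := by
        intro u v
        apply Subtype.ext
        funext i
        show psi x y β (pdF a (u + v) i) = psi x y β (pdF a u i) + psi x y β (pdF a v i)
        rw [hadd, map_add]
      map_smul' := by
        intro c u
        apply Subtype.ext
        funext i
        show psi x y β (pdF a (c • u) i) = c • psi x y β (pdF a u i)
        rw [hsmul, map_smul] }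
  have hL0 : ∀ w, L0 w ∈ LinearMap.ker tW := by
    intro w
    rw [LinearMap.mem_ker]
    show t (fun i => psi x y β (pdF a w i)) = 0
    rw [← psi_t hd x y hx hy β hβ t ht (pdF a w) fun i => pdF_hom a w i]
    exact hker w
  have hne : LinearMap.ker (L0.codRestrict (LinearMap.ker tW) hL0) ≠ ⊥ := by
    have hlt : Module.finrank Ω (LinearMap.ker tW) < Module.finrank Ω (Fin (N + 1) → Ω) := by
      rw [Module.finrank_fintype_fun_eq_card, Fintype.card_fin]
      omega
    exact LinearMap.ker_ne_bot_of_finrank_lt (K := Ω) (V := Fin (N + 1) → Ω)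
      (V₂ := LinearMap.ker tW) (f := L0.codRestrict (LinearMap.ker tW) hL0) hlt
  obtain ⟨w, hw, hw0⟩ := Submodule.exists_mem_ne_zero_of_ne_bot hne
  refine ⟨w, hw0, fun i => ?_⟩
  rw [LinearMap.ker_codRestrict, LinearMap.mem_ker] at hw
  have h2 := congrArg Subtype.val hw
  exact congrFun h2 i

theorem const_x (hn : n + r = N) (hnum : ∑ i, (d i + 1) = 2 * N) (hd : ∀ i, 1 ≤ d i)
    (x y : Fin (N + 1) → Ω) (hx : x 0 = 1) (hy : y 0 = 0) (β : Fin (N + 1)) (hβ : y β = 1)
    (heq : ∀ w ζ : Fin (N + 1) → Ω,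
      pr x (dvC D x (fun i => lf ζ * pdF a w i)) = -(dt ζ x) • pr x w)
    (t : (Fin r → MvPolynomial (Fin (N + 1)) Ω) →ₗ[Ω] (Fin (N + 1) → Ω))
    (ht : ∀ l P, pr x (Sv D x P l) = y l • t P)
    (htn : n ≤ Module.finrank Ω (LinearMap.range t)) :
    ∀ i, psi x y β (pdF a x i) = 0 := by
  obtain ⟨w, hw0, hw⟩ := exists_w hn hnum hd x y hx hy β hβ t ht htn
    (ker_t x y hx heq β hβ t ht)
  have h1 := heq w (Pi.single 0 1)
  rw [DimArg_lf_single, DimArg_dt_single, one_smul, hx, one_mul] at h1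
  have h2 := psi_eq hd x y hx hy β hβ t ht (fun i => X 0 * pdF a w i) fun i => by
    have h3 := (isHomogeneous_X Ω (0 : Fin (N + 1))).mul (pdF_hom a w i)
    have h4 : 1 + (d i - 1) = d i := by
      have := hd i
      omega
    rw [h4] at h3
    exact h3
  have h5 : (fun i => psi x y β (X 0 * pdF a w i)) =
      (0 : Fin r → MvPolynomial (Fin (N + 1)) Ω) := by
    funext i
    rw [map_mul, hw i, mul_zero]
    rfl
  have h6 : pr x (0 : Fin (N + 1) → Ω) = 0 := by
    funext l
    simp [pr]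
  rw [h2, h5, map_zero, h6] at h1
  have h7 : pr x w = 0 := by
    have h8 : -(pr x w) = 0 := by
      rw [← neg_one_smul Ω]
      exact h1.symm
    exact neg_eq_zero.1 h8
  obtain ⟨c, hc⟩ := (pr_zero_iff x hx w).1 h7
  have hc0 : c ≠ 0 := by
    rintro rfl
    rw [zero_smul] at hc
    exact hw0 hc
  intro i
  have h9 := hw i
  have h10 : pdF a w i = c • pdF a x i := by
    rw [hc]
    unfold pdF
    rw [Finset.smul_sum]
    exact Finset.sum_congr rfl fun k _ => by rw [Pi.smul_apply, smul_eq_mul, mul_smul]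
  rw [h10, map_smul] at h9
  exact (smul_eq_zero.1 h9).resolve_left hc0

end

end Pool.Agent.Helper10.CI
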