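import Pool.Agent.Helper10.CI.Defs

/-!
# CI-EV: values and derivatives for tuples of forms

Everything is reduced to one form (`Helper6/QS/Ev.lean`: `dv_normal`, `dv_scale`, `dv_bdd`) by
`dvC D x g = ∑ i, dv (fun J => D ⟨i, J⟩) x (g i)`. `nu a x i` is the gradient of the `i`-th form at `x`;
`nu_dvC`: apply `D_s` to `form a_i x = 0` (as in `dv_normal`, whose normal vector is the gradient).
-/

set_option autoImplicit false

namespace Pool.Agent.Helper10.CI

open scoped BigOperators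
open MvPolynomial
open Pool.Agent.Helper8.LG (Bdd form mon Ix)
open Pool.Agent.Helper49.LN (cP mo hf pl)
open Pool.Agent.Helper6.QS (dv ev lf dt Par RatP)

section

variable {Ω : Type*} [Field Ω] {σ : Type*} [Fintype σ] [DecidableEq σ] {r : ℕ} {d : Fin r → ℕ}
  {D : Ix σ d → Derivation ℤ Ω Ω} {a : Ix σ d → Ω}

/-- the gradient of the `i`-th form -/
noncomputable def nu (a : Ix σ d → Ω) (x : σ → Ω) (i : Fin r) : σ → Ω :=
  fun l => eval x (pderiv l (Fp a i))

theorem dvC_apply (x : σ → Ω) (g : Fin r → MvPolynomial σ Ω) :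
    dvC D x g = ∑ i, dv (fun J : Sym σ (d i) => D ⟨i, J⟩) x (g i) := by
  unfold dvC
  rw [LinearMap.sum_apply]
  rfl

theorem dvC_sg (x : σ → Ω) (i : Fin r) (f : MvPolynomial σ Ω) :
    dvC D x (sg i f) = dv (fun J : Sym σ (d i) => D ⟨i, J⟩) x f := by
  rw [dvC_apply, Finset.sum_eq_single i]
  · rw [sg, Pi.single_eq_same]
  · intro j _ hj
    rw [sg, Pi.single_eq_of_ne hj, map_zero]
  · intro h
    exact absurd (Finset.mem_univ i) h

theorem Ev_mo_hom (K : Multiset σ) : (mo Ω K).IsHomogeneous (Multiset.card K) := by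
  induction K using Multiset.induction_on with
  | empty =>
    rw [mo]
    simpa using isHomogeneous_one σ Ω
  | cons b K ih =>
    have h1 : mo Ω (b ::ₘ K) = X b * mo Ω K := by
      rw [mo, mo, Multiset.map_cons, Multiset.prod_cons]
    rw [h1, Multiset.card_cons, add_comm]
    exact (isHomogeneous_X Ω b).mul ih

theorem Fp_hom (a : Ix σ d → Ω) (i : Fin r) : (Fp a i).IsHomogeneous (d i) := by
  unfold Fp
  refine IsHomogeneous.sum _ _ _ fun J _ => ?_
  rw [smul_eq_C_mul]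
  have h := (isHomogeneous_C σ (a ⟨i, J⟩)).mul (Ev_mo_hom (Ω := Ω) (J : Multiset σ))
  rw [zero_add, Sym.card_coe] at h
  exact h

theorem Fp_eval (a : Ix σ d → Ω) (x : σ → Ω) (i : Fin r) :
    eval x (Fp a i) = form (fun J => a ⟨i, J⟩) x := by
  rw [Fp, form, map_sum]
  refine Finset.sum_congr rfl fun J _ => ?_
  rw [smul_eval, Pool.Agent.Helper6.QS.ev_mon_eq]

theorem Ev_nu (a : Ix σ d → Ω) (x : σ → Ω) (i : Fin r) (l : σ) :
    nu a x i l = ∑ I : Sym σ (d i), a ⟨i, I⟩ * eval x (pderiv l (mo Ω (I : Multiset σ))) := by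
  rw [nu, Fp, map_sum, map_sum]
  refine Finset.sum_congr rfl fun J _ => ?_
  rw [Derivation.map_smul, smul_eval]

theorem nu_x (x : σ → Ω) (hF : ∀ i, form (fun J => a ⟨i, J⟩) x = 0) (i : Fin r) :
    dt (nu a x i) x = 0 := by
  have h1 : dt (nu a x i) x = (d i : Ω) * form (fun J => a ⟨i, J⟩) x := by
    rw [dt, form, Finset.mul_sum]
    simp only [Ev_nu, Finset.sum_mul]
    rw [Finset.sum_comm]
    refine Finset.sum_congr rfl fun I _ => ?_
    simp only [mul_assoc]
    rw [← Finset.mul_sum, Pool.Agent.Helper6.QS.ev_euler, Sym.card_coe,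
      Pool.Agent.Helper6.QS.ev_mon_eq]
    ring
  rw [h1, hF, mul_zero]

theorem Ev_nu_D (hD : ∀ s t : Ix σ d, D t (a s) = if s = t then 1 else 0) (x : σ → Ω)
    (hF : ∀ i, form (fun J => a ⟨i, J⟩) x = 0) (i : Fin r) (s : Ix σ d) :
    dt (nu a x i) (fun l => D s (x l)) =
      - ∑ I : Sym σ (d i), if (⟨i, I⟩ : Ix σ d) = s then mon x I else 0 := by
  have h3 : D s (form (fun J => a ⟨i, J⟩) x) = 0 := by rw [hF, map_zero]
  rw [form, map_sum] at h3
  have h4 : ∀ I : Sym σ (d i), D s (a ⟨i, I⟩ * mon x I) =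
      (if (⟨i, I⟩ : Ix σ d) = s then mon x I else 0) +
        ∑ l, a ⟨i, I⟩ * eval x (pderiv l (mo Ω (I : Multiset σ))) * D s (x l) := by
    intro I
    rw [Derivation.leibniz, smul_eq_mul, smul_eq_mul, hD, Pool.Agent.Helper6.QS.ev_mon_eq,
      Pool.Agent.Helper6.QS.ev_der_mo, Finset.mul_sum, add_comm]
    simp only [mul_assoc]
    congr 1
    split_ifs
    · rw [mul_one]
    · rw [mul_zero]
  simp only [h4] at h3
  rw [Finset.sum_add_distrib] at h3
  have h5 : dt (nu a x i) (fun l => D s (x l)) =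
      ∑ I : Sym σ (d i), ∑ l, a ⟨i, I⟩ * eval x (pderiv l (mo Ω (I : Multiset σ))) * D s (x l) := by
    rw [Finset.sum_comm, dt]
    simp only [Ev_nu, Finset.sum_mul]
  rw [h5]
  exact eq_neg_of_add_eq_zero_right h3

theorem nu_dvC (hD : ∀ s t : Ix σ d, D t (a s) = if s = t then 1 else 0) (x : σ → Ω)
    (hF : ∀ i, form (fun J => a ⟨i, J⟩) x = 0) (g : Fin r → MvPolynomial σ Ω) (i : Fin r) :
    dt (nu a x i) (dvC D x g) = - ev (d i) x (g i) := by
  have hlin : ∀ (n v w : σ → Ω), dt n (v + w) = dt n v + dt n w := by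
    intro n v w
    simp only [dt, Pi.add_apply, mul_add, Finset.sum_add_distrib]
  have hsum : ∀ (n : σ → Ω) {κ : Type} (s : Finset κ) (v : κ → σ → Ω),
      dt n (∑ k ∈ s, v k) = ∑ k ∈ s, dt n (v k) := by
    intro n κ s v
    simp only [dt, Finset.sum_apply, Finset.mul_sum]
    rw [Finset.sum_comm]
  have h1 : ∀ j : Fin r, dt (nu a x i) (dv (fun J : Sym σ (d j) => D ⟨j, J⟩) x (g j)) =
      ∑ J : Sym σ (d j), coeff (Multiset.toFinsupp (J : Multiset σ)) (g j) *
        dt (nu a x i) (fun l => D ⟨j, J⟩ (x l)) := by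
    intro j
    rw [dv, Pool.Agent.Helper49.LN.cP_apply, dt]
    simp only [Finset.sum_apply, Pi.smul_apply, smul_eq_mul, Finset.mul_sum]
    rw [Finset.sum_comm]
    refine Finset.sum_congr rfl fun J _ => ?_
    rw [dt, Finset.mul_sum]
    refine Finset.sum_congr rfl fun l _ => ?_
    ring
  rw [dvC_apply, hsum, Finset.sum_eq_single i]
  · rw [h1, ev, Pool.Agent.Helper49.LN.cP_apply, ← Finset.sum_neg_distrib]
    refine Finset.sum_congr rfl fun J _ => ?_
    rw [Ev_nu_D hD x hF, Finset.sum_eq_single J]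
    · rw [if_pos rfl, smul_eq_mul, mul_neg]
    · intro I _ hI
      rw [if_neg]
      intro h
      exact hI (by simpa using h)
    · intro h
      exact absurd (Finset.mem_univ J) h
  · intro j _ hj
    rw [h1]
    refine Finset.sum_eq_zero fun J _ => ?_
    rw [Ev_nu_D hD x hF, Finset.sum_eq_zero, neg_zero, mul_zero]
    intro I _
    rw [if_neg]
    intro h
    exact hj (congrArg Sigma.fst h).symm
  · intro h
    exact absurd (Finset.mem_univ i) h

theorem dvC_scale (x : σ → Ω) (m : σ) (hm : x m ≠ 0) (g : Fin r → MvPolynomial σ Ω) :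
    ∃ c : Ω, dvC D x g = x m • dvC D (fun l => x l / x m) g + c • x := by
  have h := fun i : Fin r => Pool.Agent.Helper6.QS.dv_scale
    (fun J : Sym σ (d i) => D ⟨i, J⟩) x m hm (g i)
  choose c hc using h
  refine ⟨∑ i, c i, ?_⟩
  rw [dvC_apply, dvC_apply, Finset.smul_sum, Finset.sum_smul, ← Finset.sum_add_distrib]
  exact Finset.sum_congr rfl fun i _ => hc i

theorem dvC_bdd (x' : σ → Ω) (O : ValuationSubring Ω) (Δ : Ω) (hΔ : Bdd D Δ O)
    (hx : ∀ l, x' l ∈ O) (g : Fin r → MvPolynomial σ Ω) (k : ℕ)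
    (hg : ∀ i m, Δ ^ k * coeff m (g i) ∈ O) (l : σ) : Δ ^ (k + 1) * dvC D x' g l ∈ O := by
  rw [dvC_apply, Finset.sum_apply, Finset.mul_sum]
  refine sum_mem fun i _ => ?_
  exact Pool.Agent.Helper6.QS.dv_bdd (fun J : Sym σ (d i) => D ⟨i, J⟩) x' O Δ
    ⟨hΔ.1, fun J => hΔ.2 ⟨i, J⟩⟩ hx (g i) k (hg i) l

end

end Pool.Agent.Helper10.CI
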