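import Pool.Agent.Helper10.CI.EngC
import Pool.Agent.Helper74.LN.EngN

/-!
# CI-FINKEY: finiteness in terms of polynomials

Generalisation of `Helper6/QS/FinKey.lean` to several forms. `i₀ = 0`: `reduce`
(`Helper8/LG/Reduce.lean`, `c = 0`, so `T` = everything) gives `k` and `D`; `fin_zero`;
`form (cf q F) x = eval x F`. General `i₀`: permute the variables (`rename (Equiv.swap 0 i₀)`).
-/

set_option autoImplicit false

namespace Pool.Agent.Helper10.CI

open scoped BigOperators
open MvPolynomial
open Pool.Agent.Helper8.LG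
open Pool.Agent.Helper49.LN (cP mo hf pl)

universe u v

/-- the case `i₀ = 0` -/
theorem finKey_zero {N r : ℕ} {d : Fin r → ℕ} (hK : KeyC.{u} N d) {k₀ : Type v} {L : Type u}
    [Field k₀] [Field L] [CharZero L] [Algebra k₀ L] (hfg : (⊤ : IntermediateField k₀ L).FG)
    (F : Fin r → MvPolynomial (Fin (N + 1)) L) (hF : ∀ i, (F i).IsHomogeneous (d i))
    (hcoef : ((∑ i, (N + d i).choose N : ℕ) : Cardinal) ≤
      Algebra.trdeg k₀ (IntermediateField.adjoin k₀ {z | ∃ i J, z = coeff J (F i)})) :
    {x : Fin (N + 1) → L | x 0 = 1 ∧ ∀ i, eval x (F i) = 0}.Finite := by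
  classical
  have hc : (Fintype.card (Ix (Fin (N + 1)) d) : Cardinal) ≤ Algebra.trdeg k₀
      (IntermediateField.adjoin k₀ (Set.range fun p : Ix (Fin (N + 1)) d =>
        cf (d p.1) (F p.1) p.2)) + (0 : ℕ) := by
    have h1 := Pool.Agent.Helper8.LV.adjoin_poly k₀ d F hF
    rw [card_Ix, ← h1, Nat.cast_zero, add_zero]
    exact hcoef
  obtain ⟨T, k, hT, hind, hfin, D, θ, hD, hDk⟩ := reduce hfg d
    (fun i => cf (d i) (F i)) 0 hc
  have hall : ∀ p : Ix (Fin (N + 1)) d, p ∈ T := by
    intro p
    by_contra hp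
    have h1 : Fintype.card {p : Ix (Fin (N + 1)) d // p ∉ T} = 0 := by omega
    rw [Fintype.card_eq_zero_iff] at h1
    exact h1.false ⟨p, hp⟩
  have hempty : IsEmpty {p : Ix (Fin (N + 1)) d // p ∉ T} :=
    ⟨fun p => p.2 (hall p.1)⟩
  set a : Ix (Fin (N + 1)) d → L := fun p => cf (d p.1) (F p.1) p.2 with ha
  have hinj : Function.Injective
      (fun p : Ix (Fin (N + 1)) d => (⟨p, hall p⟩ : T)) := by
    intro p p' h
    exact congrArg (fun p : T => p.1) h
  have hind' : AlgebraicIndependent k a :=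
    hind.comp (fun p : Ix (Fin (N + 1)) d => (⟨p, hall p⟩ : T)) hinj
  have hrange : (Set.range fun p : T => cf (d p.1.1) (F p.1.1) p.1.2) = Set.range a := by
    ext z
    constructor
    · rintro ⟨p, rfl⟩
      exact ⟨p.1, rfl⟩
    · rintro ⟨p, rfl⟩
      exact ⟨⟨p, hall p⟩, rfl⟩
  rw [hrange] at hfin
  have hD' : ∀ I J : Ix (Fin (N + 1)) d, D J (a I) = if I = J then 1 else 0 := by
    intro I J
    have h1 := hD J I
    rw [Fintype.sum_empty, sub_zero] at h1
    rw [ha]
    change D J (cf (d I.1) (F I.1) I.2) = _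
    rw [h1]
    exact if_congr eq_comm rfl rfl
  have h := fin_zero hK a hind' hfin D hD' (fun J c => hDk J c)
  refine h.subset ?_
  rintro x ⟨h1, h2⟩
  refine ⟨h1, fun i => ?_⟩
  have h3 : (fun J => a ⟨i, J⟩) = cf (d i) (F i) := rfl
  rw [h3, form_cf (F i) (hF i), h2]

/-- the coefficients of polynomials after a permutation of the variables -/
theorem finKey_coeff {N r : ℕ} {L : Type u} [Field L] (e : Fin (N + 1) → Fin (N + 1))
    (he : Function.Injective e) (F : Fin r → MvPolynomial (Fin (N + 1)) L) :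
    ({z | ∃ i J, z = coeff J (F i)} : Set L) ⊆ {z | ∃ i J, z = coeff J (rename e (F i))} := by
  rintro z ⟨i, J, rfl⟩
  exact ⟨i, J.mapDomain e, (coeff_rename_mapDomain e he (F i) J).symm⟩

/-- **Finiteness from the key statement.** -/
theorem fin_key {N r : ℕ} {d : Fin r → ℕ} (hK : KeyC.{u} N d) {k₀ : Type v} {L : Type u}
    [Field k₀] [Field L] [CharZero L] [Algebra k₀ L] (hfg : (⊤ : IntermediateField k₀ L).FG)
    (F : Fin r → MvPolynomial (Fin (N + 1)) L) (hF : ∀ i, (F i).IsHomogeneous (d i))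
    (hcoef : ((∑ i, (N + d i).choose N : ℕ) : Cardinal) ≤
      Algebra.trdeg k₀ (IntermediateField.adjoin k₀ {z | ∃ i J, z = coeff J (F i)}))
    (i₀ : Fin (N + 1)) :
    {x : Fin (N + 1) → L | x i₀ = 1 ∧ ∀ i, eval x (F i) = 0}.Finite := by
  classical
  set e : Fin (N + 1) → Fin (N + 1) := fun i => Equiv.swap 0 i₀ i with he
  have hinj : Function.Injective e := (Equiv.swap 0 i₀).injective
  have hee : e ∘ e = id := by
    funext i
    exact Equiv.swap_apply_self 0 i₀ i
  have hset : ({z | ∃ i J, z = coeff J (F i)} : Set L) =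
      {z | ∃ i J, z = coeff J (rename e (F i))} := by
    refine Set.Subset.antisymm (finKey_coeff e hinj F) ?_
    have h1 := finKey_coeff e hinj (fun i => rename e (F i))
    have h2 : (fun i => rename e (rename e (F i))) = F := by
      funext i
      rw [rename_rename, hee, rename_id_apply]
    have h3 : ({z | ∃ i J, z = coeff J (rename e (rename e (F i)))} : Set L) =
        {z | ∃ i J, z = coeff J (F i)} := by
      ext z
      constructor
      · rintro ⟨i, J, h⟩
        exact ⟨i, J, by rw [h, rename_rename, hee, rename_id_apply]⟩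
      · rintro ⟨i, J, h⟩
        exact ⟨i, J, by rw [h, rename_rename, hee, rename_id_apply]⟩
    rw [h3] at h1
    exact h1
  rw [hset] at hcoef
  have hfin := finKey_zero hK hfg (fun i => rename e (F i))
    (fun i => (hF i).rename_isHomogeneous) hcoef
  refine Set.Finite.of_finite_image (f := fun x => x ∘ e) (hfin.subset ?_) ?_
  · rintro _ ⟨x, ⟨h1, h2⟩, rfl⟩
    refine ⟨?_, fun i => ?_⟩
    · change x (e 0) = 1
      have h3 : e 0 = i₀ := Equiv.swap_apply_left 0 i₀
      rw [h3]
      exact h1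
    · rw [eval_rename, Function.comp_assoc, hee, Function.comp_id]
      exact h2 i
  · intro x _ y _ hxy
    have h1 := congrArg (fun z : Fin (N + 1) → L => z ∘ e) hxy
    simp only [Function.comp_assoc, hee, Function.comp_id] at h1
    exact h1

end Pool.Agent.Helper10.CI
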