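import Pool.Agent.Helper10.CI.RZ
import Pool.Agent.Helper10.CI.Sing

/-!
# CI-ONTO: the single vectors span the tangent space

Let `T₀` be the span of `x` and `SS` (contained in `TT`, `sv_TT`). If `T₀ ≠ TT`, take a basis `x, s_1..s_p`
of `T₀` with `s_j ∈ SS` (`p ≤ n - 1`), complete `x, s, tau` (independent: the `tau_i` are independent
modulo `TT`, `nu_tau`) by unit vectors to a basis of `Ω^(N+1)`: `n - p` of them (`n + r = N`). With
`v = (s, unit vectors)`, weights `2` resp. `0`: `2 p + 2 + r ≤ ∑ d_i = 2 N - r`, `hspan` by `span_ss`: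
`aa_neg`.
-/

set_option autoImplicit false

namespace Pool.Agent.Helper10.CI

open scoped BigOperators
open MvPolynomial
open Pool.Agent.Helper8.LG (Bdd form mon Ix)
open Pool.Agent.Helper49.LN (cP mo hf pl)
open Pool.Agent.Helper6.QS (dv ev lf dt Par RatP)

section

variable {Ω : Type*} [Field Ω] {N r n : ℕ} {d : Fin r → ℕ}
  {D : Ix (Fin (N + 1)) d → Derivation ℤ Ω Ω} {a : Ix (Fin (N + 1)) d → Ω} {B : Subfield Ω}

/-- `dt (nu a x i)` is additive -/
private theorem Onto_dt_add (y u v : Fin (N + 1) → Ω) : dt y (u + v) = dt y u + dt y v := by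
  simp only [dt, Pi.add_apply, mul_add, Finset.sum_add_distrib]

private theorem Onto_dt_smul (y : Fin (N + 1) → Ω) (c : Ω) (v : Fin (N + 1) → Ω) :
    dt y (c • v) = c * dt y v := by
  simp only [dt, Pi.smul_apply, smul_eq_mul, mul_left_comm _ c, ← Finset.mul_sum]

private theorem Onto_dt_sum (y : Fin (N + 1) → Ω) {κ : Type} (s : Finset κ)
    (v : κ → Fin (N + 1) → Ω) : dt y (∑ k ∈ s, v k) = ∑ k ∈ s, dt y (v k) := by
  simp only [dt, Finset.sum_apply, Finset.mul_sum]
  rw [Finset.sum_comm]

/-- a maximal family of independent single vectors modulo `x` -/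
private theorem Onto_max (T : Submodule Ω (Fin (N + 1) → Ω)) (S : Set (Fin (N + 1) → Ω))
    (x : Fin (N + 1) → Ω) (hx : x ≠ 0) (hT : Submodule.span Ω (insert x S) = T) :
    ∃ (p : ℕ) (s : Fin p → Fin (N + 1) → Ω), (∀ j, s j ∈ S) ∧
      LinearIndependent Ω (Fin.cons x s : Fin (p + 1) → Fin (N + 1) → Ω) ∧
      T ≤ Submodule.span Ω (insert x (Set.range s)) ∧ p + 1 ≤ Module.finrank Ω T := by
  classical
  let P : ℕ → Prop := fun p => ∃ s : Fin p → Fin (N + 1) → Ω, (∀ j, s j ∈ S) ∧
      LinearIndependent Ω (Fin.cons x s : Fin (p + 1) → Fin (N + 1) → Ω)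
  have hP0 : P 0 := by
    refine ⟨Fin.elim0, fun j => j.elim0, ?_⟩
    rw [linearIndependent_finCons]
    refine ⟨linearIndependent_empty_type, ?_⟩
    simpa using hx
  have hbound : ∀ p, P p → p + 1 ≤ Module.finrank Ω T := by
    rintro p ⟨s, hs, hli⟩
    have h1 := finrank_span_eq_card hli
    rw [Fintype.card_fin] at h1
    rw [← h1]
    refine Submodule.finrank_mono ?_
    rw [Fin.range_cons, ← hT]
    refine Submodule.span_mono (Set.insert_subset_insert ?_)
    rintro _ ⟨j, rfl⟩
    exact hs j
  have hex : ∃ p, ¬ P p := ⟨Module.finrank Ω T, fun h => by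
    have := hbound _ h
    omega⟩
  have hfind := Nat.find_spec hex
  have hmin : ∀ m, m < Nat.find hex → P m := fun m hm => by
    by_contra h
    exact Nat.find_min hex hm h
  obtain ⟨p, hp⟩ : ∃ p, Nat.find hex = p + 1 := by
    rcases Nat.eq_zero_or_pos (Nat.find hex) with h | h
    · rw [h] at hfind
      exact absurd hP0 hfind
    · exact ⟨Nat.find hex - 1, by omega⟩
  rw [hp] at hfind
  obtain ⟨s, hs, hli⟩ := hmin p (by omega)
  refine ⟨p, s, hs, hli, ?_, hbound p ⟨s, hs, hli⟩⟩
  rw [← hT, Submodule.span_le]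
  intro y hy
  rcases hy with rfl | hy
  · exact Submodule.subset_span (Set.mem_insert _ _)
  · by_contra hcon
    apply hfind
    refine ⟨Fin.snoc s y, fun j => ?_, ?_⟩
    · refine Fin.lastCases ?_ (fun j => ?_) j
      · rw [Fin.snoc_last]
        exact hy
      · rw [Fin.snoc_castSucc]
        exact hs j
    · rw [Fin.cons_snoc_eq_snoc_cons]
      refine linearIndependent_finSnoc.2 ⟨hli, ?_⟩
      rw [Fin.range_cons]
      exact hcon

/-- independent tangent vectors together with the `tau_i` are independent -/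
private theorem Onto_all (hD : ∀ s t : Ix (Fin (N + 1)) d, D t (a s) = if s = t then 1 else 0)
    (x : Fin (N + 1) → Ω) (hx : x 0 = 1)
    (hF : ∀ i, form (fun J => a ⟨i, J⟩) x = 0) {p : ℕ}
    (v : Fin p → Fin (N + 1) → Ω) (hv : ∀ j, v j ∈ TT a x)
    (h : LinearIndependent Ω (Fin.cons x v : Fin (p + 1) → Fin (N + 1) → Ω)) :
    LinearIndependent Ω (rows x v (tau D x)) := by
  rw [Fintype.linearIndependent_iff] at h ⊢
  intro c hc
  rw [Fintype.sum_sum_type, Fintype.sum_sum_type] at hc
  have hc' : (∑ i : Unit, c (Sum.inl i) • x) + ((∑ j : Fin p, c (Sum.inr (Sum.inl j)) • v j) +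
      ∑ i : Fin r, c (Sum.inr (Sum.inr i)) • tau D x i) = 0 := hc
  have h0 : ∀ i, c (Sum.inr (Sum.inr i)) = 0 := by
    intro i
    have h2 := congrArg (fun y => dt (nu a x i) y) hc'
    have h3 : dt (nu a x i) x = 0 := nu_x x hF i
    have h4 : ∀ j, dt (nu a x i) (v j) = 0 := fun j => hv j i
    have h5 : ∀ j, dt (nu a x i) (tau D x j) = if i = j then -1 else 0 :=
      fun j => nu_tau hD x hx hF i j
    have h6 : dt (nu a x i) (0 : Fin (N + 1) → Ω) = 0 := by simp [dt]
    simp only [Onto_dt_add, Onto_dt_sum, Onto_dt_smul, h3, h4, h5, h6, mul_zero,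
      Finset.sum_const_zero, zero_add, mul_ite, mul_neg, mul_one] at h2
    rw [Finset.sum_ite_eq] at h2
    simpa using h2
  have h6 := h (Fin.cons (c (Sum.inl ())) (fun j => c (Sum.inr (Sum.inl j)))) (by
    rw [Fin.sum_univ_succ]
    simp only [Fin.cons_zero, Fin.cons_succ]
    simp only [h0, zero_smul, Finset.sum_const_zero, add_zero, Finset.univ_unique,
      Finset.sum_singleton] at hc'
    exact hc')
  intro k
  rcases k with u | j | i
  · exact h6 0
  · exact h6 j.succ
  · exact h0 i

/-- one more row -/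
private theorem Onto_snoc {m : ℕ} (x : Fin (N + 1) → Ω) (v : Fin m → Fin (N + 1) → Ω)
    (τ : Fin r → Fin (N + 1) → Ω) (y : Fin (N + 1) → Ω) (h : LinearIndependent Ω (rows x v τ))
    (hy : y ∉ Submodule.span Ω (Set.range (rows x v τ))) :
    LinearIndependent Ω (rows x (Fin.snoc v y : Fin (m + 1) → Fin (N + 1) → Ω) τ) := by
  have h1 : LinearIndependent Ω
      (fun o => Option.casesOn' o y (rows x v τ) : Option (Kx m r) → Fin (N + 1) → Ω) :=
    linearIndependent_option'.2 ⟨h, hy⟩
  let φ : Kx (m + 1) r → Option (Kx m r) := Sum.elim (fun u => some (Sum.inl u))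
    (Sum.elim (Fin.snoc (fun j => some (Sum.inr (Sum.inl j))) none)
      (fun i => some (Sum.inr (Sum.inr i))))
  have hφ : Function.Injective φ := by
    rintro (u | j | i) (u' | j' | i') hh
    · rfl
    · exfalso
      revert hh
      refine Fin.lastCases ?_ (fun j => ?_) j' <;> simp [φ]
    · simp [φ] at hh
    · exfalso
      revert hh
      refine Fin.lastCases ?_ (fun j => ?_) j <;> simp [φ]
    · revert hh
      refine Fin.lastCases ?_ (fun j => ?_) j
      · refine Fin.lastCases ?_ (fun j' => ?_) j' <;> simp [φ]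
      · refine Fin.lastCases ?_ (fun j' => ?_) j' <;> simp [φ]
    · exfalso
      revert hh
      refine Fin.lastCases ?_ (fun j => ?_) j <;> simp [φ]
    · simp [φ] at hh
    · exfalso
      revert hh
      refine Fin.lastCases ?_ (fun j => ?_) j' <;> simp [φ]
    · simp only [φ, Sum.elim_inr, Option.some.injEq, Sum.inr.injEq] at hh
      rw [hh]
  have h2 := h1.comp φ hφ
  convert h2 using 1
  funext k
  rcases k with u | j | i
  · rfl
  · refine Fin.lastCases ?_ (fun j => ?_) j
    · simp [φ, rows]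
    · simp [φ, rows]
  · rfl

/-- some unit vector lies outside a small span -/
private theorem Onto_unit {ι : Type} [Fintype ι] (w : ι → Fin (N + 1) → Ω)
    (h : Fintype.card ι < N + 1) :
    ∃ l : Fin (N + 1), (Pi.single l 1 : Fin (N + 1) → Ω) ∉ Submodule.span Ω (Set.range w) := by
  by_contra hcon
  push Not at hcon
  have h1 : Submodule.span Ω (Set.range w) = ⊤ := by
    rw [eq_top_iff]
    intro y _
    rw [pi_eq_sum_univ' y]
    refine Submodule.sum_mem _ fun l _ => Submodule.smul_mem _ _ ?_
    have := hcon l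
    convert this using 1
  have h2 := finrank_range_le_card (R := Ω) w
  unfold Set.finrank at h2
  rw [h1, finrank_top, Module.finrank_fin_fun] at h2
  omega

theorem onto (hB : Frame D a B) (hn : n + r = N) (hd : ∀ i, 1 ≤ d i)
    (hnum : ∑ i, (d i + 1) = 2 * N) (x : Fin (N + 1) → Ω) (hx : x 0 = 1)
    (hF : ∀ i, form (fun J => a ⟨i, J⟩) x = 0) :
    (∀ l, x l ∈ B) ∨ TT a x ≤ Submodule.span Ω (insert x (SS D B x)) := by
  classical
  by_cases hle : TT a x ≤ Submodule.span Ω (insert x (SS D B x))
  · exact Or.inr hle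
  left
  have hD := hB.dual
  have hx0 : x ≠ 0 := by
    intro h
    rw [h] at hx
    exact zero_ne_one hx
  have hSST : ∀ y ∈ SS D B x, y ∈ TT a x := by
    rintro _ ⟨l, P, -, rfl⟩
    exact sv_TT hD x hx hF hd P l
  have hT0 : Submodule.span Ω (insert x (SS D B x)) ≤ TT a x := by
    rw [Submodule.span_le]
    intro y hy
    rcases hy with rfl | hy
    · exact fun i => nu_x _ hF i
    · exact hSST y hy
  have hlt : Submodule.span Ω (insert x (SS D B x)) < TT a x := lt_of_le_not_ge hT0 hle
  have hfin := Submodule.finrank_lt_finrank_of_lt hlt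
  rw [finrank_TT hD hn x hx hF] at hfin
  obtain ⟨p, s, hs, hli, hspan, hp⟩ := Onto_max _ (SS D B x) x hx0 rfl
  have hpn : p + 1 ≤ n := by omega
  have hrow : LinearIndependent Ω (rows x s (tau D x)) :=
    Onto_all hD x hx hF s (fun j => hSST _ (hs j)) hli
  -- completion by unit vectors
  have key : ∀ q : ℕ, p + q ≤ n → ∃ u : Fin q → Fin (N + 1) → Ω,
      (∀ j, ∃ l, u j = Pi.single l 1) ∧
        LinearIndependent Ω (rows x (Fin.append s u) (tau D x)) := by
    intro q
    induction q with
    | zero =>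
      intro _
      refine ⟨Fin.elim0, fun j => j.elim0, ?_⟩
      have h1 : (Fin.append s (Fin.elim0 : Fin 0 → Fin (N + 1) → Ω)) = s := by
        rw [Fin.append_elim0]
        rfl
      rw [h1]
      exact hrow
    | succ q ih =>
      intro hq
      obtain ⟨u, hu, hlu⟩ := ih (by omega)
      obtain ⟨l, hl⟩ := Onto_unit (rows x (Fin.append s u) (tau D x)) (by
        rw [Fintype.card_sum, Fintype.card_sum, Fintype.card_fin, Fintype.card_fin,
          Fintype.card_unit]
        omega)
      refine ⟨Fin.snoc u (Pi.single l 1), ?_, ?_⟩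
      · intro j
        refine Fin.lastCases ?_ (fun j => ?_) j
        · exact ⟨l, by rw [Fin.snoc_last]⟩
        · rw [Fin.snoc_castSucc]
          exact hu j
      · have h1 := Onto_snoc x (Fin.append s u) (tau D x) _ hlu hl
        rw [Fin.append_snoc]
        exact h1
  obtain ⟨q, hq⟩ : ∃ q, p + q = n := ⟨n - p, by omega⟩
  obtain ⟨u, hu, hlu⟩ := key q hq.le
  subst hq
  have hcard : Fintype.card (Kx (p + q) r) = Fintype.card (Fin (N + 1)) := by
    rw [Fintype.card_sum, Fintype.card_sum, Fintype.card_fin, Fintype.card_fin,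
      Fintype.card_unit, Fintype.card_fin]
    omega
  let e : Kx (p + q) r ≃ Fin (N + 1) := Fintype.equivOfCardEq hcard
  refine aa_neg hB x hx e (Fin.append s u) (Fin.append (fun _ => 2) (fun _ => 0)) ?_ ?_ ?_ ?_
  · intro j
    refine Fin.addCases (fun j => ?_) (fun j => ?_) j
    · rw [Fin.append_left, Fin.append_left]
      exact ss_wt x hx _ (hs j)
    · rw [Fin.append_right, Fin.append_right]
      obtain ⟨l, hl⟩ := hu j
      rw [hl]
      exact wt_unit x l
  · intro g hg
    have h1 := span_ss (D := D) (B := B) x hx hd g hg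
    have h2 : Submodule.span Ω (SS D B x) ≤ Submodule.span Ω (insert x (SS D B x)) :=
      Submodule.span_mono (Set.subset_insert _ _)
    have h3 : Submodule.span Ω (insert x (Set.range s)) ≤
        Submodule.span Ω (insert x (Set.range (Fin.append s u))) := by
      refine Submodule.span_mono (Set.insert_subset_insert ?_)
      rintro _ ⟨j, rfl⟩
      exact ⟨Fin.castAdd q j, Fin.append_left _ _ _⟩
    exact h3 (hspan (h2 h1))
  · have h1 : ∑ i, (d i + 1) = ∑ i, d i + r := by
      rw [Finset.sum_add_distrib]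
      simp
    have h2 : ∑ j : Fin (p + q), (Fin.append (fun _ => 2) (fun _ => 0) : Fin (p + q) → ℕ) j
        = 2 * p := by
      rw [Fin.sum_univ_add]
      simp [Fin.append_left, Fin.append_right, mul_comm]
    rw [h2]
    omega
  · unfold AA
    rw [dtm_ne]
    exact hlu

end

end Pool.Agent.Helper10.CI
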