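import Pool.Agent.Helper10.CI.Pl
import Pool.Agent.Helper10.CI.Onto

/-!
# CI-W1: rational tangent vectors of weight 1 are multiples of `x`; two-dimensional blocks, `n ≥ 3`

`w1`: otherwise `x, v` are independent; `tan_ext` (`p = 1`, `q = n - 1 ≥ 1`) completes them by single
vectors; `pl_one` with the weights `1, 2, …, 2`: `1 + 2 (n - 2) + 3 + r = 2 n + r = ∑ d_i`.
`rk2`: `tan_ext` (`p = 2`, `q = n - 2 ≥ 1`) and `pl_blk`: `2 (n - 3) + 6 + r = ∑ d_i`.
-/

set_option autoImplicit false

namespace Pool.Agent.Helper10.CI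

open scoped BigOperators
open MvPolynomial
open Pool.Agent.Helper8.LG (Bdd form mon Ix)
open Pool.Agent.Helper49.LN (cP mo hf pl)
open Pool.Agent.Helper6.QS (dv ev lf dt Par RatP)

section

variable {Ω : Type*} [Field Ω] [CharZero Ω] {N r n : ℕ} {d : Fin r → ℕ}
  {D : Ix (Fin (N + 1)) d → Derivation ℤ Ω Ω} {a : Ix (Fin (N + 1)) d → Ω} {B : Subfield Ω}

theorem W1_li (x v : Fin (N + 1) → Ω) (hx : x 0 = 1) (h : pr x v ≠ 0) :
    LinearIndependent Ω (Fin.cons x (fun _ => v) : Fin (1 + 1) → Fin (N + 1) → Ω) := by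
  rw [Fintype.linearIndependent_iff]
  intro c hc
  rw [Fin.sum_univ_two] at hc
  have hc' : c 0 • x + c 1 • v = 0 := hc
  have h1 : c 1 = 0 := by
    by_contra h1
    apply h
    funext l
    have h2 := congrFun hc' 0
    have h3 := congrFun hc' l
    simp only [Pi.add_apply, Pi.smul_apply, smul_eq_mul, Pi.zero_apply, hx, mul_one] at h2 h3
    show v l - v 0 * x l = 0
    have h4 : c 1 * (v l - v 0 * x l) = 0 := by linear_combination h3 - x l * h2
    rcases mul_eq_zero.1 h4 with h5 | h5
    · exact absurd h5 h1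
    · exact h5
  have h0 : c 0 = 0 := by
    have h2 := congrFun hc' 0
    simp only [Pi.add_apply, Pi.smul_apply, smul_eq_mul, Pi.zero_apply, hx, mul_one, h1, zero_mul,
      add_zero] at h2
    exact h2
  intro i
  fin_cases i
  · exact h0
  · exact h1

theorem W1_dsum (hnum : ∑ i, (d i + 1) = 2 * N) : ∑ i, d i + r = 2 * N := by
  rw [← hnum, Finset.sum_add_distrib]
  simp

theorem w1 (hB : Frame D a B) (hn : n + r = N) (hn2 : 2 ≤ n) (hd : ∀ i, 1 ≤ d i)
    (hnum : ∑ i, (d i + 1) = 2 * N) (x : Fin (N + 1) → Ω) (hx : x 0 = 1)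
    (hF : ∀ i, form (fun J => a ⟨i, J⟩) x = 0)
    (ho : TT a x ≤ Submodule.span Ω (insert x (SS D B x)))
    (v : Fin (N + 1) → Ω) (hv : v ∈ TT a x) (hw : Wt D B x 1 v) :
    pr x v = 0 ∨ ∀ l, x l ∈ B := by
  by_cases h : pr x v = 0
  · exact Or.inl h
  right
  obtain ⟨m, rfl⟩ : ∃ m, n = m + 2 := ⟨n - 2, by omega⟩
  have hST : SS D B x ⊆ TT a x := by
    rintro _ ⟨l, P, -, rfl⟩
    exact sv_TT hB.dual x hx hF hd P l
  obtain ⟨s, hs, hli⟩ := tan_ext (p := 1) (q := m + 1) hB.dual (by omega) x hx hF (SS D B x) hST ho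
    (fun _ => v) (fun _ => hv) (W1_li x v hx h)
  have hsn : s = Fin.snoc (Fin.init s) (s (Fin.last m)) := (Fin.snoc_init_self s).symm
  have hli2 : LinearIndependent Ω (Fin.cons x (Fin.snoc
      (Fin.append (fun _ : Fin 1 => v) (Fin.init s) : Fin (1 + m) → Fin (N + 1) → Ω)
        (s (Fin.last m))) : Fin (1 + m + 1 + 1) → Fin (N + 1) → Ω) := by
    rw [hsn, Fin.append_snoc] at hli
    simpa using hli
  have hd2 := W1_dsum (N := N) hnum
  refine pl_one hB (by omega) hd hnum x hx hF
    (Fin.append (fun _ : Fin 1 => v) (Fin.init s)) (Fin.append (fun _ : Fin 1 => 1) (fun _ => 2))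
    ?_ ?_ ?_ (s (Fin.last m)) (hs _) hli2
  · intro j
    refine Fin.addCases (fun i => ?_) (fun i => ?_) j
    · rw [Fin.append_left]
      exact hv
    · rw [Fin.append_right]
      exact hST (hs _)
  · intro j
    refine Fin.addCases (fun i => ?_) (fun i => ?_) j
    · rw [Fin.append_left, Fin.append_left]
      exact hw
    · rw [Fin.append_right, Fin.append_right]
      exact ss_wt x hx _ (hs _)
  · rw [Fin.sum_univ_add]
    simp only [Fin.append_left, Fin.append_right, Finset.sum_const, Finset.card_univ,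
      Fintype.card_fin, smul_eq_mul]
    omega

theorem W1_two (x u v : Fin (N + 1) → Ω) {m : ℕ} (s : Fin m → Fin (N + 1) → Ω)
    (hli : LinearIndependent Ω (Fin.cons x (Fin.append ![u, v] s) :
      Fin (2 + m + 1) → Fin (N + 1) → Ω)) :
    LinearIndependent Ω (Fin.cons x (two u v s) : Fin (m + 2 + 1) → Fin (N + 1) → Ω) := by
  have h : (Fin.cons x (two u v s) : Fin (m + 2 + 1) → Fin (N + 1) → Ω) =
      (Fin.cons x (Fin.append ![u, v] s) : Fin (2 + m + 1) → Fin (N + 1) → Ω) ∘
        Fin.cast (by omega) := by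
    funext i
    cases i using Fin.cases with
    | zero => rfl
    | succ i =>
      have h1 : Fin.cast (by omega : m + 2 + 1 = 2 + m + 1) i.succ =
          (Fin.cast (by omega : m + 2 = 2 + m) i).succ := rfl
      rw [Function.comp_apply, h1, Fin.cons_succ, Fin.cons_succ]
      cases i using Fin.cases with
      | zero =>
        have h2 : Fin.cast (by omega : m + 2 = 2 + m) (0 : Fin (m + 2)) =
            Fin.castAdd m (0 : Fin 2) := rfl
        rw [h2, Fin.append_left]
        rfl
      | succ i =>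
        cases i using Fin.cases with
        | zero =>
          have h2 : Fin.cast (by omega : m + 2 = 2 + m) (Fin.succ (0 : Fin (m + 1))) =
              Fin.castAdd m (1 : Fin 2) := rfl
          rw [h2, Fin.append_left]
          rfl
        | succ i =>
          have h2 : Fin.cast (by omega : m + 2 = 2 + m) i.succ.succ = Fin.natAdd 2 i := by
            apply Fin.ext
            simp only [Fin.val_cast, Fin.val_succ, Fin.val_natAdd]
            omega
          rw [h2, Fin.append_right]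
          rfl
  rw [h]
  exact hli.comp _ (Fin.cast_injective _)

theorem rk2 (hB : Frame D a B) (hn : n + r = N) (hn3 : 3 ≤ n) (hd : ∀ i, 1 ≤ d i)
    (hnum : ∑ i, (d i + 1) = 2 * N) (x : Fin (N + 1) → Ω) (hx : x 0 = 1)
    (hF : ∀ i, form (fun J => a ⟨i, J⟩) x = 0)
    (ho : TT a x ≤ Submodule.span Ω (insert x (SS D B x)))
    (P : Fin r → MvPolynomial (Fin (N + 1)) Ω) (hP : RatT B P) (k l : Fin (N + 1))
    (hli : LinearIndependent Ω ![x, Sv D x P k, Sv D x P l]) : ∀ l, x l ∈ B := by
  obtain ⟨m, rfl⟩ : ∃ m, n = m + 3 := ⟨n - 3, by omega⟩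
  have hST : SS D B x ⊆ TT a x := by
    rintro _ ⟨l, P, -, rfl⟩
    exact sv_TT hB.dual x hx hF hd P l
  obtain ⟨s, hs, hl⟩ := tan_ext (p := 2) (q := m + 1) hB.dual (by omega) x hx hF (SS D B x) hST ho
    ![Sv D x P k, Sv D x P l] (fun j => by
      fin_cases j
      · exact sv_TT hB.dual x hx hF hd P k
      · exact sv_TT hB.dual x hx hF hd P l) hli
  have hl2 := W1_two x (Sv D x P k) (Sv D x P l) s hl
  have hsn : s = Fin.snoc (Fin.init s) (s (Fin.last m)) := (Fin.snoc_init_self s).symm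
  rw [hsn] at hl2
  have hd2 := W1_dsum (N := N) hnum
  refine pl_blk hB (by omega) hd hnum x hx hF P hP k l (Fin.init s) (fun _ => 2)
    (fun j => hST (hs _)) (fun j => ss_wt x hx _ (hs _)) ?_ (s (Fin.last m)) (hs _) (by simpa using hl2)
  simp only [Finset.sum_const, Finset.card_univ, Fintype.card_fin, smul_eq_mul]
  omega

end

end Pool.Agent.Helper10.CI
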