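import Pool.Agent.Helper10.CI.LineCase
import Pool.Agent.Helper10.CI.W1
import Pool.Agent.Helper64.CI.Case5

/-!
# CI-KEYASM: the key statement for generic complete intersections with `sum (d_i + 1) = 2 N`
-/

set_option autoImplicit false

namespace Pool.Agent.Helper10.CI

open scoped BigOperators
open MvPolynomial
open Pool.Agent.Helper8.LG (Bdd form mon Ix)
open Pool.Agent.Helper49.LN (cP mo hf pl)
open Pool.Agent.Helper6.QS (dv ev lf dt Par RatP)

universe u

theorem exists_kx {n r N : ℕ} (hn : n + r = N) : Nonempty (Kx n r ≃ Fin (N + 1)) := by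
  refine ⟨Fintype.equivFinOfCardEq ?_⟩
  rw [Fintype.card_sum, Fintype.card_sum, Fintype.card_unit, Fintype.card_fin, Fintype.card_fin]
  omega

theorem two_cons {N : ℕ} {Ω : Type*} (x u v : Fin (N + 1) → Ω) (rest : Fin 0 → Fin (N + 1) → Ω) :
    (Fin.cons x (two u v rest) : Fin (0 + 2 + 1) → Fin (N + 1) → Ω) = ![x, u, v] := by
  funext j
  fin_cases j <;> rfl

/-- surfaces: a rational tuple of rank two -/
theorem surf {Ω : Type*} [Field Ω] [CharZero Ω] {N r : ℕ} {d : Fin r → ℕ}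
    {D : Ix (Fin (N + 1)) d → Derivation ℤ Ω Ω} {a : Ix (Fin (N + 1)) d → Ω} {B : Subfield Ω}
    (hB : Frame D a B) (hn : 0 + 2 + r = N) (hr : 2 ≤ r) (hd : ∀ i, 2 ≤ d i)
    (hnum : ∑ i, (d i + 1) = 2 * N) (x : Fin (N + 1) → Ω) (hx : x 0 = 1)
    (hF : ∀ i, form (fun J => a ⟨i, J⟩) x = 0)
    (P : Fin r → MvPolynomial (Fin (N + 1)) Ω) (hP : RatT B P) (k l : Fin (N + 1))
    (hli : LinearIndependent Ω ![x, Sv D x P k, Sv D x P l]) : ∀ l, x l ∈ B := by
  obtain ⟨e⟩ := exists_kx (n := 0 + 2) (r := r) (N := N) hn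
  have hd1 : ∀ i, 1 ≤ d i := fun i => by have := hd i; omega
  have hsum : ∑ i, d i = 4 + r := by
    rw [Finset.sum_add_distrib, Finset.sum_const, Finset.card_univ, Fintype.card_fin,
      smul_eq_mul, mul_one] at hnum
    omega
  have hsv : ∀ k, Sv D x P k ∈ TT a x := fun k => sv_TT hB.dual x hx hF hd1 P k
  set A : Fin (N + 1) → Fin (N + 1) → Ω := fun j k =>
    AA e D x (two (Sv D x P j) (Sv D x P k) (Fin.elim0 : Fin 0 → Fin (N + 1) → Ω)) with hA
  obtain ⟨AL, hAL, -⟩ := exists_alt e x (tau D x)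
  have hAL' : ∀ j k, A j k = AL (two (Sv D x P j) (Sv D x P k) Fin.elim0) := fun j k =>
    (hAL _).symm
  have hself : ∀ j, A j j = 0 := by
    intro j
    rw [hAL']
    exact AL.map_eq_zero_of_eq _ (i := 0) (j := 1) rfl (by decide)
  have hanti : ∀ j k, A j k = - A k j := by
    intro j k
    rw [hAL', hAL']
    have h1 := AL.map_swap (two (Sv D x P k) (Sv D x P j) Fin.elim0) (i := 0) (j := 1) (by decide)
    rw [← h1]
    congr 1
    funext i
    fin_cases i <;> rfl
  have hgam : ∀ j k l, x j * A k l - x k * A j l + x l * A j k ∈ B := fun j k l =>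
    gam_mem hB (by omega) hd1 x hx hF e P hP Fin.elim0 (fun _ => 0) (fun j => j.elim0)
      (fun j => j.elim0) (by rw [hsum]; simp [add_comm]) j k l
  have hS0 : ∀ k, A 0 k = 0 := by
    intro k
    rw [hAL']
    refine AL.map_coord_zero 0 ?_
    exact sv_zero x hx P
  have hne : A k l ≠ 0 := by
    refine (tan_ne hB.dual (by omega) x hx hF e _ ?_).2 ?_
    · intro j
      fin_cases j
      · exact hsv k
      · exact hsv l
    · rw [two_cons]
      exact hli
  obtain ⟨p, hp⟩ := Pool.Agent.Helper64.CI.plane_of B x hx A hanti hself hgam k l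
    (by rw [hS0, hS0, hx]; simpa using hne)
  exact Pool.Agent.Helper64.CI.plane_case ⟨hB.dual, hB.mem, rat_alg hB, rat_der hB⟩ hx hF
    (by omega) hr hd hnum hp

/-- **The key statement.** -/
theorem keyC (N : ℕ) {r n : ℕ} (d : Fin r → ℕ) (hn : n + r = N) (hn2 : 2 ≤ n)
    (hd : ∀ i, 2 ≤ d i) (hnum : ∑ i, (d i + 1) = 2 * N) (h : 2 ≤ r ∨ 3 ≤ n) :
    KeyC.{u} N d := by
  intro Ω _ _ D a B hB x hx hF
  have hd1 : ∀ i, 1 ≤ d i := fun i => by have := hd i; omega
  rcases onto hB hn hd1 hnum x hx hF with h0 | ho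
  · exact h0
  by_contra hcon
  have hw1 : ∀ v ∈ TT a x, Wt D B x 1 v → pr x v = 0 := fun v hv hw =>
    (w1 hB hn hn2 hd1 hnum x hx hF ho v hv hw).resolve_right hcon
  have hrk : ∀ P : Fin r → MvPolynomial (Fin (N + 1)) Ω, RatT B P → ∀ k l,
      ¬ LinearIndependent Ω ![x, Sv D x P k, Sv D x P l] := by
    intro P hP k l hli
    apply hcon
    by_cases h3 : 3 ≤ n
    · exact rk2 hB hn h3 hd1 hnum x hx hF ho P hP k l hli
    · exact surf hB (by omega) (by omega) hd hnum x hx hF P hP k l hli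
  exact hcon (line_case hB hn hn2 hd1 hnum x hx hF hw1 ho hrk)

end Pool.Agent.Helper10.CI
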