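import Pool.Agent.Helper8.LV.EngG
import Pool.Agent.Helper8.LV.SDefs

/-!
# CI-TRD: the coefficients of `F_i = A_i + sum_j p_ij H_ij` with constants `p_ij`, not all zero,
are algebraically independent if those of all the `H_ij` are
-/

set_option autoImplicit false

namespace Pool.Agent.Helper10.CI

open scoped BigOperators
open MvPolynomial
open Pool.Agent.Helper8.LG hiding coeffField
open Pool.Agent.Helper8.LV

theorem trd_tower {k₀ L : Type*} [Field k₀] [Field L] [Algebra k₀ L] (K : IntermediateField k₀ L)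
    (K' : IntermediateField K L) :
    Algebra.trdeg k₀ K + Algebra.trdeg K K' = Algebra.trdeg k₀ K' := by
  have h1 : FaithfulSMul K K' :=
    (faithfulSMul_iff_algebraMap_injective K K').2 (algebraMap K K').injective
  exact trdeg_add_eq k₀ K (A := K')

/-- finitely many more generators -/
theorem trd_union (k₀ : Type*) {L : Type*} [Field k₀] [Field L] [Algebra k₀ L] (S : Set L)
    {κ : Type*} [Fintype κ] (o : κ → L) :
    Algebra.trdeg k₀ (IntermediateField.adjoin k₀ (S ∪ Set.range o)) ≤
      Algebra.trdeg k₀ (IntermediateField.adjoin k₀ S) + (Fintype.card κ : ℕ) := by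
  classical
  have h1 := IntermediateField.adjoin_adjoin_left k₀ S (Set.range o)
  rw [← h1]
  have h2 : Algebra.trdeg k₀ ((IntermediateField.adjoin (IntermediateField.adjoin k₀ S)
      (Set.range o)).restrictScalars k₀) = Algebra.trdeg k₀ (IntermediateField.adjoin
        (IntermediateField.adjoin k₀ S) (Set.range o)) := rfl
  rw [h2, ← trd_tower (IntermediateField.adjoin k₀ S)]
  refine add_le_add le_rfl ?_
  obtain ⟨T, -, hT⟩ := red_subfamily (k := IntermediateField.adjoin k₀ S) o
  rw [← hT]
  exact_mod_cast Finset.card_le_univ T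

theorem trd_forms {k₀ : Type*} {L : Type*} [Field k₀] [Field L] [Algebra k₀ L] {N r n : ℕ}
    (d : Fin r → ℕ) (H : Fin r → Fin n → MvPolynomial (Fin (N + 1)) L)
    (hH : ∀ i j, (H i j).IsHomogeneous (d i))
    (hcoef : ((∑ i, ∑ _j : Fin n, (N + d i).choose N : ℕ) : Cardinal) ≤
      Algebra.trdeg k₀ (coeffField k₀ H))
    (F : Fin r → MvPolynomial (Fin (N + 1)) L) (A : Fin r → MvPolynomial (Fin (N + 1)) k₀)
    (p : Fin r → Fin n → k₀)
    (hF : ∀ i, F i = map (algebraMap k₀ L) (A i) + ∑ j, C (algebraMap k₀ L (p i j)) * H i j)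
    (hp : ∀ i, ∃ j, p i j ≠ 0) :
    ((∑ i, (N + d i).choose N : ℕ) : Cardinal) ≤
      Algebra.trdeg k₀ (IntermediateField.adjoin k₀ {z | ∃ i J, z = coeff J (F i)}) := by
  classical
  choose j₀ hj₀ using hp
  set S : Set L := {z | ∃ i J, z = coeff J (F i)} with hS
  let κ : Type := Σ i : Fin r, {j : Fin n // j ≠ j₀ i} × Sym (Fin (N + 1)) (d i)
  let o : κ → L := fun s => cf (d s.1) (H s.1 s.2.1.1) s.2.2
  have hle : coeffField k₀ H ≤ IntermediateField.adjoin k₀ (S ∪ Set.range o) := by
    have hoth : ∀ i j J, j ≠ j₀ i → coeff J (H i j) ∈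
        IntermediateField.adjoin k₀ (S ∪ Set.range o) := by
      intro i j J hj
      by_cases hJ : J.degree = d i
      · obtain ⟨J', hJ'⟩ := poly_exists_sym J hJ
        refine IntermediateField.subset_adjoin _ _ (Or.inr ⟨⟨i, ⟨j, hj⟩, J'⟩, ?_⟩)
        change coeff _ (H i j) = _
        rw [hJ']
      · have h1 : coeff J (H i j) = 0 := (hH i j).coeff_eq_zero (by
          exact hJ)
        rw [h1]
        exact zero_mem _
    rw [coeffField, IntermediateField.adjoin_le_iff]
    rintro _ ⟨i, j, J, rfl⟩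
    by_cases hj : j = j₀ i
    · subst hj
      have hp1 : algebraMap k₀ L (p i (j₀ i)) ≠ 0 := by
        rw [Ne, map_eq_zero]
        exact hj₀ i
      have h1 : coeff J (F i) = algebraMap k₀ L (coeff J (A i)) +
          (algebraMap k₀ L (p i (j₀ i)) * coeff J (H i (j₀ i)) +
            ∑ j ∈ Finset.univ.erase (j₀ i), algebraMap k₀ L (p i j) * coeff J (H i j)) := by
        rw [hF i, coeff_add, coeff_map, coeff_sum]
        simp only [coeff_C_mul]
        rw [← Finset.add_sum_erase _ _ (Finset.mem_univ (j₀ i))]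
      have h2 : coeff J (H i (j₀ i)) = (coeff J (F i) - algebraMap k₀ L (coeff J (A i)) -
          ∑ j ∈ Finset.univ.erase (j₀ i), algebraMap k₀ L (p i j) * coeff J (H i j)) /
            algebraMap k₀ L (p i (j₀ i)) := by
        rw [eq_div_iff hp1, h1]
        ring
      rw [SetLike.mem_coe, h2]
      refine div_mem (sub_mem (sub_mem ?_ ?_) (sum_mem fun j hj => mul_mem ?_ ?_)) ?_
      · exact IntermediateField.subset_adjoin _ _ (Or.inl ⟨i, J, rfl⟩)
      · exact IntermediateField.algebraMap_mem _ _
      · exact IntermediateField.algebraMap_mem _ _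
      · exact hoth i j J (Finset.ne_of_mem_erase hj)
      · exact IntermediateField.algebraMap_mem _ _
    · exact hoth i j J hj
  have h1 : Algebra.trdeg k₀ (coeffField k₀ H) ≤
      Algebra.trdeg k₀ (IntermediateField.adjoin k₀ S) + (Fintype.card κ : ℕ) :=
    (trdeg_le_of_injective (IntermediateField.inclusion hle)
      (IntermediateField.inclusion_injective _)).trans (trd_union k₀ S o)
  have hκ : Fintype.card κ = ∑ i, (n - 1) * (N + d i).choose N := by
    rw [Fintype.card_sigma]
    refine Finset.sum_congr rfl fun i _ => ?_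
    rw [Fintype.card_prod, Fintype.card_subtype_compl, Fintype.card_fin, Sym.card_sym_eq_choose,
      Fintype.card_fin]
    have h2 : N + 1 + d i - 1 = N + d i := by omega
    rw [h2, Nat.choose_symm_add]
    simp
  rcases lt_or_ge (Algebra.trdeg k₀ (IntermediateField.adjoin k₀ S)) Cardinal.aleph0 with h2 | h2
  · obtain ⟨t, ht⟩ := Cardinal.lt_aleph0.1 h2
    rw [ht] at h1 ⊢
    have h3 := hcoef.trans h1
    rw [hκ] at h3
    have h4 : ∑ i, ∑ _j : Fin n, (N + d i).choose N ≤ t + ∑ i, (n - 1) * (N + d i).choose N := by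
      exact_mod_cast h3
    have h5 : ∑ i, ∑ _j : Fin n, (N + d i).choose N =
        ∑ i, (N + d i).choose N + ∑ i, (n - 1) * (N + d i).choose N := by
      rw [← Finset.sum_add_distrib]
      refine Finset.sum_congr rfl fun i _ => ?_
      rw [Finset.sum_const, Finset.card_univ, Fintype.card_fin, smul_eq_mul]
      obtain ⟨m, hm⟩ : ∃ m, n = m + 1 := ⟨n - 1, by have := (j₀ i).2; omega⟩
      rw [hm, Nat.add_sub_cancel]
      ring
    have h6 : ∑ i, (N + d i).choose N ≤ t := by omega
    exact_mod_cast h6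
  · exact Cardinal.natCast_lt_aleph0.le.trans h2

end Pool.Agent.Helper10.CI
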