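import Pool.Agent.Helper10.CI.FinKey
import Pool.Agent.Helper10.CI.Trd
import Pool.Agent.Helper91.CO.Main
import Pool.Agent.Helper10.CT.EngA

/-!
# CI-MAIN: generic complete intersections, over schemes, from `KeyC N d`

`main_t` of `Helper10/CT/Main.lean` with the fourth condition: `F_i = A_i + sum_j c_ij H_ij`, `c_ij`
constants, all coefficients of all the `H_ij` independent.
-/

set_option autoImplicit false

open AlgebraicGeometry CategoryTheory CategoryTheory.Limits MvPolynomial

namespace Pool.Agent.Helper10.CI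

open scoped BigOperators LinearAlgebra.Projectivization
open Pool.Agent.Helper8.LG hiding coeffField
open Pool.Agent.Helper8.LV
open Pool.Agent.Helper10.LB
open Pool.Agent.Helper91.CO

universe u v

/-- weighted homogeneous polynomials of weight `d` in the variables `X` and variables `Y_j` of
weight `d` -/
theorem wh_split {k : Type*} [Field k] {N n d : ℕ} (hd : 0 < d)
    (F₀ : MvPolynomial (Fin (N + 1) ⊕ Fin n) k)
    (hF₀ : IsWeightedHomogeneous (wts N fun _ => d) F₀ d) :
    ∃ (A : MvPolynomial (Fin (N + 1)) k) (c : Fin n → k),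
      F₀ = rename Sum.inl A + ∑ j, rename Sum.inl (C (c j)) * X (Sum.inr j) := by
  classical
  obtain ⟨c, hc⟩ : ∃ c : Fin n → k, ∀ j, c j = coeff (Finsupp.single (Sum.inr j) 1) F₀ :=
    ⟨_, fun j => rfl⟩
  have h1 : ∀ m ∈ F₀.support, (∀ j, m (Sum.inr j) = 0) ∨
      ∃ j, Finsupp.single (Sum.inr j) 1 = m := by
    intro m hm
    have h2 := hF₀ (mem_support_iff.1 hm)
    rw [Finsupp.weight_apply, Finsupp.sum_fintype _ _ (fun i => by simp),
      Fintype.sum_sum_type] at h2
    simp only [wts, Sum.elim_inl, Sum.elim_inr, smul_eq_mul, mul_one] at h2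
    rw [← Finset.sum_mul] at h2
    rcases Nat.eq_zero_or_pos (∑ j, m (Sum.inr j)) with h | h
    · left
      intro j
      rw [Finset.sum_eq_zero_iff] at h
      exact h j (Finset.mem_univ j)
    · right
      have h3 : d ≤ (∑ j, m (Sum.inr j)) * d := Nat.le_mul_of_pos_left d h
      have h4 : (∑ j, m (Sum.inr j)) * d = d := by omega
      have h5 : ∑ j, m (Sum.inr j) = 1 := by
        have h6 : (∑ j, m (Sum.inr j)) * d = 1 * d := by rw [h4, one_mul]
        exact Nat.eq_of_mul_eq_mul_right hd h6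
      have h6 : ∑ l, m (Sum.inl l) = 0 := by omega
      rw [Finset.sum_eq_zero_iff] at h6
      obtain ⟨j, -, hj⟩ : ∃ j ∈ Finset.univ, m (Sum.inr j) ≠ 0 := by
        refine Finset.exists_ne_zero_of_sum_ne_zero ?_
        rw [h5]
        exact one_ne_zero
      have h7 : m (Sum.inr j) + ∑ l ∈ Finset.univ.erase j, m (Sum.inr l) = 1 := by
        rw [Finset.add_sum_erase _ (fun l => m (Sum.inr l)) (Finset.mem_univ j)]
        exact h5
      have h8 : ∑ l ∈ Finset.univ.erase j, m (Sum.inr l) = 0 := by omega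
      rw [Finset.sum_eq_zero_iff] at h8
      refine ⟨j, ?_⟩
      ext t
      rcases t with l | l
      · rw [h6 l (Finset.mem_univ l), Finsupp.single_apply, if_neg (by simp)]
      · by_cases hl : l = j
        · rw [hl, Finsupp.single_apply, if_pos rfl]
          omega
        · rw [h8 l (Finset.mem_erase.2 ⟨hl, Finset.mem_univ l⟩), Finsupp.single_apply,
            if_neg (fun h => hl (Sum.inr_injective h).symm)]
  have hG : ∀ m, coeff m (∑ j, C (c j) * X (Sum.inr j) : MvPolynomial (Fin (N + 1) ⊕ Fin n) k) =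
      ∑ j, if Finsupp.single (Sum.inr j) 1 = m then c j else 0 := by
    intro m
    rw [coeff_sum]
    refine Finset.sum_congr rfl fun j _ => ?_
    rw [coeff_C_mul, coeff_X, mul_ite, mul_one, mul_zero]
  have h2 : ((F₀ - ∑ j, C (c j) * X (Sum.inr j)).vars : Set (Fin (N + 1) ⊕ Fin n)) ⊆
      Set.range (Sum.inl : Fin (N + 1) → Fin (N + 1) ⊕ Fin n) := by
    intro t ht
    rcases t with l | j
    · exact ⟨l, rfl⟩
    · exfalso
      rw [Finset.mem_coe, mem_vars_iff_mem_support] at ht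
      obtain ⟨m, hm, hj⟩ := ht
      have h3 : m (Sum.inr j) ≠ 0 := Finsupp.mem_support_iff.1 hj
      rw [mem_support_iff, coeff_sub, hG] at hm
      by_cases h4 : ∃ l : Fin n, Finsupp.single (Sum.inr l) 1 = m
      · obtain ⟨l, hl⟩ := h4
        rw [Finset.sum_eq_single l, if_pos hl, hc, hl, sub_self] at hm
        · exact hm rfl
        · intro l' _ hl'
          refine if_neg fun h => hl' ?_
          rw [← h] at hl
          exact (Sum.inr_injective (Finsupp.single_left_injective one_ne_zero hl)).symm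
        · intro h
          exact absurd (Finset.mem_univ l) h
      · rw [Finset.sum_eq_zero fun l _ => if_neg fun h => h4 ⟨l, h⟩, sub_zero] at hm
        rcases h1 m (mem_support_iff.2 hm) with h5 | h5
        · exact h3 (h5 j)
        · exact h4 h5
  obtain ⟨A, hA⟩ := (exists_rename_eq_of_vars_subset_range (F₀ - ∑ j, C (c j) * X (Sum.inr j))
    (Sum.inl : Fin (N + 1) → Fin (N + 1) ⊕ Fin n) Sum.inl_injective h2)
  refine ⟨A, c, ?_⟩
  rw [hA]
  simp only [rename_C]
  ring

/-- the engine -/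
theorem eng_ci {k₀ : Type u} {L : Type v} [Field k₀] [Field L] [CharZero L] [Algebra k₀ L]
    (hfg : (⊤ : IntermediateField k₀ L).FG) {N r n : ℕ} (d q : Fin r → ℕ)
    (b : Fin r → Fin n → ℕ) (hq : ∀ i, 0 < q i) (hbq : ∀ i j, b i j + q i ≤ d i) (hdq : d = q)
    (F : Fin r → MvPolynomial (Fin (N + 1)) L)
    (F₀ : Fin r → MvPolynomial (Fin (N + 1) ⊕ Fin n) k₀)
    (hF₀ : ∀ i, IsWeightedHomogeneous (wts N fun j => d i - b i j) (F₀ i) (d i))
    (H : Fin r → Fin n → MvPolynomial (Fin (N + 1)) L)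
    (hH : ∀ i j, (H i j).IsHomogeneous (d i - b i j))
    (hFA : ∀ i, F i = aeval (Sum.elim X (H i)) (F₀ i))
    (hcoef : ((∑ i, ∑ j, (N + (d i - b i j)).choose N : ℕ) : Cardinal) ≤
      Algebra.trdeg k₀ (coeffField k₀ H))
    (hK : KeyC.{v} N d) (i₀ : Fin (N + 1)) :
    {x : Fin (N + 1) → L | x i₀ = 1 ∧
      (∀ i, ∃ j, eval x (mder (F₀ i) (H i) j) ≠ 0) ∧ ∀ i, eval x (F i) = 0}.Finite := by
  classical
  subst hdq
  have hb : ∀ i j, b i j = 0 := by
    intro i j
    have := hbq i j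
    omega
  have hd : ∀ i, (F i).IsHomogeneous (d i) := fun i => by
    rw [hFA i]
    exact hom_aeval _ (F₀ i) (hF₀ i) (H i) (hH i)
  simp only [hb, Nat.sub_zero] at hF₀ hH hcoef
  choose A c hAc using fun i => wh_split (hq i) (F₀ i) (hF₀ i)
  by_cases hc : ∀ i, ∃ j, c i j ≠ 0
  swap
  · refine Set.Finite.subset Set.finite_empty ?_
    rintro x ⟨-, h2, -⟩
    push Not at hc
    obtain ⟨i, hi⟩ := hc
    obtain ⟨j, hj⟩ := h2 i
    refine absurd ?_ hj
    rw [hAc i, mder_lin, hi j, C_0, map_zero, map_zero]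
  have h2 := trd_forms d H hH hcoef F A c (fun i => by
    rw [hFA i, hAc i, aeval_lin]
    simp only [map_C]) hc
  refine (fin_key hK hfg F hd h2 i₀).subset ?_
  rintro y ⟨h3, -, h4⟩
  exact ⟨h3, h4⟩

set_option maxHeartbeats 400000 in
/-- Generic complete intersections, over schemes. -/
theorem main_ci (R : CommRingCat.{u}) (B : Scheme.{u}) [IsIntegral B] (s : B ⟶ Spec R)
    [LocallyOfFiniteType s] [CharZero B.functionField]
    (U : Scheme.{u}) (π : U ⟶ B) [IsSeparated π] [LocallyOfFiniteType π] [QuasiCompact π]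
    {N r n : ℕ} (d q m : Fin r → ℕ) (b : Fin r → Fin n → ℕ) (hq : ∀ i, 0 < q i)
    (hb : ∀ i j, b i j + q i ≤ d i)
    (F : Fin r → MvPolynomial (Fin (N + 1)) B.functionField)
    (hF : ∀ i, (F i).IsHomogeneous (d i))
    (f : genFib π ⟶ PN N B.functionField) (hf : f ≫ PN.toSpec N _ = pullback.snd _ _)
    [LocallyQuasiFinite f]
    (Z C : Finset (Fin r)) (hm : ∀ i ∈ C, m i ∣ d i)
    (hU : ∀ i ∉ Z, i ∉ C → ∀ z : genFib π, NonVanishing (f z) (F i))
    (k₀ : Subfield B.functionField)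
    (hk₀ : ∀ r : R, (Spec.preimage (B.fromSpecStalk (genericPoint B) ≫ s)).hom r ∈ k₀)
    (M : Type v) [Field M] [Algebra B.functionField M]
    (hM : (⊤ : IntermediateField B.functionField M).FG) (g : GL (Fin (N + 1)) M)
    (F₀ : Fin r → MvPolynomial (Fin (N + 1) ⊕ Fin n) k₀)
    (hF₀ : ∀ i, IsWeightedHomogeneous (wts N fun j => d i - b i j) (F₀ i) (d i))
    (H : Fin r → Fin n → MvPolynomial (Fin (N + 1)) M)
    (hH : ∀ i j, (H i j).IsHomogeneous (d i - b i j))
    (hFA : ∀ i, subst (g : Matrix _ _ M) (F i) = aeval (Sum.elim X (H i)) (F₀ i))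
    (w c : ℕ)
    (hcoef : ((∑ i, ∑ j, (N + (d i - b i j)).choose N : ℕ) : Cardinal) ≤
      Algebra.trdeg k₀ (coeffField k₀ H) + c)
    (hc : c = 0) (hZ : Z = Finset.univ) (hdq : d = q) (hK : KeyC.{v} N d) :
    {σ : B ⟶ U | ∃ hσ : σ ≫ π = 𝟙 B, ∀ (t : Spec B.functionField)
      (x : Fin (N + 1) → B.functionField), IsCoord (f (genPt π σ hσ t)) x →
      CondC m F g F₀ H Z C w x}.Finite := by
  classical
  have : CharZero M :=
    charZero_of_injective_algebraMap (algebraMap B.functionField M).injective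
  have hd : ∀ i, 0 < d i := by
    intro i
    rw [hdq]
    exact hq i
  have hP : ∀ i j, (mder (F₀ i) (H i) j).IsHomogeneous (b i j) := by
    intro i j
    refine hom_mder (fun j => d i - b i j) (F₀ i) (hF₀ i) (H i) (hH i) j ?_
    have := hb i j
    omega
  rw [hc, Nat.cast_zero, add_zero] at hcoef
  obtain ⟨V, hVne, hV, ⟨A₀, hA₀, hVA⟩, hKfg⟩ := exists_affine_ft R s k₀ hk₀
  have := hVne
  have hfg : (⊤ : IntermediateField k₀ M).FG := wrap_fg_trans hKfg hM
  refine main_engC (κ := k₀) V hV A₀ hA₀ hVA π d m b hd F hF f hf Z C hm hU k₀ M g F₀ H hP w ?_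
  intro i₀ R' hR'
  have h9 := eng_ci (k₀ := k₀) (L := M) hfg d q b hq hb hdq
    (fun i => subst (g : Matrix _ _ M) (F i))
  have h12 := h9 F₀ hF₀ H hH
  have h13 := h12 hFA
  have h14 := h13 hcoef
  have h15 := h14 hK i₀
  refine h15.subset ?_
  rintro y ⟨h4, ⟨h5, h6, h7, -⟩, -⟩
  exact ⟨h4, h6, fun i => h7 i (by rw [hZ]; exact Finset.mem_univ i)⟩

end Pool.Agent.Helper10.CI
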