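import Pool.Agent.Helper10.CI.Rat
import Pool.Agent.Helper49.LV.GenLine

/-!
# CI-LIN: a point of the complete intersection on a rational line is rational

As `Helper6/QS/Line.lean` (`line_gen`, `line_alg`, `line_mem`), with `gen_line` for the family of all
forms: some `i` and some `n` with `F_i (u + n v) ≠ 0`.
-/

set_option autoImplicit false

namespace Pool.Agent.Helper10.CI

open scoped BigOperators
open MvPolynomial
open Pool.Agent.Helper8.LG (Bdd form mon Ix)
open Pool.Agent.Helper49.LN (cP mo hf pl)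
open Pool.Agent.Helper6.QS (dv ev lf dt Par RatP)

section

variable {Ω : Type*} [Field Ω] {N r : ℕ} {d : Fin r → ℕ}
  {D : Ix (Fin (N + 1)) d → Derivation ℤ Ω Ω} {a : Ix (Fin (N + 1)) d → Ω} {B : Subfield Ω}

/-- the hypersurfaces do not all contain the line through `u` and `v` -/
theorem Lin_gen [CharZero Ω] {σ : Type*} [Fintype σ] [DecidableEq σ]
    {D : Ix σ d → Derivation ℤ Ω Ω} {a : Ix σ d → Ω}
    (hd : ∀ I J, D J (a I) = if I = J then 1 else 0)
    (hq : 2 * Fintype.card σ ≤ ∑ i, (d i + 1) + 3)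
    (α β : σ) (hαβ : α ≠ β) (u v : σ → Ω) (huα : u α = 1) (huβ : u β = 0) (hvα : v α = 0)
    (hvβ : v β = 1) :
    ∃ (i : Fin r) (n : ℕ), form (fun J => a ⟨i, J⟩) (fun l => u l + n * v l) ≠ 0 := by
  classical
  refine Pool.Agent.Helper49.LV.gen_line (E := Ω) (σ := σ) (ι := Fin r) (τ := Empty)
    d (fun _ => 0) d (fun i J => a ⟨i, J⟩) (fun _ _ => 0) (fun _ _ => 1) (fun i J => a ⟨i, J⟩)
    D (fun t => t.elim) (fun t => t.elim) ?_ ?_ α β hαβ u v huα huβ hvα hvβ u ?_ ?_ ?_
  · rintro s ⟨i, J⟩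
    rw [hd ⟨i, J⟩ s]
    simp only [Finset.univ_eq_empty, Finset.sum_empty, sub_zero]
    by_cases h : s = ⟨i, J⟩
    · rw [if_pos h, if_pos h.symm]
    · rw [if_neg h, if_neg (fun h' => h h'.symm)]
  · refine ⟨⟨fun i => (zero_add (d i)).symm, ?_⟩, fun _ _ _ => map_zero _, fun _ _ _ =>
      Derivation.map_one_eq_zero _⟩
    rintro i J
    rw [zero_add, Fintype.sum_unique, Finset.sum_eq_single J]
    · rw [if_pos, one_mul]
      change (0 : Multiset σ) + _ = _
      rw [zero_add]
    · intro J'' _ hne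
      rw [if_neg]
      intro h
      apply hne
      have h1 : (0 : Multiset σ) + (J'' : Multiset σ) = (J : Multiset σ) := h
      rw [zero_add] at h1
      exact Subtype.ext h1
    · intro h
      exact absurd (Finset.mem_univ _) h
  · intro l
    rw [huα, huβ, one_mul, zero_mul, add_zero]
  · intro i
    unfold form
    rw [Fintype.sum_unique, one_mul]
    change (Multiset.map u 0).prod ≠ 0
    simp
  · rw [Fintype.card_empty, add_zero]
    exact hq

theorem Lin_alg {σ : Type*} [Fintype σ] [DecidableEq σ]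
    {q : ℕ} {a : Sym σ q → Ω} {B : Subfield Ω} (ha : ∀ J, a J ∈ B) (u v : σ → Ω)
    (hu : ∀ l, u l ∈ B) (hv : ∀ l, v l ∈ B) (n : ℕ) (hn : form a (fun l => u l + n * v l) ≠ 0)
    (z : Ω) (hz : form a (fun l => u l + z * v l) = 0) : IsAlgebraic B z := by
  classical
  let aB : Sym σ q → B := fun J => ⟨a J, ha J⟩
  let uB : σ → B := fun l => ⟨u l, hu l⟩
  let vB : σ → B := fun l => ⟨v l, hv l⟩
  have key : ∀ w : Ω, Polynomial.aeval w (Pool.Agent.Helper49.LG.lineP aB uB vB) =
      form a fun l => u l + w * v l := by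
    intro w
    have h := Pool.Agent.Helper49.LG.form_map (Polynomial.aeval (R := B) w).toRingHom
      (fun J => Polynomial.C (aB J))
      (fun l => Polynomial.C (uB l) + Polynomial.X * Polynomial.C (vB l))
    simp only [AlgHom.toRingHom_eq_coe, RingHom.coe_coe, map_add, map_mul, Polynomial.aeval_C,
      Polynomial.aeval_X] at h
    exact h
  refine ⟨Pool.Agent.Helper49.LG.lineP aB uB vB, ?_, ?_⟩
  · intro h0
    apply hn
    rw [← key, h0, map_zero]
  · rw [key, hz]

theorem lin_mem [CharZero Ω] (hB : Frame D a B) (hq : 2 * N ≤ ∑ i, (d i + 1))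
    (x : Fin (N + 1) → Ω) (hx : x 0 = 1) (hF : ∀ i, form (fun J => a ⟨i, J⟩) x = 0)
    (y : Fin (N + 1) → Ω) (hy : ∃ j l, pl x y j l ≠ 0) (hyB : ∀ j l, pl x y j l ∈ B) :
    ∀ l, x l ∈ B := by
  obtain ⟨β, hβ⟩ : ∃ β, pl x y 0 β ≠ 0 := by
    by_contra hcon
    push Not at hcon
    obtain ⟨j, l, hjl⟩ := hy
    apply hjl
    have h1 : ∀ l, y l = x l * y 0 := fun l => by
      have h2 := hcon l
      unfold pl at h2
      rw [hx, one_mul] at h2
      exact sub_eq_zero.1 h2
    unfold pl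
    rw [h1 j, h1 l]
    ring
  have hne : (0 : Fin (N + 1)) ≠ β := by
    rintro rfl
    apply hβ
    unfold pl
    ring
  set u : Fin (N + 1) → Ω := fun l => pl x y l β / pl x y 0 β with hu
  set v : Fin (N + 1) → Ω := fun l => pl x y 0 l / pl x y 0 β with hv
  have hxuv : ∀ l, x l = u l + x β * v l := by
    intro l
    rw [hu, hv]
    simp only
    field_simp
    unfold pl
    rw [hx]
    ring
  have hu1 : u 0 = 1 := div_self hβ
  have hu0 : u β = 0 := by
    change pl x y β β / _ = 0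
    unfold pl
    simp
  have hv0 : v 0 = 0 := by
    change pl x y 0 0 / _ = 0
    unfold pl
    simp
  have hv1 : v β = 1 := div_self hβ
  have huB : ∀ l, u l ∈ B := fun l => div_mem (hyB l β) (hyB 0 β)
  have hvB : ∀ l, v l ∈ B := fun l => div_mem (hyB 0 l) (hyB 0 β)
  obtain ⟨i, n, hn⟩ := Lin_gen hB.dual (by
    rw [Fintype.card_fin]
    omega) 0 β hne u v hu1 hu0 hv0 hv1
  have hxβ : x β ∈ B := by
    refine rat_alg hB (x β) (Lin_alg (fun J => hB.mem ⟨i, J⟩) u v huB hvB n hn (x β) ?_)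
    have h1 : (fun l => u l + x β * v l) = x := funext fun l => (hxuv l).symm
    rw [h1]
    exact hF i
  intro l
  rw [hxuv l]
  exact add_mem (huB l) (mul_mem hxβ (hvB l))

end

end Pool.Agent.Helper10.CI
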