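import Pool.Agent.Helper10.CI.Sing

/-!
# CI-POL: polarisation

The `2 × 2` minors of `(pr x (Sv D x P k), pr x (Sv D x P l))` are quadratic forms in `P`; they vanish at
all rational `P`, in particular at the monomial tuples and at the sums of two of them, so their
polarisations vanish at all pairs of monomial tuples, and they vanish at all `P` (a tuple is a finite
`Ω`-combination of monomial tuples `sg i (monomial m 1)`). Independence of `x, S, S'` is the same as
independence of `pr x S, pr x S'` (`x_0 = 1`).
-/

set_option autoImplicit false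

namespace Pool.Agent.Helper10.CI

open scoped BigOperators
open MvPolynomial
open Pool.Agent.Helper8.LG (Bdd form mon Ix)
open Pool.Agent.Helper49.LN (cP mo hf pl)
open Pool.Agent.Helper6.QS (dv ev lf dt Par RatP)

section

variable {Ω : Type*} [Field Ω] {N r : ℕ} {d : Fin r → ℕ}
  {D : Ix (Fin (N + 1)) d → Derivation ℤ Ω Ω} {B : Subfield Ω}

/-- dependence and the minors -/
private theorem Pol_minor {ι : Type*} (U V : ι → Ω) :
    ¬ LinearIndependent Ω ![U, V] ↔ ∀ i j, U i * V j - U j * V i = 0 := by
  constructor
  · intro h i j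
    by_cases hU : U = 0
    · rw [hU]
      simp
    · rw [LinearIndependent.pair_iff' hU] at h
      push Not at h
      obtain ⟨a, ha⟩ := h
      rw [← ha]
      simp only [Pi.smul_apply, smul_eq_mul]
      ring
  · intro h hli
    have hU : U ≠ 0 := fun h0 => by
      rw [h0] at hli
      exact hli.ne_zero (0 : Fin 2) rfl
    rw [LinearIndependent.pair_iff' hU] at hli
    obtain ⟨i, hi⟩ := Function.ne_iff.1 hU
    rw [Pi.zero_apply] at hi
    apply hli (V i / U i)
    funext j
    rw [Pi.smul_apply, smul_eq_mul]
    have h1 := h i j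
    field_simp
    linear_combination -h1

theorem pr_li (x : Fin (N + 1) → Ω) (hx : x 0 = 1) (u v : Fin (N + 1) → Ω) :
    LinearIndependent Ω ![x, u, v] ↔ LinearIndependent Ω ![pr x u, pr x v] := by
  rw [LinearIndependent.pair_iff, Fintype.linearIndependent_iff]
  constructor
  · intro h s t hst
    have h1 := h ![-(s * u 0 + t * v 0), s, t] (by
      rw [Fin.sum_univ_three]
      funext l
      have h2 := congrFun hst l
      simp only [pr, Pi.add_apply, Pi.smul_apply, smul_eq_mul, Pi.zero_apply] at h2
      simp only [Matrix.cons_val_zero, Matrix.cons_val_one, Matrix.cons_val, Pi.add_apply,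
        Pi.smul_apply, smul_eq_mul, Pi.zero_apply]
      linear_combination h2)
    exact ⟨by simpa using h1 1, by simpa using h1 2⟩
  · intro h g hg
    rw [Fin.sum_univ_three] at hg
    simp only [Matrix.cons_val_zero, Matrix.cons_val_one, Matrix.cons_val] at hg
    have h0 := congrFun hg 0
    simp only [Pi.add_apply, Pi.smul_apply, smul_eq_mul, Pi.zero_apply, hx] at h0
    have h1 := h (g 1) (g 2) (by
      funext l
      have h2 := congrFun hg l
      simp only [Pi.add_apply, Pi.smul_apply, smul_eq_mul, Pi.zero_apply] at h2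
      simp only [pr, Pi.add_apply, Pi.smul_apply, smul_eq_mul, Pi.zero_apply]
      linear_combination h2 - x l * h0)
    rw [h1.1, h1.2] at h0
    intro i
    fin_cases i
    · simpa using h0
    · exact h1.1
    · exact h1.2

/-- `P ↦ pr x (Sv D x P l)` as a linear map -/
private noncomputable def Pol_u (D : Ix (Fin (N + 1)) d → Derivation ℤ Ω Ω)
    (x : Fin (N + 1) → Ω) (l : Fin (N + 1)) :
    (Fin r → MvPolynomial (Fin (N + 1)) Ω) →ₗ[Ω] (Fin (N + 1) → Ω) where
  toFun P := pr x (Sv D x P l)
  map_add' P Q := by
    have h1 : (fun i => rl x l * (P + Q) i) = (fun i => rl x l * P i) + fun i => rl x l * Q i := by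
      funext i
      simp only [Pi.add_apply, mul_add]
    have h2 : Sv D x (P + Q) l = Sv D x P l + Sv D x Q l := by
      unfold Sv
      rw [h1, map_add]
    funext m
    simp only [pr, h2, Pi.add_apply]
    ring
  map_smul' c P := by
    have h1 : (fun i => rl x l * (c • P) i) = c • fun i => rl x l * P i := by
      funext i
      simp only [Pi.smul_apply, mul_smul_comm]
    have h2 : Sv D x (c • P) l = c • Sv D x P l := by
      unfold Sv
      rw [h1, map_smul]
    funext m
    simp only [pr, h2, Pi.smul_apply, smul_eq_mul, RingHom.id_apply]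
    ring

private theorem Pol_u_apply (x : Fin (N + 1) → Ω) (l : Fin (N + 1))
    (P : Fin r → MvPolynomial (Fin (N + 1)) Ω) : Pol_u D x l P = pr x (Sv D x P l) := rfl

/-- the rational tuples span -/
private theorem Pol_span (B : Subfield Ω) (P : Fin r → MvPolynomial (Fin (N + 1)) Ω) :
    P ∈ Submodule.span Ω {Q : Fin r → MvPolynomial (Fin (N + 1)) Ω | RatT B Q} := by
  classical
  have h1 : P = ∑ i, sg i (P i) := by
    unfold sg
    exact (Finset.univ_sum_single P).symm
  rw [h1]
  refine Submodule.sum_mem _ fun i _ => ?_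
  have h2 : sg i (P i) = ∑ m ∈ (P i).support, coeff m (P i) • sg i (monomial m 1) := by
    conv_lhs => rw [(P i).as_sum]
    unfold sg
    funext k
    rw [Finset.sum_apply]
    by_cases hk : k = i
    · subst hk
      rw [Pi.single_eq_same]
      refine Finset.sum_congr rfl fun m _ => ?_
      rw [Pi.smul_apply, Pi.single_eq_same, smul_monomial, smul_eq_mul, mul_one]
    · rw [Pi.single_eq_of_ne hk]
      symm
      refine Finset.sum_eq_zero fun m _ => ?_
      rw [Pi.smul_apply, Pi.single_eq_of_ne hk, smul_zero]
  rw [h2]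
  refine Submodule.sum_mem _ fun m _ => Submodule.smul_mem _ _ (Submodule.subset_span ?_)
  intro k m'
  unfold sg
  by_cases hk : k = i
  · subst hk
    rw [Pi.single_eq_same, coeff_monomial]
    split_ifs
    · exact B.one_mem
    · exact B.zero_mem
  · rw [Pi.single_eq_of_ne hk, coeff_zero]
    exact B.zero_mem

theorem pol (x : Fin (N + 1) → Ω) (hx : x 0 = 1)
    (h : ∀ P : Fin r → MvPolynomial (Fin (N + 1)) Ω, RatT B P → ∀ k l,
      ¬ LinearIndependent Ω ![x, Sv D x P k, Sv D x P l])
    (P : Fin r → MvPolynomial (Fin (N + 1)) Ω) (k l : Fin (N + 1)) :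
    ¬ LinearIndependent Ω ![pr x (Sv D x P k), pr x (Sv D x P l)] := by
  have hr : ∀ P : Fin r → MvPolynomial (Fin (N + 1)) Ω, RatT B P → ∀ i j,
      Pol_u D x k P i * Pol_u D x l P j - Pol_u D x k P j * Pol_u D x l P i = 0 := by
    intro P hP
    have h1 := h P hP k l
    rw [pr_li x hx] at h1
    exact (Pol_minor _ _).1 h1
  rw [Pol_minor]
  intro i j
  -- the polarisation
  set S : (Fin r → MvPolynomial (Fin (N + 1)) Ω) → (Fin r → MvPolynomial (Fin (N + 1)) Ω) → Ω :=
    fun P Q => (Pol_u D x k P i * Pol_u D x l Q j - Pol_u D x k P j * Pol_u D x l Q i) +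
      (Pol_u D x k Q i * Pol_u D x l P j - Pol_u D x k Q j * Pol_u D x l P i) with hS
  have hSr : ∀ P Q : Fin r → MvPolynomial (Fin (N + 1)) Ω, RatT B P → RatT B Q → S P Q = 0 := by
    intro P Q hP hQ
    have h1 := hr P hP i j
    have h2 := hr Q hQ i j
    have h3 := hr (P + Q) (fun e m => by
      rw [Pi.add_apply, coeff_add]
      exact B.add_mem (hP e m) (hQ e m)) i j
    rw [map_add, map_add] at h3
    simp only [Pi.add_apply] at h3
    rw [hS]
    linear_combination h3 - h1 - h2
  have hSP : ∀ P : Fin r → MvPolynomial (Fin (N + 1)) Ω, RatT B P → ∀ Q, S P Q = 0 := by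
    intro P hP Q
    induction Pol_span B Q using Submodule.span_induction with
    | mem Q hQ => exact hSr P Q hP hQ
    | zero => simp [hS]
    | add Q Q' _ _ h1 h2 =>
      simp only [hS, map_add, Pi.add_apply] at h1 h2 ⊢
      linear_combination h1 + h2
    | smul c Q _ h1 =>
      simp only [hS, map_smul, Pi.smul_apply, smul_eq_mul] at h1 ⊢
      linear_combination c * h1
  have hall : ∀ P : Fin r → MvPolynomial (Fin (N + 1)) Ω,
      (Pol_u D x k P i * Pol_u D x l P j - Pol_u D x k P j * Pol_u D x l P i = 0) ∧
        ∀ Q, S P Q = 0 := by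
    intro P
    induction Pol_span B P using Submodule.span_induction with
    | mem P hP => exact ⟨hr P hP i j, hSP P hP⟩
    | zero => exact ⟨by simp, fun Q => by simp [hS]⟩
    | add P P' _ _ h1 h2 =>
      refine ⟨?_, fun Q => ?_⟩
      · have h3 := h1.2 P'
        have h4 := h1.1
        have h5 := h2.1
        simp only [hS] at h3
        simp only [map_add, Pi.add_apply]
        linear_combination h3 + h4 + h5
      · have h3 := h1.2 Q
        have h4 := h2.2 Q
        simp only [hS, map_add, Pi.add_apply] at h3 h4 ⊢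
        linear_combination h3 + h4
    | smul c P _ h1 =>
      refine ⟨?_, fun Q => ?_⟩
      · have h4 := h1.1
        simp only [map_smul, Pi.smul_apply, smul_eq_mul]
        linear_combination c ^ 2 * h4
      · have h3 := h1.2 Q
        simp only [hS, map_smul, Pi.smul_apply, smul_eq_mul] at h3 ⊢
        linear_combination c * h3
  exact (hall P).1

end

end Pool.Agent.Helper10.CI
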