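import Pool.Agent.Helper10.CI.RankOne
import Pool.Agent.Helper10.CI.Pol

/-!
# CI-LINEDATA: all blocks have rank one: there is a line through `x`

`pol` and `rank_one` for `u l P = pr x (Sv D x P l)`; the hypothesis `h2` of `rank_one`: the `Sv D x P l`
and `x` span `TT` (`ho`), of dimension `n + 1 ≥ 3` (`finrank_TT`), so two of the `pr x (Sv D x P l)`
are independent. `y 0 = 0` since `Sv D x P 0 = 0` and `t ≠ 0`. `tdim`: the range of `t` contains
`pr x TT`, of dimension `n`.
-/

set_option autoImplicit false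

namespace Pool.Agent.Helper10.CI

open scoped BigOperators
open MvPolynomial
open Pool.Agent.Helper8.LG (Bdd form mon Ix)
open Pool.Agent.Helper49.LN (cP mo hf pl)
open Pool.Agent.Helper6.QS (dv ev lf dt Par RatP)

section

variable {Ω : Type*} [Field Ω] {N r n : ℕ} {d : Fin r → ℕ}
  {D : Ix (Fin (N + 1)) d → Derivation ℤ Ω Ω} {a : Ix (Fin (N + 1)) d → Ω} {B : Subfield Ω}

/-- `pr x` as a linear map -/
private noncomputable def LineData_pr (x : Fin (N + 1) → Ω) :
    (Fin (N + 1) → Ω) →ₗ[Ω] (Fin (N + 1) → Ω) where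
  toFun v := pr x v
  map_add' u v := by
    funext l
    simp only [pr, Pi.add_apply]
    ring
  map_smul' c v := by
    funext l
    simp only [pr, Pi.smul_apply, smul_eq_mul, RingHom.id_apply]
    ring

private theorem LineData_pr_x (x : Fin (N + 1) → Ω) (hx : x 0 = 1) : pr x x = 0 := by
  funext l
  simp [pr, hx]

private theorem LineData_pr_eq (x u v : Fin (N + 1) → Ω) (hu : pr x u = 0) (hv : pr x v = 0)
    (h0 : u 0 = v 0) : u = v := by
  funext l
  have h1 := congrFun hu l
  have h2 := congrFun hv l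
  simp only [pr, Pi.zero_apply] at h1 h2
  rw [sub_eq_zero.1 h1, sub_eq_zero.1 h2, h0]

/-- `P ↦ pr x (Sv D x P l)` as a linear map -/
private noncomputable def LineData_u (D : Ix (Fin (N + 1)) d → Derivation ℤ Ω Ω)
    (x : Fin (N + 1) → Ω) (l : Fin (N + 1)) :
    (Fin r → MvPolynomial (Fin (N + 1)) Ω) →ₗ[Ω] (Fin (N + 1) → Ω) :=
  (LineData_pr x).comp ((dvC D x).comp (LinearMap.pi fun i =>
    (LinearMap.mulLeft Ω (rl x l)).comp (LinearMap.proj i)))

private theorem LineData_u_apply (x : Fin (N + 1) → Ω) (l : Fin (N + 1))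
    (P : Fin r → MvPolynomial (Fin (N + 1)) Ω) :
    LineData_u D x l P = pr x (Sv D x P l) := rfl

/-- two independent single vectors modulo `x` -/
private theorem LineData_two (hD : ∀ s t : Ix (Fin (N + 1)) d, D t (a s) = if s = t then 1 else 0)
    (hn : n + r = N) (hn2 : 2 ≤ n) (x : Fin (N + 1) → Ω) (hx : x 0 = 1)
    (hF : ∀ i, form (fun J => a ⟨i, J⟩) x = 0)
    (ho : TT a x ≤ Submodule.span Ω (insert x (SS D B x))) :
    ∃ s₁ ∈ SS D B x, ∃ s₂ ∈ SS D B x, LinearIndependent Ω ![x, s₁, s₂] := by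
  classical
  have hfr := finrank_TT hD hn x hx hF
  have hx0 : x ≠ 0 := by
    intro h
    rw [h] at hx
    simp at hx
  have h1 : ∃ s₁ ∈ SS D B x, s₁ ∉ Submodule.span Ω ({x} : Set (Fin (N + 1) → Ω)) := by
    by_contra hcon
    push Not at hcon
    have h2 : TT a x ≤ Submodule.span Ω ({x} : Set (Fin (N + 1) → Ω)) := by
      refine ho.trans (Submodule.span_le.2 ?_)
      rintro v (rfl | hv)
      · exact Submodule.subset_span rfl
      · exact hcon v hv
    have h3 := Submodule.finrank_mono h2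
    have h4 := finrank_span_singleton (K := Ω) hx0
    omega
  obtain ⟨s₁, hs₁, hn₁⟩ := h1
  have h1' : LinearIndependent Ω ![x, s₁] := by
    have h : (![x, s₁] : Fin 2 → Fin (N + 1) → Ω) =
        (Fin.snoc (![x] : Fin 1 → Fin (N + 1) → Ω) s₁ : Fin 2 → Fin (N + 1) → Ω) := by
      funext i
      refine Fin.lastCases ?_ (fun i => ?_) i
      · rw [Fin.snoc_last]; rfl
      · rw [Fin.snoc_castSucc]
        fin_cases i; rfl
    rw [h]
    refine linearIndependent_finSnoc.2 ⟨?_, ?_⟩
    · rw [linearIndependent_unique_iff]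
      exact hx0
    · have hr : Set.range (![x] : Fin 1 → Fin (N + 1) → Ω) = {x} := by
        rw [Matrix.range_cons, Matrix.range_empty, Set.union_empty]
      rw [hr]
      exact hn₁
  have h2 : ∃ s₂ ∈ SS D B x,
      s₂ ∉ Submodule.span Ω (Set.range (![x, s₁] : Fin 2 → Fin (N + 1) → Ω)) := by
    by_contra hcon
    push Not at hcon
    have h2 : TT a x ≤ Submodule.span Ω (Set.range (![x, s₁] : Fin 2 → Fin (N + 1) → Ω)) := by
      refine ho.trans (Submodule.span_le.2 ?_)
      rintro v (rfl | hv)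
      · exact Submodule.subset_span ⟨0, rfl⟩
      · exact hcon v hv
    have h3 := Submodule.finrank_mono h2
    have h4 := finrank_range_le_card (R := Ω) (![x, s₁] : Fin 2 → Fin (N + 1) → Ω)
    rw [Fintype.card_fin] at h4
    unfold Set.finrank at h4
    omega
  obtain ⟨s₂, hs₂, hn₂⟩ := h2
  refine ⟨s₁, hs₁, s₂, hs₂, ?_⟩
  have h : (![x, s₁, s₂] : Fin 3 → Fin (N + 1) → Ω) =
      (Fin.snoc (![x, s₁] : Fin 2 → Fin (N + 1) → Ω) s₂ : Fin 3 → Fin (N + 1) → Ω) := by
    funext i
    refine Fin.lastCases ?_ (fun i => ?_) i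
    · rw [Fin.snoc_last]; rfl
    · rw [Fin.snoc_castSucc]
      fin_cases i <;> rfl
  rw [h]
  exact linearIndependent_finSnoc.2 ⟨h1', hn₂⟩

theorem line_data (hD : ∀ s t : Ix (Fin (N + 1)) d, D t (a s) = if s = t then 1 else 0)
    (hn : n + r = N) (hn2 : 2 ≤ n) (hd : ∀ i, 1 ≤ d i) (x : Fin (N + 1) → Ω) (hx : x 0 = 1)
    (hF : ∀ i, form (fun J => a ⟨i, J⟩) x = 0)
    (ho : TT a x ≤ Submodule.span Ω (insert x (SS D B x)))
    (h : ∀ P : Fin r → MvPolynomial (Fin (N + 1)) Ω, RatT B P → ∀ k l,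
      ¬ LinearIndependent Ω ![x, Sv D x P k, Sv D x P l]) :
    ∃ (y : Fin (N + 1) → Ω) (t : (Fin r → MvPolynomial (Fin (N + 1)) Ω) →ₗ[Ω]
        (Fin (N + 1) → Ω)), y 0 = 0 ∧ (∃ β, y β = 1) ∧
      (∀ l P, pr x (Sv D x P l) = y l • t P) ∧
      n ≤ Module.finrank Ω (LinearMap.range t) := by
  obtain ⟨s₁, ⟨k, P₁, hP₁, rfl⟩, s₂, ⟨l, P₂, hP₂, rfl⟩, hli⟩ :=
    LineData_two hD hn hn2 x hx hF ho
  have hli2 := (pr_li x hx _ _).1 hli
  obtain ⟨y, t, hy1, hyt⟩ := rank_one (LineData_u D x) (fun P k l => pol x hx h P k l)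
    ⟨k, l, P₁, P₂, hli2⟩
  have ht : ∀ l P, pr x (Sv D x P l) = y l • t P := fun l P => hyt l P
  refine ⟨y, t, ?_, hy1, ht, ?_⟩
  · have h1 : pr x (Sv D x P₁ k) ≠ 0 := hli2.ne_zero (0 : Fin 2)
    rw [ht k P₁] at h1
    have h2 : t P₁ ≠ 0 := fun h2 => h1 (by rw [h2, smul_zero])
    have h3 := ht 0 P₁
    rw [sv_zero x hx] at h3
    have h4 : pr x (0 : Fin (N + 1) → Ω) = 0 := by
      funext l
      simp [pr]
    rw [h4] at h3
    exact (smul_eq_zero.1 h3.symm).resolve_right h2
  · -- the range of `t` contains the image of the tangent space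
    set f := (LineData_pr x).domRestrict (TT a x) with hf
    have hrange : LinearMap.range f ≤ LinearMap.range t := by
      rintro _ ⟨v, rfl⟩
      have hv : (v : Fin (N + 1) → Ω) ∈ Submodule.span Ω (insert x (SS D B x)) := ho v.2
      have hle : Submodule.span Ω (insert x (SS D B x)) ≤
          (LinearMap.range t).comap (LineData_pr x) := by
        rw [Submodule.span_le]
        rintro w (rfl | ⟨l', P, -, rfl⟩)
        · change pr w w ∈ LinearMap.range t
          rw [LineData_pr_x w hx]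
          exact Submodule.zero_mem _
        · change pr x (Sv D x P l') ∈ LinearMap.range t
          rw [ht l' P]
          exact Submodule.smul_mem _ _ ⟨P, rfl⟩
      exact hle hv
    have hker : Module.finrank Ω (LinearMap.ker f) ≤ 1 := by
      let g : LinearMap.ker f →ₗ[Ω] Ω :=
        ((LinearMap.proj (0 : Fin (N + 1))).comp (TT a x).subtype).comp (LinearMap.ker f).subtype
      have hg : Function.Injective g := by
        intro u v huv
        have h1 : pr x ((u : TT a x) : Fin (N + 1) → Ω) = 0 := u.2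
        have h2 : pr x ((v : TT a x) : Fin (N + 1) → Ω) = 0 := v.2
        have h3 : ((u : TT a x) : Fin (N + 1) → Ω) 0 = ((v : TT a x) : Fin (N + 1) → Ω) 0 := huv
        exact Subtype.ext (Subtype.ext (LineData_pr_eq x _ _ h1 h2 h3))
      have h3 := LinearMap.finrank_le_finrank_of_injective hg
      rwa [Module.finrank_self] at h3
    have h5 := LinearMap.finrank_range_add_finrank_ker f
    rw [finrank_TT hD hn x hx hF] at h5
    have h6 := Submodule.finrank_mono hrange
    omega

end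

end Pool.Agent.Helper10.CI
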