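import Pool.Agent.Helper6.QS.Rat
import Pool.Agent.Helper10.CI.Defs

/-!
# CI: basic properties of frames (any index type)

`rat_alg`: `B` is relatively algebraically closed. `rat_der`: `B` is stable under the derivations.
`rat_max`, `rat_pt`: use `exists_max_coord` of `Helper74.LG`.
-/

set_option autoImplicit false

namespace Pool.Agent.Helper10.CI

open scoped BigOperators
open MvPolynomial
open Pool.Agent.Helper8.LG (Bdd form mon Ix)
open Pool.Agent.Helper6.QS (Rat_int)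

variable {Ω : Type*} [Field Ω] {P : Type*} [DecidableEq P]
  {D : P → Derivation ℤ Ω Ω} {a : P → Ω} {B : Subfield Ω}

theorem rat_alg (hB : Frame D a B) (y : Ω) (hy : IsAlgebraic B y) : y ∈ B := by
  classical
  have hy' : IsIntegral B y := hy.isIntegral
  set R : Polynomial B := minpoly B y with hP
  have hmon : R.Monic := minpoly.monic hy'
  set s : Finset Ω := (Finset.range R.natDegree).image fun i => (R.coeff i : Ω) with hs
  refine hB.rat s ?_ y 1 ?_
  · intro b hb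
    rw [hs, Finset.mem_image] at hb
    obtain ⟨i, -, rfl⟩ := hb
    exact (R.coeff i).2
  · intro O Δ hΔ hsO
    rw [pow_one]
    have hdeg : (R.map (algebraMap B Ω)).natDegree = R.natDegree :=
      Polynomial.natDegree_map _
    refine Rat_int hΔ.1 (P := R.map (algebraMap B Ω)) (hmon.map _) ?_ ?_
    · rw [Polynomial.eval_map, ← Polynomial.aeval_def]
      exact minpoly.aeval B y
    · intro i hi
      rw [hdeg] at hi
      rw [Polynomial.coeff_map]
      exact hsO _ (Finset.mem_image.2 ⟨i, Finset.mem_range.2 hi, rfl⟩)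

theorem rat_der (hB : Frame D a B) (J : P) (b : Ω) (hb : b ∈ B) : D J b ∈ B := by
  classical
  refine hB.rat {b} (by simpa using hb) _ 3 ?_
  intro O Δ hΔ hsO
  have hb1 : Δ * b ∈ O := hsO b (Finset.mem_singleton_self b)
  have h1 : Δ * D J (Δ * b) ∈ O := hΔ.2 J _ hb1
  have h2 : Δ * D J Δ ∈ O := hΔ.2 J _ hΔ.1
  have h3 : Δ ^ 3 * D J b = Δ * (Δ * D J (Δ * b)) - (Δ * b) * (Δ * D J Δ) := by
    rw [Derivation.leibniz]
    simp only [smul_eq_mul]
    ring
  rw [h3]
  exact O.toSubring.sub_mem (O.mul_mem _ _ hΔ.1 h1) (O.mul_mem _ _ hb1 h2)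

/-- at each valuation ring one may use a maximal coordinate of the point -/
theorem rat_max {σ : Type*} [Fintype σ] (hB : Frame D a B) (x : σ → Ω) (i₀ : σ) (hx : x i₀ = 1) (s : Finset Ω)
    (hs : ∀ b ∈ s, b ∈ B) (y : Ω) (M : ℕ)
    (h : ∀ (O : ValuationSubring Ω) (Δ : Ω), Bdd D Δ O → (∀ b ∈ s, Δ * b ∈ O) →
      ∀ m, x m ≠ 0 → (∀ l, x l / x m ∈ O) → Δ ^ M * y ∈ O) : y ∈ B := by
  refine hB.rat s hs y M fun O Δ hΔ hsO => ?_
  obtain ⟨m, hm, hmax⟩ := Pool.Agent.Helper74.LG.exists_max_coord O x i₀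
    (by rw [hx]; exact one_ne_zero)
  exact h O Δ hΔ hsO m hm hmax

/-- a function of weight `-1` bounds the point -/
theorem rat_pt {σ : Type*} [Fintype σ] (hB : Frame D a B) (x : σ → Ω) (i₀ : σ) (hx : x i₀ = 1) (s : Finset Ω)
    (hs : ∀ b ∈ s, b ∈ B) (G : Ω) (hG : G ≠ 0) (M : ℕ)
    (h : ∀ (O : ValuationSubring Ω) (Δ : Ω), Bdd D Δ O → (∀ b ∈ s, Δ * b ∈ O) →
      ∀ m, x m ≠ 0 → (∀ l, x l / x m ∈ O) → Δ ^ M * (G * x m) ∈ O) : ∀ l, x l ∈ B := by
  have key : ∀ l, G * x l ∈ B := by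
    intro l
    refine rat_max hB x i₀ hx s hs (G * x l) M fun O Δ hΔ hsO m hm hmax => ?_
    have h1 : Δ ^ M * (G * x l) = Δ ^ M * (G * x m) * (x l / x m) := by
      field_simp
    rw [h1]
    exact O.mul_mem _ _ (h O Δ hΔ hsO m hm hmax) (hmax l)
  have hGB : G ∈ B := by
    have h1 := key i₀
    rwa [hx, mul_one] at h1
  intro l
  have h1 : x l = G⁻¹ * (G * x l) := by
    rw [← mul_assoc, inv_mul_cancel₀ hG, one_mul]
  rw [h1]
  exact B.mul_mem (B.inv_mem hGB) (key l)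

end Pool.Agent.Helper10.CI
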