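import Pool.Agent.Helper10.CI.DimArg
import Pool.Agent.Helper10.CI.Chain
import Pool.Agent.Helper10.CI.LineData
import Pool.Agent.Helper10.CI.Rat
import Pool.Agent.Helper6.QS.Der

/-!
# CI-LINECASE: all blocks have rank one: `x` is rational

`line_data`, `const_x`, `psi_pow`: `psi F_i = c_i r_β^(d_i)`. If some `x_l ∉ B`, then `x_l` is transcendental
over `B` (`rat_alg`) and there is a derivation `δ` over `B` with `δ x_l ≠ 0` (`exists_der`). Let
`κ_i = δ c_i / c_i` (`0` if `c_i = 0`, then `δ c_i = 0`) and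
`g_i = X_0 pdF (δ x) i + r_β pdF (δ y) i - κ_i F_i`: `psi g_i = 0` (`psi_der`), so `pr x (dvC D x g) = 0`
(`psi_eq`). By `eqv` (`lf ζ = X_0` resp. `r_β`) and `scl` it is `- pr x (δ x)`; `δ x_0 = 0`, so `δ x = 0`.
-/

set_option autoImplicit false

namespace Pool.Agent.Helper10.CI

open scoped BigOperators
open MvPolynomial
open Pool.Agent.Helper8.LG (Bdd form mon Ix)
open Pool.Agent.Helper49.LN (cP mo hf pl)
open Pool.Agent.Helper6.QS (dv ev lf dt Par RatP)

section

variable {Ω : Type*} [Field Ω] [CharZero Ω] {N r n : ℕ} {d : Fin r → ℕ}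
  {D : Ix (Fin (N + 1)) d → Derivation ℤ Ω Ω} {a : Ix (Fin (N + 1)) d → Ω} {B : Subfield Ω}

theorem line_case (hB : Frame D a B) (hn : n + r = N) (hn2 : 2 ≤ n) (hd : ∀ i, 1 ≤ d i)
    (hnum : ∑ i, (d i + 1) = 2 * N) (x : Fin (N + 1) → Ω) (hx : x 0 = 1)
    (hF : ∀ i, form (fun J => a ⟨i, J⟩) x = 0)
    (hw1 : ∀ v ∈ TT a x, Wt D B x 1 v → pr x v = 0)
    (ho : TT a x ≤ Submodule.span Ω (insert x (SS D B x)))
    (h : ∀ P : Fin r → MvPolynomial (Fin (N + 1)) Ω, RatT B P → ∀ k l,
      ¬ LinearIndependent Ω ![x, Sv D x P k, Sv D x P l]) : ∀ l, x l ∈ B := by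
  classical
  obtain ⟨y, t, hy, ⟨β, hβ⟩, ht, htn⟩ := line_data hB.dual hn hn2 hd x hx hF ho h
  have heq : ∀ w ζ : Fin (N + 1) → Ω,
      pr x (dvC D x (fun i => lf ζ * pdF a w i)) = -(dt ζ x) • pr x w :=
    fun w ζ => eqv hB hd x hx hF hw1 w ζ
  have hconst := const_x hn hnum hd x y hx hy β hβ heq t ht htn
  choose c hc using fun i => psi_pow x y hx hy β hβ i (hconst i)
  intro l
  by_contra hl
  obtain ⟨δ, hδB, hδl⟩ := Pool.Agent.Helper6.QS.exists_der B (x l)
    (fun halg => hl (rat_alg hB _ halg))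
  have hder := fun i => psi_der x y hx hy β hβ i (c i) (hc i) δ (fun J => hδB _ (hB.mem ⟨i, J⟩))
  -- the logarithmic derivatives
  obtain ⟨κ, hκ⟩ : ∃ κ : Fin r → Ω, ∀ i, δ (c i) = κ i * c i := by
    refine ⟨fun i => if c i = 0 then 0 else δ (c i) / c i, fun i => ?_⟩
    by_cases h0 : c i = 0
    · simp [h0]
    · simp [h0]
  -- the three families
  have h1 : Psi_L D x (fun i => X 0 * pdF a (fun l => δ (x l)) i) =
      -(pr x fun l => δ (x l)) := by
    have h2 := heq (fun l => δ (x l)) (Pi.single 0 1)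
    rw [DimArg_lf_single, DimArg_dt_single, one_smul, hx, one_mul, neg_smul, one_smul] at h2
    exact h2
  have h3 : Psi_L D x (fun i => rl x β * pdF a (fun l => δ (y l)) i) = 0 := by
    have h2 := heq (fun l => δ (y l)) (Pi.single β 1 + Pi.single 0 (-(x β)))
    have h4 : lf (Pi.single β 1 + Pi.single 0 (-(x β)) : Fin (N + 1) → Ω) = rl x β := by
      rw [DimArg_lf_add, DimArg_lf_single, DimArg_lf_single, one_smul, neg_smul, rl,
        sub_eq_add_neg]
    have h5 : dt (Pi.single β 1 + Pi.single 0 (-(x β)) : Fin (N + 1) → Ω) x = 0 := by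
      rw [DimArg_dt_add, DimArg_dt_single, DimArg_dt_single, hx]
      ring
    rw [h4, h5, neg_zero, zero_smul] at h2
    exact h2
  have h6 : Psi_L D x (fun i => κ i • Fp a i) = 0 := by
    have h7 : (fun i => κ i • Fp a i) = ∑ i, κ i • sg i (Fp a i) := by
      funext k
      rw [Finset.sum_apply, Finset.sum_eq_single k]
      · rw [Pi.smul_apply]
        unfold sg
        rw [Pi.single_eq_same]
      · intro j _ hj
        rw [Pi.smul_apply]
        unfold sg
        rw [Pi.single_eq_of_ne (Ne.symm hj), smul_zero]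
      · intro h0
        exact absurd (Finset.mem_univ k) h0
    rw [h7, map_sum]
    refine Finset.sum_eq_zero fun i _ => ?_
    rw [map_smul, Psi_L_apply, scl hB x hx hF hw1 i, smul_zero]
  have h8 : Psi_L D x (fun i => X 0 * pdF a (fun l => δ (x l)) i +
      rl x β * pdF a (fun l => δ (y l)) i - κ i • Fp a i) = 0 := by
    rw [Psi_eq x y β hβ t ht]
    have h9 : (fun i => psi x y β (X 0 * pdF a (fun l => δ (x l)) i +
        rl x β * pdF a (fun l => δ (y l)) i - κ i • Fp a i)) =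
        (0 : Fin r → MvPolynomial (Fin (N + 1)) Ω) := by
      funext i
      rw [map_sub, hder i, map_smul, hc i, smul_smul, hκ i, sub_self]
      rfl
    rw [h9, map_zero]
  have h10 : Psi_L D x (fun i => X 0 * pdF a (fun l => δ (x l)) i +
      rl x β * pdF a (fun l => δ (y l)) i - κ i • Fp a i) =
      Psi_L D x (fun i => X 0 * pdF a (fun l => δ (x l)) i) +
      Psi_L D x (fun i => rl x β * pdF a (fun l => δ (y l)) i) -
      Psi_L D x (fun i => κ i • Fp a i) := by
    rw [← map_add, ← map_sub]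
    rfl
  rw [h8, h1, h3, h6, add_zero, sub_zero] at h10
  have h11 := congrFun h10 l
  have h12 : δ (x 0) = 0 := by
    rw [hx]
    exact δ.map_one_eq_zero
  simp only [pr, Pi.neg_apply, Pi.zero_apply, h12, zero_mul, sub_zero] at h11
  exact hδl (neg_eq_zero.1 h11.symm)

end

end Pool.Agent.Helper10.CI
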