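import Pool.Agent.Helper10.CI.RZ
import Pool.Agent.Helper10.CI.Blk
import Pool.Agent.Helper10.CI.Lin

/-!
# CI-PL: a single vector among the rows gives a rational line through `x`

Let `A` be the alternating map of `exists_alt` and `z l = A (v_1 .. v_(n-1), D_(X_l Q) x)`. By `hf_lin`
`A (v, D_(hf x j l Q) x) = x_j z_l - x_l z_j = pl x z j l`; all of them are rational (`aa_zero` in `pl_one`,
in `pl_blk`: `gam_mem` with `rest = (s, D_(hf x j l Q) x)` and `gam_zero`), the one with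
`(j, l) = (0, l₀)` is not `0` (`tan_ne`): `lin_mem`. The last place is `Fin.snoc`.
-/

set_option autoImplicit false

namespace Pool.Agent.Helper10.CI

open scoped BigOperators
open MvPolynomial
open Pool.Agent.Helper8.LG (Bdd form mon Ix)
open Pool.Agent.Helper49.LN (cP mo hf pl)
open Pool.Agent.Helper6.QS (dv ev lf dt Par RatP)

section

variable {Ω : Type*} [Field Ω] [CharZero Ω] {N r p : ℕ} {d : Fin r → ℕ}
  {D : Ix (Fin (N + 1)) d → Derivation ℤ Ω Ω} {a : Ix (Fin (N + 1)) d → Ω} {B : Subfield Ω}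

omit [CharZero Ω] in
/-- the numbering of the rows -/
theorem Pl_e {n : ℕ} (hn : n + r = N) : Nonempty (Kx n r ≃ Fin (N + 1)) := by
  refine ⟨Fintype.equivFinOfCardEq ?_⟩
  rw [Fintype.card_sum, Fintype.card_sum, Fintype.card_unit, Fintype.card_fin, Fintype.card_fin]
  omega

omit [CharZero Ω] in
/-- the determinant as a linear map of the last vector -/
theorem Pl_last {n : ℕ} (e : Kx (n + 1) r ≃ Fin (N + 1))
    (D : Ix (Fin (N + 1)) d → Derivation ℤ Ω Ω) (x : Fin (N + 1) → Ω)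
    (v : Fin n → Fin (N + 1) → Ω) :
    ∃ L : (Fin (N + 1) → Ω) →ₗ[Ω] Ω, ∀ y, L y = AA e D x (Fin.snoc v y) := by
  obtain ⟨A, hA, -⟩ := exists_alt e x (tau D x)
  have h0 : ∀ y y' : Fin (N + 1) → Ω, Function.update
      (Fin.snoc v y' : Fin (n + 1) → Fin (N + 1) → Ω) (Fin.last n) y = Fin.snoc v y := by
    intro y y'
    exact Fin.update_snoc_last _ _ _
  refine ⟨{ toFun := fun y => A (Fin.snoc v y : Fin (n + 1) → Fin (N + 1) → Ω)
            map_add' := ?_
            map_smul' := ?_ }, ?_⟩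
  · intro y z
    have h := A.map_update_add (Fin.snoc v y : Fin (n + 1) → Fin (N + 1) → Ω) (Fin.last n) y z
    rwa [h0, h0, h0] at h
  · intro c y
    have h := A.map_update_smul (Fin.snoc v y : Fin (n + 1) → Fin (N + 1) → Ω) (Fin.last n) c y
    rwa [h0, h0] at h
  · intro y
    exact hA _

omit [CharZero Ω] in
/-- the values of a linear functional at the single vectors are the Plücker coordinates -/
theorem Pl_pl (x : Fin (N + 1) → Ω) (Q : Fin r → MvPolynomial (Fin (N + 1)) Ω)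
    (L : (Fin (N + 1) → Ω) →ₗ[Ω] Ω) (j l : Fin (N + 1)) :
    pl x (fun l => L (dvC D x (fun i => X l * Q i))) j l =
      L (dvC D x (fun i => hf x j l * Q i)) := by
  rw [hf_lin, map_sub, map_smul, map_smul]
  rfl

/-- a nonzero functional with rational values at the single vectors gives a rational line -/
theorem Pl_fin (hB : Frame D a B) (hnum : ∑ i, (d i + 1) = 2 * N)
    (x : Fin (N + 1) → Ω) (hx : x 0 = 1) (hF : ∀ i, form (fun J => a ⟨i, J⟩) x = 0)
    (Q : Fin r → MvPolynomial (Fin (N + 1)) Ω) (l₀ : Fin (N + 1))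
    (L : (Fin (N + 1) → Ω) →ₗ[Ω] Ω) (h0 : L (Sv D x Q l₀) ≠ 0)
    (hL : ∀ j l, L (dvC D x (fun i => hf x j l * Q i)) ∈ B) : ∀ l, x l ∈ B := by
  refine lin_mem hB hnum.ge x hx hF (fun l => L (dvC D x (fun i => X l * Q i)))
    ⟨0, l₀, ?_⟩ fun j l => ?_
  · rw [Pl_pl, ← Sing_rl x hx]
    exact h0
  · rw [Pl_pl]
    exact hL j l

/-- `v_1, …, v_p` tangent of total weight `W` and one single -/
theorem pl_one (hB : Frame D a B) (hn : p + 1 + r = N) (hd : ∀ i, 1 ≤ d i)
    (hnum : ∑ i, (d i + 1) = 2 * N)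
    (x : Fin (N + 1) → Ω) (hx : x 0 = 1) (hF : ∀ i, form (fun J => a ⟨i, J⟩) x = 0)
    (v : Fin p → Fin (N + 1) → Ω) (w : Fin p → ℕ) (hT : ∀ j, v j ∈ TT a x)
    (hw : ∀ j, Wt D B x (w j) (v j)) (hsum : ∑ j, w j + 3 + r = ∑ i, d i)
    (s : Fin (N + 1) → Ω) (hs : s ∈ SS D B x)
    (hli : LinearIndependent Ω (Fin.cons x (Fin.snoc v s) :
      Fin (p + 1 + 1) → Fin (N + 1) → Ω)) : ∀ l, x l ∈ B := by
  obtain ⟨e⟩ := Pl_e (N := N) (r := r) (n := p + 1) hn
  obtain ⟨L, hL⟩ := Pl_last e D x v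
  obtain ⟨l₀, Q, hQ, rfl⟩ := hs
  refine Pl_fin hB hnum x hx hF Q l₀ L ?_ fun j l => ?_
  · rw [hL]
    refine (tan_ne hB.dual hn x hx hF e _ fun j => ?_).2 hli
    refine Fin.lastCases ?_ (fun j => ?_) j
    · rw [Fin.snoc_last]
      exact sv_TT hB.dual x hx hF hd Q l₀
    · rw [Fin.snoc_castSucc]
      exact hT j
  · rw [hL]
    refine aa_zero hB hn x hx hF e _ (Fin.snoc w 2 : Fin (p + 1) → ℕ) (fun k => ?_) (fun k => ?_) ?_
    · refine Fin.lastCases ?_ (fun k => ?_) k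
      · rw [Fin.snoc_last]
        exact hf_TT hB.dual x hF hd Q j l
      · rw [Fin.snoc_castSucc]
        exact hT k
    · refine Fin.lastCases ?_ (fun k => ?_) k
      · rw [Fin.snoc_last, Fin.snoc_last]
        exact wt_hf x Q hQ j l
      · rw [Fin.snoc_castSucc, Fin.snoc_castSucc]
        exact hw k
    · rw [Fin.sum_univ_castSucc]
      simp only [Fin.snoc_castSucc, Fin.snoc_last]
      omega

/-- a block, singles `v_1, …, v_p` of total weight `W` and one more single -/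
theorem pl_blk (hB : Frame D a B) (hn : p + 1 + 2 + r = N) (hd : ∀ i, 1 ≤ d i)
    (hnum : ∑ i, (d i + 1) = 2 * N)
    (x : Fin (N + 1) → Ω) (hx : x 0 = 1) (hF : ∀ i, form (fun J => a ⟨i, J⟩) x = 0)
    (P : Fin r → MvPolynomial (Fin (N + 1)) Ω) (hP : RatT B P) (k l : Fin (N + 1))
    (v : Fin p → Fin (N + 1) → Ω) (w : Fin p → ℕ) (hT : ∀ j, v j ∈ TT a x)
    (hw : ∀ j, Wt D B x (w j) (v j)) (hsum : ∑ j, w j + 6 + r = ∑ i, d i)
    (s : Fin (N + 1) → Ω) (hs : s ∈ SS D B x)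
    (hli : LinearIndependent Ω (Fin.cons x (two (Sv D x P k) (Sv D x P l) (Fin.snoc v s)) :
      Fin (p + 1 + 2 + 1) → Fin (N + 1) → Ω)) : ∀ l, x l ∈ B := by
  obtain ⟨e⟩ := Pl_e (N := N) (r := r) (n := p + 1 + 2) hn
  have htwo : ∀ y : Fin (N + 1) → Ω, two (Sv D x P k) (Sv D x P l) (Fin.snoc v y) =
      (Fin.snoc (two (Sv D x P k) (Sv D x P l) v) y : Fin (p + 1 + 2) → Fin (N + 1) → Ω) := by
    intro y
    unfold two
    rw [Fin.cons_snoc_eq_snoc_cons]
    exact Fin.cons_snoc_eq_snoc_cons _ _ _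
  obtain ⟨L, hL⟩ := Pl_last (n := p + 2) e D x (two (Sv D x P k) (Sv D x P l) v)
  have hL' : ∀ y, L y = AA e D x (two (Sv D x P k) (Sv D x P l) (Fin.snoc v y)) := by
    intro y
    rw [htwo]
    exact hL y
  obtain ⟨l₀, Q, hQ, rfl⟩ := hs
  refine Pl_fin hB hnum x hx hF Q l₀ L ?_ fun j l' => ?_
  · rw [hL']
    refine (tan_ne hB.dual hn x hx hF e _ fun j => ?_).2 hli
    unfold two
    refine Fin.cases ?_ (fun j => Fin.cases ?_ (fun j => ?_) j) j
    · exact sv_TT hB.dual x hx hF hd P k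
    · exact sv_TT hB.dual x hx hF hd P l
    · rw [Fin.cons_succ, Fin.cons_succ]
      refine Fin.lastCases ?_ (fun j => ?_) j
      · rw [Fin.snoc_last]
        exact sv_TT hB.dual x hx hF hd Q l₀
      · rw [Fin.snoc_castSucc]
        exact hT j
  · rw [hL', ← gam_zero e x hx P]
    refine gam_mem hB hn hd x hx hF e P hP _ (Fin.snoc w 2 : Fin (p + 1) → ℕ) (fun k => ?_)
      (fun k => ?_) ?_ 0 k l
    · refine Fin.lastCases ?_ (fun k => ?_) k
      · rw [Fin.snoc_last]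
        exact hf_TT hB.dual x hF hd Q j l'
      · rw [Fin.snoc_castSucc]
        exact hT k
    · refine Fin.lastCases ?_ (fun k => ?_) k
      · rw [Fin.snoc_last, Fin.snoc_last]
        exact wt_hf x Q hQ j l'
      · rw [Fin.snoc_castSucc, Fin.snoc_castSucc]
        exact hw k
    · rw [Fin.sum_univ_castSucc]
      simp only [Fin.snoc_castSucc, Fin.snoc_last]
      omega

end

end Pool.Agent.Helper10.CI
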