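import Pool.Agent.Helper10.CI.Sing

/-!
# CI-PSI: the restriction to the line

`psi x y β : X_l ↦ x_l X_0 + y_l r_β`, `r_β = X_β - x_β X_0`, the restriction of a form to the line
through `x` and `y`. Hypothesis `ht`: `pr x (Sv D x P l) = y_l t(P)`. Since `X_l - psi X_l = r_l - y_l r_β`
one has `pr x (dvC D x ((X_l - psi X_l) P)) = 0` (`y_β = 1`), and `mo K - psi (mo K)` is a sum of such
products (induction on the multiset `K`, with an arbitrary further factor). `psi_t`: `t P = pr x (Sv D x P β)`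
and `psi r_β = r_β` (`x_0 = 1`, `y_0 = 0`).
-/

set_option autoImplicit false

namespace Pool.Agent.Helper10.CI

open scoped BigOperators
open MvPolynomial
open Pool.Agent.Helper8.LG (Bdd form mon Ix)
open Pool.Agent.Helper49.LN (cP mo hf pl)
open Pool.Agent.Helper6.QS (dv ev lf dt Par RatP)

section

variable {Ω : Type*} [Field Ω] {N r : ℕ} {d : Fin r → ℕ}
  {D : Ix (Fin (N + 1)) d → Derivation ℤ Ω Ω}

/-- the restriction to the line -/
noncomputable def psi (x y : Fin (N + 1) → Ω) (β : Fin (N + 1)) :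
    MvPolynomial (Fin (N + 1)) Ω →ₐ[Ω] MvPolynomial (Fin (N + 1)) Ω :=
  aeval fun l => x l • X 0 + y l • rl x β

theorem psi_hom (x y : Fin (N + 1) → Ω) (β : Fin (N + 1)) (k : ℕ)
    (g : MvPolynomial (Fin (N + 1)) Ω) (hg : g.IsHomogeneous k) :
    (psi x y β g).IsHomogeneous k := by
  have hX : ∀ (c : Ω) (l : Fin (N + 1)),
      (c • X l : MvPolynomial (Fin (N + 1)) Ω).IsHomogeneous 1 := by
    intro c l
    rw [smul_eq_C_mul]
    simpa using (isHomogeneous_C (Fin (N + 1)) c).mul (isHomogeneous_X Ω l)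
  have hr : (rl x β).IsHomogeneous 1 := (isHomogeneous_X Ω β).sub (hX (x β) 0)
  have h1 : ∀ l, (x l • X 0 + y l • rl x β).IsHomogeneous 1 := by
    intro l
    refine (hX (x l) 0).add ?_
    rw [smul_eq_C_mul]
    simpa using (isHomogeneous_C (Fin (N + 1)) (y l)).mul hr
  have h2 := hg.aeval (fun l => x l • X 0 + y l • rl x β) h1
  rw [one_mul] at h2
  exact h2

theorem Psi_X (x y : Fin (N + 1) → Ω) (β l : Fin (N + 1)) :
    psi x y β (X l) = x l • X 0 + y l • rl x β := by
  unfold psi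
  rw [aeval_X]

theorem psi_X0 (x y : Fin (N + 1) → Ω) (hx : x 0 = 1) (hy : y 0 = 0) (β : Fin (N + 1)) :
    psi x y β (X 0) = X 0 := by
  rw [Psi_X, hx, hy, one_smul, zero_smul, add_zero]

theorem psi_rl (x y : Fin (N + 1) → Ω) (hx : x 0 = 1) (hy : y 0 = 0) (β : Fin (N + 1))
    (hβ : y β = 1) : psi x y β (rl x β) = rl x β := by
  have h1 : psi x y β (rl x β) = psi x y β (X β) - x β • psi x y β (X 0) := by
    conv_lhs => rw [rl]
    rw [map_sub, map_smul]
  rw [h1, psi_X0 x y hx hy, Psi_X, hβ, one_smul, add_sub_cancel_left]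

/-- the derivative modulo `x` -/
noncomputable def Psi_L (D : Ix (Fin (N + 1)) d → Derivation ℤ Ω Ω) (x : Fin (N + 1) → Ω) :
    (Fin r → MvPolynomial (Fin (N + 1)) Ω) →ₗ[Ω] (Fin (N + 1) → Ω) where
  toFun g := pr x (dvC D x g)
  map_add' g h := by
    funext l
    simp only [pr, map_add, Pi.add_apply]
    ring
  map_smul' c g := by
    funext l
    simp only [pr, map_smul, Pi.smul_apply, smul_eq_mul, RingHom.id_apply]
    ring

theorem Psi_L_apply (x : Fin (N + 1) → Ω) (g : Fin r → MvPolynomial (Fin (N + 1)) Ω) :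
    Psi_L D x g = pr x (dvC D x g) := rfl

/-- the differences `f - psi f` times anything -/
theorem Psi_diff (x y : Fin (N + 1) → Ω) (β : Fin (N + 1)) (hβ : y β = 1)
    (t : (Fin r → MvPolynomial (Fin (N + 1)) Ω) →ₗ[Ω] (Fin (N + 1) → Ω))
    (ht : ∀ l P, pr x (Sv D x P l) = y l • t P) (f : MvPolynomial (Fin (N + 1)) Ω) :
    ∀ P : Fin r → MvPolynomial (Fin (N + 1)) Ω,
      Psi_L D x (fun i => (f - psi x y β f) * P i) = 0 := by
  have hL : ∀ l P, Psi_L D x (fun i => rl x l * P i) = y l • t P := ht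
  induction f using MvPolynomial.induction_on with
  | C c =>
    intro P
    have h1 : psi x y β (C c) = C c := by
      unfold psi
      rw [aeval_C]
      rfl
    have h2 : (fun i => ((C c : MvPolynomial (Fin (N + 1)) Ω) - psi x y β (C c)) * P i) = 0 := by
      funext i
      rw [h1, sub_self, zero_mul]
      rfl
    rw [h2, map_zero]
  | add f g hf hg =>
    intro P
    have h1 : (fun i => (f + g - psi x y β (f + g)) * P i) =
        (fun i => (f - psi x y β f) * P i) + fun i => (g - psi x y β g) * P i := by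
      funext i
      rw [Pi.add_apply, map_add]
      ring
    rw [h1, map_add, hf P, hg P, add_zero]
  | mul_X f l hf =>
    intro P
    have h1 : (fun i => (f * X l - psi x y β (f * X l)) * P i) =
        (fun i => rl x l * (psi x y β f * P i)) - y l • (fun i => rl x β * (psi x y β f * P i)) +
          fun i => (f - psi x y β f) * (X l * P i) := by
      funext i
      rw [Pi.add_apply, Pi.sub_apply, Pi.smul_apply, map_mul, Psi_X]
      have h2 : (X l : MvPolynomial (Fin (N + 1)) Ω) = rl x l + x l • X 0 := by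
        rw [rl, sub_add_cancel]
      simp only [h2, smul_eq_C_mul]
      ring
    rw [h1, map_add, map_sub, map_smul, hL, hL, hf, hβ, one_smul, sub_self, add_zero]

/-- `psi_eq` needs no homogeneity -/
theorem Psi_eq (x y : Fin (N + 1) → Ω) (β : Fin (N + 1)) (hβ : y β = 1)
    (t : (Fin r → MvPolynomial (Fin (N + 1)) Ω) →ₗ[Ω] (Fin (N + 1) → Ω))
    (ht : ∀ l P, pr x (Sv D x P l) = y l • t P) (g : Fin r → MvPolynomial (Fin (N + 1)) Ω) :
    Psi_L D x g = Psi_L D x (fun i => psi x y β (g i)) := by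
  have h1 : g - (fun i => psi x y β (g i)) =
      ∑ j, fun i => (g j - psi x y β (g j)) * (Pi.single j 1 : Fin r → MvPolynomial _ Ω) i := by
    funext i
    rw [Finset.sum_apply, Finset.sum_eq_single i]
    · rw [Pi.single_eq_same, mul_one, Pi.sub_apply]
    · intro j _ hj
      rw [Pi.single_eq_of_ne (Ne.symm hj), mul_zero]
    · intro h
      exact absurd (Finset.mem_univ i) h
  rw [← sub_eq_zero, ← map_sub, h1, map_sum]
  exact Finset.sum_eq_zero fun j _ => Psi_diff x y β hβ t ht (g j) _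

theorem psi_eq (hd : ∀ i, 1 ≤ d i) (x y : Fin (N + 1) → Ω) (hx : x 0 = 1) (hy : y 0 = 0)
    (β : Fin (N + 1)) (hβ : y β = 1)
    (t : (Fin r → MvPolynomial (Fin (N + 1)) Ω) →ₗ[Ω] (Fin (N + 1) → Ω))
    (ht : ∀ l P, pr x (Sv D x P l) = y l • t P) (g : Fin r → MvPolynomial (Fin (N + 1)) Ω)
    (hg : ∀ i, (g i).IsHomogeneous (d i)) :
    pr x (dvC D x g) = pr x (dvC D x (fun i => psi x y β (g i))) :=
  Psi_eq x y β hβ t ht g

/-- the value of `t` -/
theorem Psi_t (x y : Fin (N + 1) → Ω) (β : Fin (N + 1)) (hβ : y β = 1)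
    (t : (Fin r → MvPolynomial (Fin (N + 1)) Ω) →ₗ[Ω] (Fin (N + 1) → Ω))
    (ht : ∀ l P, pr x (Sv D x P l) = y l • t P) (P : Fin r → MvPolynomial (Fin (N + 1)) Ω) :
    t P = Psi_L D x (fun i => rl x β * P i) := by
  have h1 := ht β P
  rw [hβ, one_smul] at h1
  exact h1.symm

theorem psi_t (hd : ∀ i, 1 ≤ d i) (x y : Fin (N + 1) → Ω) (hx : x 0 = 1) (hy : y 0 = 0)
    (β : Fin (N + 1)) (hβ : y β = 1)
    (t : (Fin r → MvPolynomial (Fin (N + 1)) Ω) →ₗ[Ω] (Fin (N + 1) → Ω))
    (ht : ∀ l P, pr x (Sv D x P l) = y l • t P) (P : Fin r → MvPolynomial (Fin (N + 1)) Ω)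
    (hP : ∀ i, (P i).IsHomogeneous (d i - 1)) :
    t P = t (fun i => psi x y β (P i)) := by
  rw [Psi_t x y β hβ t ht P, Psi_t x y β hβ t ht (fun i => psi x y β (P i)),
    Psi_eq x y β hβ t ht (fun i => rl x β * P i)]
  congr 1
  funext i
  rw [map_mul, psi_rl x y hx hy β hβ]

/-- the part of the wrong degree does not matter -/
theorem t_hom (hd : ∀ i, 1 ≤ d i) (x y : Fin (N + 1) → Ω)
    (β : Fin (N + 1)) (hβ : y β = 1)
    (t : (Fin r → MvPolynomial (Fin (N + 1)) Ω) →ₗ[Ω] (Fin (N + 1) → Ω))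
    (ht : ∀ l P, pr x (Sv D x P l) = y l • t P) (P : Fin r → MvPolynomial (Fin (N + 1)) Ω) :
    t P = t (fun i => homogeneousComponent (d i - 1) (P i)) := by
  have hr : (rl x β).IsHomogeneous 1 := by
    unfold rl
    refine (isHomogeneous_X Ω β).sub ?_
    rw [smul_eq_C_mul]
    simpa using (isHomogeneous_C (Fin (N + 1)) (x β)).mul (isHomogeneous_X Ω 0)
  rw [Psi_t x y β hβ t ht P, Psi_t x y β hβ t ht, Psi_L_apply, Psi_L_apply]
  congr 1
  rw [dvC_apply, dvC_apply]
  refine Finset.sum_congr rfl fun i _ => ?_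
  rw [mul_comm, mul_comm (rl x β)]
  exact Pool.Agent.Helper6.QS.dv_part _ x (d i - 1) 1 (by have := hd i; omega) (P i) _ hr

end

end Pool.Agent.Helper10.CI
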