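import Pool.Agent.Helper10.CI.Ev

/-!
# CI-WT: weights of vectors modulo `x`

`dvC_scale` and `dvC_bdd`; the finite set `s` contains the (finitely many) coefficients of the
rational tuple. For `wt_hf`: `hf x j l = x_m • hf x' j l` with `x' = x / x_m`.
-/

set_option autoImplicit false

namespace Pool.Agent.Helper10.CI

open scoped BigOperators
open MvPolynomial
open Pool.Agent.Helper8.LG (Bdd form mon Ix)
open Pool.Agent.Helper49.LN (cP mo hf pl)
open Pool.Agent.Helper6.QS (dv ev lf dt Par RatP)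

section

variable {Ω : Type*} [Field Ω] {σ : Type*} [Fintype σ] [DecidableEq σ] {r : ℕ} {d : Fin r → ℕ}
  {D : Ix σ d → Derivation ℤ Ω Ω} {B : Subfield Ω}

omit [Fintype σ] [DecidableEq σ] in
/-- the coefficients of a rational tuple lie in a finite subset of `B` -/
theorem Wt_fin (g : Fin r → MvPolynomial σ Ω) (hg : RatT B g) :
    ∃ s : Finset Ω, (∀ b ∈ s, b ∈ B) ∧ ∀ i m, coeff m (g i) ∈ s := by
  classical
  refine ⟨insert 0 (Finset.univ.biUnion fun i => (g i).support.image fun m => coeff m (g i)),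
    ?_, ?_⟩
  · intro b hb
    rw [Finset.mem_insert] at hb
    rcases hb with rfl | hb
    · exact B.zero_mem
    · rw [Finset.mem_biUnion] at hb
      obtain ⟨i, -, hb⟩ := hb
      rw [Finset.mem_image] at hb
      obtain ⟨m, -, rfl⟩ := hb
      exact hg i m
  · intro i m
    rw [Finset.mem_insert]
    by_cases hm : m ∈ (g i).support
    · exact Or.inr (Finset.mem_biUnion.2 ⟨i, Finset.mem_univ i, Finset.mem_image.2 ⟨m, hm, rfl⟩⟩)
    · exact Or.inl (notMem_support_iff.1 hm)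

theorem wt_rat (x : σ → Ω) (g : Fin r → MvPolynomial σ Ω) (hg : RatT B g) :
    Wt D B x 1 (dvC D x g) := by
  obtain ⟨s, hsB, hs⟩ := Wt_fin g hg
  refine ⟨s, 2, hsB, fun O Δ hΔ hsO m hm hmax => ?_⟩
  obtain ⟨c, hc⟩ := dvC_scale (D := D) x m hm g
  refine ⟨c, dvC D (fun l => x l / x m) g, by rw [pow_one]; exact hc, fun l => ?_⟩
  refine dvC_bdd _ O Δ hΔ hmax g 1 (fun i n => ?_) l
  rw [pow_one]
  exact hsO _ (hs i n)

omit [Fintype σ] in
/-- the coefficients of the product of `X_j` and a polynomial -/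
theorem Wt_X (O : ValuationSubring Ω) (Δ : Ω) (P : MvPolynomial σ Ω)
    (hP : ∀ m, Δ * coeff m P ∈ O) (j : σ) (n : σ →₀ ℕ) : Δ * coeff n (X j * P) ∈ O := by
  rw [coeff_X_mul']
  split_ifs
  · exact hP _
  · rw [mul_zero]
    exact O.zero_mem

theorem wt_hf (x : σ → Ω) (P : Fin r → MvPolynomial σ Ω) (hP : RatT B P) (j l : σ) :
    Wt D B x 2 (dvC D x (fun i => hf x j l * P i)) := by
  obtain ⟨s, hsB, hs⟩ := Wt_fin P hP
  refine ⟨s, 2, hsB, fun O Δ hΔ hsO m hm hmax => ?_⟩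
  set g' : Fin r → MvPolynomial σ Ω := fun i => hf (fun l => x l / x m) j l * P i with hg'
  have h1 : (fun i => hf x j l * P i) = x m • g' := by
    funext i
    rw [Pi.smul_apply, hg']
    simp only [hf]
    rw [← smul_mul_assoc, smul_sub, smul_smul, smul_smul, mul_div_cancel₀ _ hm,
      mul_div_cancel₀ _ hm]
  obtain ⟨c, hc⟩ := dvC_scale (D := D) x m hm g'
  refine ⟨x m * c, dvC D (fun l => x l / x m) g', ?_, fun k => ?_⟩
  · rw [h1, map_smul, hc, smul_add, smul_smul, smul_smul, pow_two]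
  · refine dvC_bdd _ O Δ hΔ hmax g' 1 (fun i n => ?_) k
    have hP' : ∀ n, Δ * coeff n (P i) ∈ O := fun n => hsO _ (hs i n)
    have h2 : Δ ^ 1 * coeff n (g' i) = x j / x m * (Δ * coeff n (X l * P i)) -
        x l / x m * (Δ * coeff n (X j * P i)) := by
      rw [hg']
      simp only [hf]
      rw [sub_mul, smul_mul_assoc, smul_mul_assoc, coeff_sub, coeff_smul, coeff_smul,
        smul_eq_mul, smul_eq_mul]
      ring
    rw [h2]
    exact O.toSubring.sub_mem (O.mul_mem _ _ (hmax j) (Wt_X O Δ _ hP' l n))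
      (O.mul_mem _ _ (hmax l) (Wt_X O Δ _ hP' j n))

theorem wt_unit (x : σ → Ω) (j : σ) : Wt D B x 0 (Pi.single j 1) := by
  refine ⟨∅, 0, fun b hb => absurd hb (Finset.notMem_empty b), fun O Δ _ _ m _ _ => ?_⟩
  refine ⟨0, Pi.single j 1, by rw [pow_zero, one_smul, zero_smul, add_zero], fun l => ?_⟩
  rw [pow_zero, one_mul, Pi.single_apply]
  split_ifs
  · exact O.one_mem
  · exact O.zero_mem

theorem wt_xe (x : σ → Ω) (j l : σ) : Wt D B x 1 (x l • (Pi.single j 1 : σ → Ω)) := by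
  refine ⟨∅, 0, fun b hb => absurd hb (Finset.notMem_empty b), fun O Δ _ _ m hm hmax => ?_⟩
  refine ⟨0, (x l / x m) • Pi.single j 1, ?_, fun k => ?_⟩
  · rw [pow_one, smul_smul, mul_div_cancel₀ _ hm, zero_smul, add_zero]
  · rw [pow_zero, one_mul, Pi.smul_apply, Pi.single_apply, smul_eq_mul]
    refine O.mul_mem _ _ (hmax l) ?_
    split_ifs
    · exact O.one_mem
    · exact O.zero_mem

theorem wt_add (x : σ → Ω) (w : ℕ) (u v : σ → Ω) (hu : Wt D B x w u) (hv : Wt D B x w v) :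
    Wt D B x w (u + v) := by
  classical
  obtain ⟨s, M, hsB, hs⟩ := hu
  obtain ⟨t, L, htB, ht⟩ := hv
  refine ⟨s ∪ t, M + L, ?_, fun O Δ hΔ hst m hm hmax => ?_⟩
  · intro b hb
    rcases Finset.mem_union.1 hb with h | h
    · exact hsB b h
    · exact htB b h
  · obtain ⟨μ, u', hu, hu'⟩ := hs O Δ hΔ (fun b hb => hst b (Finset.mem_union_left _ hb)) m hm hmax
    obtain ⟨ν, v', hv, hv'⟩ := ht O Δ hΔ (fun b hb => hst b (Finset.mem_union_right _ hb)) m hm hmax
    refine ⟨μ + ν, u' + v', ?_, fun l => ?_⟩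
    · rw [hu, hv, smul_add, add_smul]
      abel
    · have h1 : Δ ^ (M + L) * (u' + v') l = Δ ^ L * (Δ ^ M * u' l) + Δ ^ M * (Δ ^ L * v' l) := by
        rw [Pi.add_apply]
        ring
      rw [h1]
      exact O.add_mem _ _ (O.mul_mem _ _ (pow_mem hΔ.1 L) (hu' l))
        (O.mul_mem _ _ (pow_mem hΔ.1 M) (hv' l))

theorem wt_smul (x : σ → Ω) (w : ℕ) (b : Ω) (hb : b ∈ B) (v : σ → Ω) (hv : Wt D B x w v) :
    Wt D B x w (b • v) := by
  classical
  obtain ⟨s, M, hsB, hs⟩ := hv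
  refine ⟨insert b s, M + 1, ?_, fun O Δ hΔ hst m hm hmax => ?_⟩
  · intro c hc
    rcases Finset.mem_insert.1 hc with rfl | h
    · exact hb
    · exact hsB c h
  · obtain ⟨μ, v', hv, hv'⟩ := hs O Δ hΔ (fun c hc => hst c (Finset.mem_insert_of_mem hc)) m hm hmax
    refine ⟨b * μ, b • v', ?_, fun l => ?_⟩
    · rw [hv, smul_add, smul_smul, smul_smul, smul_smul, mul_comm b]
    · have h1 : Δ ^ (M + 1) * (b • v') l = Δ * b * (Δ ^ M * v' l) := by
        rw [Pi.smul_apply, smul_eq_mul]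
        ring
      rw [h1]
      exact O.mul_mem _ _ (hst b (Finset.mem_insert_self b s)) (hv' l)

end

end Pool.Agent.Helper10.CI
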