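import Pool.Agent.Helper10.CI.Bd
import Pool.Agent.Helper10.CI.Wt
import Pool.Agent.Helper10.CI.Tan

/-!
# CI-RZ: the functions `AA (v_1, …, v_n)` of weight `0` are rational

Fix `m` with `x_m ≠ 0`. `aa_at`: let `τ'_i = dvC D x (sg i (x_m^(-d_i) X_m^(d_i)))`; the form
`X_0^(d_i) - x_m^(-d_i) X_m^(d_i)` vanishes at `x`, so `τ'_i - tau_i ∈ TT` (`nu_dvC`) and
`AA e D x v = dtm e x v τ'` (`tan_change`). With `x' = x / x_m`: `τ'_i = x_m^(1 - d_i) dvC D x' (X_m^(d_i) e_i)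
+ c x` (`dvC_scale`), `v_j = x_m^(w_j) v'_j + μ_j x` (`Wt`), so (`dtm_scale`) the determinant is
`x_m^(1 + ∑ w_j + r - ∑ d_i)` times a determinant with bounded rows (`dvC_bdd`, `dtm_mem`).
`aa_neg`: the same with `dtm_change` (the differences lie in the span of `x` and the `v_j` by `hspan`),
then `bd_pt` (`x_m^(-1) = x_0 / x_m` is bounded by `bd_ratio`).
-/

set_option autoImplicit false

namespace Pool.Agent.Helper10.CI

open scoped BigOperators
open MvPolynomial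
open Pool.Agent.Helper8.LG (Bdd form mon Ix)
open Pool.Agent.Helper49.LN (cP mo hf pl)
open Pool.Agent.Helper6.QS (dv ev lf dt Par RatP)

section

variable {Ω : Type*} [Field Ω] {N r n : ℕ} {d : Fin r → ℕ}
  {D : Ix (Fin (N + 1)) d → Derivation ℤ Ω Ω} {a : Ix (Fin (N + 1)) d → Ω} {B : Subfield Ω}

/-- the last rows, normalised at the coordinate `m` -/
private noncomputable def RZ_tau (D : Ix (Fin (N + 1)) d → Derivation ℤ Ω Ω)
    (x : Fin (N + 1) → Ω) (m : Fin (N + 1)) (i : Fin r) : Fin (N + 1) → Ω :=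
  dvC D x (sg i ((x m)⁻¹ ^ d i • X m ^ d i))

private theorem RZ_coeff (O : ValuationSubring Ω) (m : Fin (N + 1)) (k : ℕ)
    (n : Fin (N + 1) →₀ ℕ) : coeff n (X m ^ k : MvPolynomial (Fin (N + 1)) Ω) ∈ O := by
  classical
  rw [coeff_X_pow]
  split_ifs
  · exact O.one_mem
  · exact O.zero_mem

private theorem RZ_core (e : Kx n r ≃ Fin (N + 1)) (x : Fin (N + 1) → Ω)
    (v : Fin n → Fin (N + 1) → Ω) (w : Fin n → ℕ) (hw : ∀ j, Wt D B x (w j) (v j))
    (m : Fin (N + 1)) (hm : x m ≠ 0) :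
    BddAt D B x m (dtm e x v (RZ_tau D x m) * x m ^ (∑ i, d i) /
      x m ^ (∑ j, w j + 1 + r)) := by
  classical
  choose s M hsB hs using hw
  refine ⟨Finset.univ.biUnion s, (∑ j, M j + 1) * (N + 1), ?_, fun O Δ hΔ hsO _ hmax => ?_⟩
  · intro b hb
    obtain ⟨j, -, hb⟩ := Finset.mem_biUnion.1 hb
    exact hsB j b hb
  · have h1 := fun j => hs j O Δ hΔ
      (fun b hb => hsO b (Finset.mem_biUnion.2 ⟨j, Finset.mem_univ j, hb⟩)) m hm hmax
    choose μ v' hv hv' using h1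
    have h2 := fun i : Fin r => dvC_scale (D := D) x m hm (sg i (X m ^ d i))
    choose c hc using h2
    set x' : Fin (N + 1) → Ω := fun l => x l / x m with hx'
    have hxx : x = x m • x' := by
      funext l
      rw [Pi.smul_apply, smul_eq_mul]
      exact (mul_div_cancel₀ _ hm).symm
    have hτ : ∀ i, RZ_tau D x m i = ((x m)⁻¹ ^ d i * x m) • dvC D x' (sg i (X m ^ d i)) +
        ((x m)⁻¹ ^ d i * c i) • x := by
      intro i
      have h3 : sg i ((x m)⁻¹ ^ d i • X m ^ d i) =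
          (x m)⁻¹ ^ d i • sg i (X m ^ d i : MvPolynomial (Fin (N + 1)) Ω) := by
        unfold sg
        rw [Pi.single_smul]
      rw [RZ_tau, h3, map_smul, hc, smul_add, smul_smul, smul_smul]
    have h4 := dtm_scale e x x' (x m) hxx v v' w μ hv (RZ_tau D x m)
      (fun i => dvC D x' (sg i (X m ^ d i))) (fun i => (x m)⁻¹ ^ d i * x m)
      (fun i => (x m)⁻¹ ^ d i * c i) hτ
    have h5 : ∏ i, ((x m)⁻¹ ^ d i * x m) = (x m)⁻¹ ^ (∑ i, d i) * x m ^ r := by
      rw [Finset.prod_mul_distrib, Finset.prod_pow_eq_pow_sum, Finset.prod_const,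
        Finset.card_univ, Fintype.card_fin]
    have h6 : dtm e x v (RZ_tau D x m) * x m ^ (∑ i, d i) / x m ^ (∑ j, w j + 1 + r) =
        dtm e x' v' (fun i => dvC D x' (sg i (X m ^ d i))) := by
      rw [h4, h5, inv_pow, div_eq_iff (pow_ne_zero _ hm)]
      have h7 : x m ^ (1 + ∑ j, w j) * ((x m ^ (∑ i, d i))⁻¹ * x m ^ r) *
          dtm e x' v' (fun i => dvC D x' (sg i (X m ^ d i))) * x m ^ (∑ i, d i) =
          x m ^ (1 + ∑ j, w j) * x m ^ r *
          dtm e x' v' (fun i => dvC D x' (sg i (X m ^ d i))) *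
            ((x m ^ (∑ i, d i))⁻¹ * x m ^ (∑ i, d i)) := by ring
      rw [h7, inv_mul_cancel₀ (pow_ne_zero _ hm)]
      ring
    rw [h6]
    refine dtm_mem e x' v' _ O Δ hΔ.1 (∑ j, M j + 1) hmax ?_ ?_
    · intro j l
      have h8 : M j ≤ ∑ j, M j := Finset.single_le_sum (fun _ _ => Nat.zero_le _)
        (Finset.mem_univ j)
      have h9 : ∑ j, M j + 1 = (∑ j, M j + 1 - M j) + M j := by omega
      rw [h9, pow_add, mul_assoc]
      exact O.mul_mem _ _ (pow_mem hΔ.1 _) (hv' j l)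
    · intro i l
      rw [pow_add, mul_assoc]
      refine O.mul_mem _ _ (pow_mem hΔ.1 _) ?_
      refine dvC_bdd x' O Δ hΔ hmax (sg i (X m ^ d i)) 0 (fun k q => ?_) l
      rw [pow_zero, one_mul]
      unfold sg
      by_cases hk : k = i
      · subst hk
        rw [Pi.single_eq_same]
        exact RZ_coeff O m _ q
      · rw [Pi.single_eq_of_ne hk, coeff_zero]
        exact O.zero_mem

/-- the difference of the forms vanishes at `x` -/
private theorem RZ_ev (x : Fin (N + 1) → Ω) (hx : x 0 = 1) (m : Fin (N + 1)) (hm : x m ≠ 0)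
    (i k : Fin r) :
    ev (d k) x ((sg i ((x m)⁻¹ ^ d i • X m ^ d i) - sg i (X 0 ^ d i) :
      Fin r → MvPolynomial (Fin (N + 1)) Ω) k) = 0 := by
  have h1 : ∀ l : Fin (N + 1), ev (d k) x (X l ^ d k : MvPolynomial (Fin (N + 1)) Ω) =
      x l ^ d k := by
    intro l
    rw [Pool.Agent.Helper6.QS.ev_hom]
    · rw [map_pow, eval_X]
    · simpa using (isHomogeneous_X Ω l).pow (d k)
  rw [Pi.sub_apply]
  unfold sg
  by_cases hk : k = i
  · subst hk
    rw [Pi.single_eq_same, Pi.single_eq_same, map_sub, map_smul, h1, h1, hx, one_pow,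
      smul_eq_mul, ← mul_pow, inv_mul_cancel₀ hm, one_pow, sub_self]
  · rw [Pi.single_eq_of_ne hk, Pi.single_eq_of_ne hk, sub_self, map_zero]

private theorem RZ_sub (x : Fin (N + 1) → Ω) (m : Fin (N + 1)) (i : Fin r) :
    RZ_tau D x m i - tau D x i = dvC D x (sg i ((x m)⁻¹ ^ d i • X m ^ d i) -
      sg i (X 0 ^ d i)) := by
  rw [RZ_tau, tau, map_sub]

theorem aa_at (hB : Frame D a B) (hn : n + r = N) (x : Fin (N + 1) → Ω) (hx : x 0 = 1)
    (hF : ∀ i, form (fun J => a ⟨i, J⟩) x = 0) (e : Kx n r ≃ Fin (N + 1))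
    (v : Fin n → Fin (N + 1) → Ω) (w : Fin n → ℕ) (hT : ∀ j, v j ∈ TT a x)
    (hw : ∀ j, Wt D B x (w j) (v j)) (m : Fin (N + 1)) (hm : x m ≠ 0) :
    BddAt D B x m (AA e D x v * x m ^ (∑ i, d i) / x m ^ (∑ j, w j + 1 + r)) := by
  have h1 : dtm e x v (RZ_tau D x m) = AA e D x v := by
    refine tan_change hB.dual hn x hx hF e v hT (RZ_tau D x m) fun i k => ?_
    rw [RZ_sub, nu_dvC hB.dual x hF, RZ_ev x hx m hm, neg_zero]
  rw [← h1]
  exact RZ_core e x v w hw m hm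

theorem aa_zero (hB : Frame D a B) (hn : n + r = N) (x : Fin (N + 1) → Ω) (hx : x 0 = 1)
    (hF : ∀ i, form (fun J => a ⟨i, J⟩) x = 0) (e : Kx n r ≃ Fin (N + 1))
    (v : Fin n → Fin (N + 1) → Ω) (w : Fin n → ℕ) (hT : ∀ j, v j ∈ TT a x)
    (hw : ∀ j, Wt D B x (w j) (v j)) (hsum : ∑ j, w j + 1 + r = ∑ i, d i) : AA e D x v ∈ B := by
  refine bd_mem hB hx _ fun m hm => ?_
  have h1 := aa_at hB hn x hx hF e v w hT hw m hm
  rw [hsum, mul_div_cancel_right₀ _ (pow_ne_zero _ hm)] at h1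
  exact h1

theorem aa_neg (hB : Frame D a B) (x : Fin (N + 1) → Ω) (hx : x 0 = 1)
    (e : Kx n r ≃ Fin (N + 1)) (v : Fin n → Fin (N + 1) → Ω) (w : Fin n → ℕ)
    (hw : ∀ j, Wt D B x (w j) (v j))
    (hspan : ∀ g : Fin r → MvPolynomial (Fin (N + 1)) Ω, (∀ i, ev (d i) x (g i) = 0) →
      dvC D x g ∈ Submodule.span Ω (insert x (Set.range v)))
    (hsum : ∑ j, w j + 2 + r ≤ ∑ i, d i) (hne : AA e D x v ≠ 0) : ∀ l, x l ∈ B := by
  refine bd_pt hB hx (AA e D x v) hne fun m hm => ?_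
  have h1 : dtm e x v (RZ_tau D x m) = AA e D x v := by
    refine dtm_change e x v _ _ fun i => ?_
    rw [RZ_sub]
    exact hspan _ fun k => RZ_ev x hx m hm i k
  have h2 := RZ_core e x v w hw m hm
  rw [h1] at h2
  obtain ⟨q, hq⟩ := Nat.exists_eq_add_of_le hsum
  have h3 : ∀ k : ℕ, BddAt D B x m ((x 0 / x m) ^ k) := by
    intro k
    induction k with
    | zero =>
      rw [pow_zero]
      exact bd_const 1 B.one_mem
    | succ k ih =>
      rw [pow_succ]
      exact bd_mul ih (bd_ratio 0)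
  have h4 : AA e D x v * x m = AA e D x v * x m ^ (∑ i, d i) / x m ^ (∑ j, w j + 1 + r) *
      (x 0 / x m) ^ q := by
    rw [hq, hx, one_div, inv_pow]
    have h5 : x m ^ (∑ j, w j + 2 + r + q) = x m ^ (∑ j, w j + 1 + r) * x m * x m ^ q := by
      ring
    rw [h5, div_mul_eq_mul_div, eq_div_iff (pow_ne_zero _ hm)]
    have h6 : AA e D x v * (x m ^ (∑ j, w j + 1 + r) * x m * x m ^ q) * (x m ^ q)⁻¹ =
        AA e D x v * (x m ^ (∑ j, w j + 1 + r) * x m) * (x m ^ q * (x m ^ q)⁻¹) := by ring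
    rw [h6, mul_inv_cancel₀ (pow_ne_zero _ hm)]
    ring
  rw [h4]
  exact bd_mul h2 (h3 q)

end

end Pool.Agent.Helper10.CI
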