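import Mathlib

/-!
# CI-RANKONE: a linear space of maps of rank at most one has a common kernel

`u l P` linear in `P`. If `P₁`, `P₂` have different image lines (`h2`), then `u l P₁ = λ_l w₁`,
`u l P₂ = μ_l w₂`, `P₁ + P₂` has rank at most one, so `μ = c λ`; every other `P` is compared with the one
of `P₁`, `P₂` whose image line is different. `t P = u l₀ P / λ_(l₀)`.
-/

set_option autoImplicit false

namespace Pool.Agent.Helper10.CI

private theorem RankOne_par {Ω : Type*} [Field Ω] {W : Type*} [AddCommGroup W] [Module Ω W]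
    {x y : W} (hx : x ≠ 0) (h : ¬ LinearIndependent Ω ![x, y]) : ∃ a : Ω, y = a • x := by
  rw [LinearIndependent.pair_iff' hx] at h
  push Not at h
  obtain ⟨a, ha⟩ := h
  exact ⟨a, ha.symm⟩

/-- if `p`, `q` are dependent and `q - a p = x ≠ 0` then `p` is a multiple of `x` -/
private theorem RankOne_mul {Ω : Type*} [Field Ω] {W : Type*} [AddCommGroup W] [Module Ω W]
    {p q x : W} {a : Ω} (h : ¬ LinearIndependent Ω ![p, q]) (hq : q = x + a • p) (hx : x ≠ 0) :
    ∃ b : Ω, p = b • x := by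
  by_cases hp : p = 0
  · exact ⟨0, by rw [hp, zero_smul]⟩
  · obtain ⟨c, hc⟩ := RankOne_par hp h
    have h1 : (c - a) • p = x := by
      rw [sub_smul, ← hc, hq]
      abel
    have h2 : c - a ≠ 0 := by
      intro h0
      apply hx
      rw [← h1, h0, zero_smul]
    refine ⟨(c - a)⁻¹, ?_⟩
    rw [← h1, smul_smul, inv_mul_cancel₀ h2, one_smul]

theorem rank_one {Ω : Type*} [Field Ω] {ι W S : Type*} [AddCommGroup W] [Module Ω W]
    [AddCommGroup S] [Module Ω S] (u : ι → S →ₗ[Ω] W)
    (h : ∀ P k l, ¬ LinearIndependent Ω ![u k P, u l P])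
    (h2 : ∃ k l P Q, LinearIndependent Ω ![u k P, u l Q]) :
    ∃ (y : ι → Ω) (t : S →ₗ[Ω] W), (∃ l, y l = 1) ∧ ∀ l P, u l P = y l • t P := by
  obtain ⟨k, l, P₁, P₂, hw⟩ := h2
  have hw0 := hw
  rw [LinearIndependent.pair_iff] at hw
  have hw1 : u k P₁ ≠ 0 := by
    intro h0
    have h1 := (hw 1 0 (by rw [h0, smul_zero, zero_smul, add_zero])).1
    exact one_ne_zero h1
  have hw2 : u l P₂ ≠ 0 := by
    intro h0
    have h1 := (hw 0 1 (by rw [h0, smul_zero, zero_smul, add_zero])).2
    exact one_ne_zero h1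
  have ha : ∀ m, ∃ a : Ω, u m P₁ = a • u k P₁ := fun m => RankOne_par hw1 (h P₁ k m)
  have hb : ∀ m, ∃ b : Ω, u m P₂ = b • u l P₂ := fun m => RankOne_par hw2 (h P₂ l m)
  choose a ha using ha
  choose b hb using hb
  have hak : a k = 1 := by
    have h1 : (a k - 1) • u k P₁ = 0 := by
      rw [sub_smul, one_smul, ← ha k, sub_self]
    rcases smul_eq_zero.1 h1 with h2 | h2
    · exact sub_eq_zero.1 h2
    · exact absurd h2 hw1
  have hbl : b l = 1 := by
    have h1 : (b l - 1) • u l P₂ = 0 := by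
      rw [sub_smul, one_smul, ← hb l, sub_self]
    rcases smul_eq_zero.1 h1 with h2 | h2
    · exact sub_eq_zero.1 h2
    · exact absurd h2 hw2
  have hab : ∀ m, b m = a m * b k := by
    intro m
    have h1 := h (P₁ + P₂) k m
    rw [LinearIndependent.pair_iff] at h1
    push Not at h1
    obtain ⟨s, t, hst, hne⟩ := h1
    rw [map_add, map_add, ha m, hb m, hb k] at hst
    have h3 : (s + t * a m) • u k P₁ + (s * b k + t * b m) • u l P₂ = 0 := by
      rw [← hst]
      module
    obtain ⟨h4, h5⟩ := hw _ _ h3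
    have ht : t ≠ 0 := by
      intro h0
      rw [h0, zero_mul, add_zero] at h4
      exact hne h4 h0
    have h6 : t * (b m - a m * b k) = 0 := by
      linear_combination h5 - b k * h4
    rcases mul_eq_zero.1 h6 with h7 | h7
    · exact absurd h7 ht
    · exact sub_eq_zero.1 h7
  have hbk : b k ≠ 0 := by
    intro h0
    have h1 := hab l
    rw [hbl, h0, mul_zero] at h1
    exact one_ne_zero h1
  have h2m : ∀ m, u m P₂ = a m • u k P₂ := by
    intro m
    rw [hb m, hb k, smul_smul, hab m]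
  refine ⟨a, u k, ⟨k, hak⟩, ?_⟩
  intro m P
  by_contra hne
  have hx : u m P - a m • u k P ≠ 0 := fun h0 => hne (sub_eq_zero.1 h0)
  obtain ⟨α, hα⟩ := RankOne_mul (a := a m) (x := u m P - a m • u k P) (h P k m)
    (by abel) hx
  obtain ⟨β, hβ⟩ := RankOne_mul (a := a m) (x := u m P - a m • u k P) (h (P + P₁) k m)
    (by rw [map_add, map_add, ha m, smul_add]; abel) hx
  obtain ⟨γ, hγ⟩ := RankOne_mul (a := a m) (x := u m P - a m • u k P) (h (P + P₂) k m)
    (by rw [map_add, map_add, h2m m, smul_add]; abel) hx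
  generalize u m P - a m • u k P = x at hx hα hβ hγ
  rw [map_add, hα] at hβ hγ
  rw [hb k] at hγ
  have h3 : u k P₁ = (β - α) • x := by
    rw [sub_smul, ← hβ]
    abel
  have h4 : b k • u l P₂ = (γ - α) • x := by
    rw [sub_smul, ← hγ]
    abel
  have h5 : (γ - α) • u k P₁ + (-((β - α) * b k)) • u l P₂ = 0 := by
    rw [neg_smul, mul_smul, h4, h3, smul_smul, smul_smul, mul_comm (γ - α), add_neg_cancel]
  obtain ⟨h6, h7⟩ := hw _ _ h5
  rw [h6, zero_smul] at h4
  rcases smul_eq_zero.1 h4 with h8 | h8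
  · exact hbk h8
  · exact hw2 h8

end Pool.Agent.Helper10.CI
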