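import Pool.Agent.Helper10.CI.Rat
import Pool.Agent.Helper6.QS.UlFrame

/-!
# CI: the ultrapower is a frame (any finite index type)

The helper statements are those of `Helper6.QS.UlFrame`.
-/

set_option autoImplicit false

namespace Pool.Agent.Helper10.CI

open scoped BigOperators
open MvPolynomial
open Pool.Agent.Helper8.LG
open Pool.Agent.Helper6.QS (UlFrameB ulFrame_mul ulFrame_one ulFrame_add ulFrame_zero ulFrame_neg
  ulFrame_inv ulFrame_const ulFrame_denom ulFrame_dir ulFrame_fdpow)

private theorem ulFrame_inv_der' {L : Type*} [Field L] (D : Derivation ℤ L L) (f : L) :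
    D f⁻¹ = -(f⁻¹ ^ 2) * D f := by
  have h := Derivation.leibniz_inv D f
  rw [h, smul_eq_mul]

theorem ul_frame {k L Ω : Type*} [Field k] [Field L] [CharZero L] [Algebra k L] [Field Ω]
    (Q : (ℕ → L) →+* Ω) (hQ : Function.Surjective Q)
    (hker : ∀ f, Q f = 0 ↔ ∀ᶠ m in (Filter.hyperfilter ℕ : Filter ℕ), f m = 0)
    {P : Type*} [DecidableEq P] [Finite P] (a : P → L)
    (hind : AlgebraicIndependent k a)
    (hfin : FiniteDimensional (IntermediateField.adjoin k (Set.range a)) L)
    (D : P → Derivation ℤ L L) (hD : ∀ I J, D J (a I) = if I = J then 1 else 0)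
    (hDk : ∀ J (c : k), D J (algebraMap k L c) = 0) :
    ∃ B : Subfield Ω, Frame (fun J => ulDer Q hQ hker (D J)) (fun J => Q fun _ => a J) B ∧
      ∀ y ∈ B, ∃ V : Submodule k L, FiniteDimensional k V ∧ ∃ f g : ℕ → L,
        (∀ m, f m ∈ V) ∧ (∀ m, g m ∈ V) ∧ Q g ≠ 0 ∧ y * Q g = Q f := by
  classical
  let B : Subfield Ω :=
    { carrier := {y | UlFrameB k Q y}
      mul_mem' := fun hy hz => ulFrame_mul Q hy hz
      one_mem' := ulFrame_one Q
      add_mem' := fun hy hz => ulFrame_add Q hy hz
      zero_mem' := ulFrame_zero Q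
      neg_mem' := fun hy => ulFrame_neg Q hy
      inv_mem' := fun _ hy => ulFrame_inv Q hy }
  refine ⟨B, ⟨?_, ?_, ?_⟩, fun y hy => hy⟩
  · intro I J
    show ulDer Q hQ hker (D J) (Q fun _ => a I) = _
    rw [ulDer_apply]
    split_ifs with h
    · have h1 : (fun _ : ℕ => D J (a I)) = 1 := by
        funext m
        rw [hD, if_pos h]
        rfl
      rw [h1, map_one]
    · have h1 : (fun _ : ℕ => D J (a I)) = 0 := by
        funext m
        rw [hD, if_neg h]
        rfl
      rw [h1, map_zero]
  · intro J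
    exact ulFrame_const Q (a J)
  · intro s hs y M h
    obtain ⟨V, hV, v, hv, hv0, hF⟩ := ulFrame_denom (k := k) Q hker s hs
    have hF' : ∀ b, ∃ f : ℕ → L, b ∈ s → (∀ m, f m ∈ V) ∧ b * Q v = Q f := by
      intro b
      by_cases hb : b ∈ s
      · obtain ⟨f, hf⟩ := hF b hb
        exact ⟨f, fun _ => hf⟩
      · exact ⟨0, fun h0 => absurd h0 hb⟩
    choose F hF using hF'
    obtain ⟨Y, rfl⟩ := hQ y
    have htr := others_transcendental (k := k) a hind
    have hof := others_finite (k := k) a hfin
    have hk : ∀ (p : P) (c : k), algebraMap k L c ∈ others (k := k) a p := fun p c =>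
      IntermediateField.algebraMap_mem _ c
    have hst : ∀ (p J : P), ∀ f ∈ others (k := k) a p, D J f ∈ others (k := k) a p := by
      intro p J f hf
      have hf' : f ∈ IntermediateField.adjoin k (a '' {p}ᶜ) := hf
      show D J f ∈ IntermediateField.adjoin k (a '' {p}ᶜ)
      induction hf' using IntermediateField.adjoin_induction with
      | mem x hx =>
        obtain ⟨r, _, rfl⟩ := hx
        rw [hD]
        split_ifs
        · exact one_mem _
        · exact zero_mem _
      | algebraMap c =>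
        rw [hDk J c]
        exact zero_mem _
      | add x y hx hy hx' hy' =>
        rw [map_add]
        exact add_mem (hx' hx) (hy' hy)
      | inv x hx hx' =>
        rw [ulFrame_inv_der']
        exact mul_mem (neg_mem (pow_mem (inv_mem hx) 2)) (hx' hx)
      | mul x y hx hy hx' hy' =>
        rw [Derivation.leibniz, smul_eq_mul, smul_eq_mul]
        exact add_mem (mul_mem hx (hy' hy)) (mul_mem hy (hx' hx))
    have hvar : ∀ (p J : P) (R : Subring L), D J (a p) ∈ R := by
      intro p J R
      rw [hD]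
      split_ifs
      · exact one_mem _
      · exact zero_mem _
    have h1 : ∀ p : P, ∃ Δ : L, Δ ≠ 0 ∧ ∀ᶠ m in (Filter.hyperfilter ℕ : Filter ℕ),
        Δ ^ (2 * M) * (v m ^ M * Y m) ∈ intCl (others (k := k) a p) (a p) := fun p =>
      ulFrame_dir Q hQ hker D (others (k := k) a p) (hk p) (a p) (htr p).1 (hof p).1
        (fun J => hst p J) (fun J => hvar p J _) V hV v hv s F (fun b hb => (hF b hb).1)
        (fun b hb => (hF b hb).2) Y M h
    have h2 : ∀ p : P, ∃ Δ : L, Δ ≠ 0 ∧ ∀ᶠ m in (Filter.hyperfilter ℕ : Filter ℕ),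
        Δ ^ (2 * M) * (v m ^ M * Y m) ∈ intCl (others (k := k) a p) (a p)⁻¹ := fun p =>
      ulFrame_dir Q hQ hker D (others (k := k) a p) (hk p) (a p)⁻¹ (htr p).2 (hof p).2
        (fun J => hst p J)
        (fun J => by
          have hinv : (a p)⁻¹ ∈ Subring.closure
              ((others (k := k) a p : Set L) ∪ {(a p)⁻¹}) :=
            Subring.subset_closure (Or.inr rfl)
          rw [ulFrame_inv_der']
          exact mul_mem (neg_mem (pow_mem hinv 2)) (hvar p J _))
        V hV v hv s F (fun b hb => (hF b hb).1) (fun b hb => (hF b hb).2) Y M h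
    choose Δ hΔ0 hΔ using h1
    choose Δ' hΔ0' hΔ' using h2
    obtain ⟨V₁, hV₁, hfd⟩ := fd a hind hfin (fun p => Δ p ^ (2 * M)) (fun p => Δ' p ^ (2 * M))
      (fun p => pow_ne_zero _ (hΔ0 p)) (fun p => pow_ne_zero _ (hΔ0' p))
    have h3 : ∀ᶠ m in (Filter.hyperfilter ℕ : Filter ℕ), v m ^ M * Y m ∈ V₁ := by
      have h4 := (Filter.eventually_all.2 hΔ).and (Filter.eventually_all.2 hΔ')
      filter_upwards [h4] with m hm
      exact hfd _ fun p => ⟨hm.1 p, hm.2 p⟩
    have hVM := ulFrame_fdpow V hV M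
    refine ⟨V₁ ⊔ V ^ M, inferInstance, fun m => if v m ^ M * Y m ∈ V₁ then v m ^ M * Y m else 0,
      fun m => v m ^ M, fun m => ?_, fun m => ?_, ?_, ?_⟩
    · show (if v m ^ M * Y m ∈ V₁ then v m ^ M * Y m else 0) ∈ V₁ ⊔ V ^ M
      split_ifs with hm
      · exact Submodule.mem_sup_left hm
      · exact Submodule.zero_mem _
    · exact Submodule.mem_sup_right (Submodule.pow_mem_pow V (hv m) M)
    · intro h0
      rw [hker] at h0
      obtain ⟨m, hm⟩ := h0.exists
      exact pow_ne_zero _ (hv0 m) hm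
    · rw [← map_mul, ul_eq Q hker]
      filter_upwards [h3] with m hm
      rw [if_pos hm]
      show Y m * v m ^ M = _
      rw [mul_comm]

end Pool.Agent.Helper10.CI
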